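import Pool.Agent.P.MP_41a2b4_ag.W.Iface

set_option autoImplicit false

namespace Pool.Agent.P.MP_41a2b4_ag.W

/-! Step TR. -/

section

open PowerSeries IsLocalRing

theorem p_TR :
    S_TR := by
  intro G B _ _ _ _ m
  refine ⟨fun S hS h g => ?_, fun s hs t ht => ?_⟩
  · let := Fintype.ofFinite (G ⧸ S)
    simp only [cor_eq]
    rw [Finset.smul_sum, ← sub_eq_iff_eq_add', ← Finset.sum_sub_distrib,
      ← Equiv.sum_comp (MulAction.toPerm h)]
    refine Finset.sum_congr rfl fun x _ => ?_
    obtain ⟨t, ht, e⟩ := exists_mul_out S h x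
    have e2 : t * x.out⁻¹ = (h • x).out⁻¹ * h := by
      rw [eq_inv_mul_iff_mul_eq, ← mul_assoc, ← e]; group
    rw [← mul_smul, e, mul_smul, hS t ht, ← mul_assoc t, e2, MulAction.toPerm_apply, ← smul_sub,
      mul_assoc]
    congr 1
    abel
  · obtain ⟨n, rfl⟩ := mem_powers_iff_mem_zpowers.2 ht
    induction n with
    | zero => simp
    | succ n ih =>
      intro a b
      have := ih (Subgroup.npow_mem_zpowers s n)
      simp only at this ⊢
      rw [pow_succ', mul_smul, this, hs, mul_assoc, mul_assoc]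

end

/-! Step CHI. -/

section

open PowerSeries IsLocalRing

attribute [-instance] PowerSeries.algebraPowerSeries

theorem chi_key {p : ℕ} [hp : Fact p.Prime] {G : Type} [Group G] [Finite G] (hG : IsPGroup p G)
    {K : Subgroup G} (hK : K ≠ ⊤) :
    ∃ (χ : G →* Multiplicative (ZMod p)) (b : G), (∀ x ∈ K, χ x = 1) ∧ χ b ≠ 1 := by
  obtain ⟨M, hM, hKM⟩ := (eq_top_or_exists_le_coatom K).resolve_left hK
  have := hG.isNilpotent
  have hN : M.Normal :=
    Subgroup.NormalizerCondition.normal_of_coatom M Group.normalizerCondition_of_isNilpotent hM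
  have hQ : IsPGroup p (G ⧸ M) := hG.to_quotient M
  have hnt : Nontrivial (G ⧸ M) := QuotientGroup.nontrivial_iff.2 hM.1
  obtain ⟨n, hn, hc⟩ := hQ.nontrivial_iff_card.1 hnt
  obtain ⟨x, hx⟩ := exists_prime_orderOf_dvd_card' (G := G ⧸ M) p
    (hc ▸ dvd_pow_self p hn.ne')
  obtain ⟨b, rfl⟩ := QuotientGroup.mk'_surjective M x
  have hb : QuotientGroup.mk' M b ≠ 1 := fun h => by
    rw [h, orderOf_one] at hx
    exact hp.out.one_lt.ne hx
  have h1 : (Subgroup.zpowers (QuotientGroup.mk' M b)).comap (QuotientGroup.mk' M) = ⊤ := by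
    refine hM.2 _ (lt_of_le_of_ne (fun y hy => ?_) fun h => hb ?_)
    · rw [Subgroup.mem_comap, QuotientGroup.mk'_apply M y, (QuotientGroup.eq_one_iff y).2 hy]
      exact one_mem _
    · refine (QuotientGroup.eq_one_iff b).2 ?_
      rw [h]
      exact Subgroup.mem_zpowers _
  have h2 : Subgroup.zpowers (QuotientGroup.mk' M b) = ⊤ := top_unique fun y _ => by
    obtain ⟨z, rfl⟩ := QuotientGroup.mk'_surjective M y
    exact (h1.ge (Subgroup.mem_top z) :)
  have h3 : Nat.card (G ⧸ M) = p := by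
    rw [← hx, ← Nat.card_zpowers, h2, Subgroup.card_top]
  let e : (G ⧸ M) ≃* Multiplicative (ZMod p) := mulEquivOfPrimeCardEq h3 (by simp)
  refine ⟨e.toMonoidHom.comp (QuotientGroup.mk' M), b, fun y hy => ?_, fun h => hb ?_⟩
  · rw [MonoidHom.comp_apply, QuotientGroup.mk'_apply, (QuotientGroup.eq_one_iff y).2 (hKM hy),
      map_one]
  · exact e.injective (h.trans e.map_one.symm)

theorem p_CHI :
    S_CHI := by
  intro p _ G _ _ hG
  have h1 : Nontrivial G → ∃ (χ : G →* Multiplicative (ZMod p)) (a : G), χ a ≠ 1 := fun _ => by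
    obtain ⟨χ, a, -, h⟩ := chi_key hG (K := ⊥) bot_ne_top
    exact ⟨χ, a, h⟩
  refine ⟨h1, fun hc => ?_⟩
  obtain ⟨χ, a, ha⟩ := h1 (not_subsingleton_iff_nontrivial.1 fun _ => hc inferInstance)
  obtain ⟨χ', b, h2, hb⟩ := chi_key hG (K := Subgroup.zpowers a)
    fun h => hc (isCyclic_iff_exists_zpowers_eq_top.2 ⟨a, h⟩)
  exact ⟨χ, χ', a, b, ha, h2 a (Subgroup.mem_zpowers a), hb⟩

end

/-! Step BC. -/

section

open PowerSeries IsLocalRing

section

variable {σ F K : Type} [Field F] [Field K] [Algebra F K]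

/-- A linear form applied to all coefficients. -/
noncomputable def bc_co (l : K →ₗ[F] F) (P : MvPolynomial σ K) : MvPolynomial σ F :=
  ∑ m ∈ P.support, MvPolynomial.monomial m (l (P.coeff m))

theorem bc_coeff (l : K →ₗ[F] F) (P : MvPolynomial σ K) (m : σ →₀ ℕ) :
    (bc_co l P).coeff m = l (P.coeff m) := by
  classical
  simp only [bc_co, MvPolynomial.coeff_sum, MvPolynomial.coeff_monomial, Finset.sum_ite_eq']
  split_ifs with h
  · rfl
  · rw [MvPolynomial.notMem_support_iff.1 h, map_zero]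

theorem bc_deg (l : K →ₗ[F] F) (P : MvPolynomial σ K) :
    (bc_co l P).totalDegree ≤ P.totalDegree :=
  Finset.sup_mono fun m hm => MvPolynomial.mem_support_iff.2 fun e =>
    MvPolynomial.mem_support_iff.1 hm (by rw [bc_coeff, e, map_zero])

theorem bc_coc {G : Type} [Group G] (l : K →ₗ[F] F) {c : G → MvPolynomial G K} (hc : IsCoc c) :
    IsCoc fun g => bc_co l (c g) := fun h g => by
  ext m
  obtain ⟨d, rfl⟩ := Finsupp.mapDomain_surjective (M := ℕ) (mul_left_surjective h) m
  rw [MvPolynomial.coeff_add, MvPolynomial.coeff_rename_mapDomain _ (mul_right_injective h),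
    bc_coeff, bc_coeff, bc_coeff, hc h g, MvPolynomial.coeff_add,
    MvPolynomial.coeff_rename_mapDomain _ (mul_right_injective h), map_add]

theorem bc_sum {ι : Type} (e : Module.Basis ι F K) (A : Finset ι) (P : MvPolynomial σ K)
    (hA : ∀ m, (e.repr (P.coeff m)).support ⊆ A) :
    P = ∑ a ∈ A, MvPolynomial.C (e a) * MvPolynomial.map (algebraMap F K) (bc_co (e.coord a) P) := by
  ext m
  simp only [MvPolynomial.coeff_sum, MvPolynomial.coeff_C_mul, MvPolynomial.coeff_map, bc_coeff,
    Module.Basis.coord_apply]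
  conv_lhs => rw [← e.linearCombination_repr (P.coeff m), Finsupp.linearCombination_apply,
    Finsupp.sum_of_support_subset _ (hA m) (fun i a => a • e i) fun _ _ => zero_smul _ _]
  exact Finset.sum_congr rfl fun a _ => by rw [Algebra.smul_def, mul_comm]

end

theorem p_BC :
    S_BC := by
  intro p _ G _ _ D
  classical
  refine ⟨?_, fun K _ _ x c hc ho hd => ?_⟩
  · have : Finite (MvPolynomial.restrictTotalDegree G (ZMod p) D) :=
      Module.finite_of_finite (ZMod p)
    refine Finite.of_injective (β := G → MvPolynomial.restrictTotalDegree G (ZMod p) D)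
      (fun c g => ⟨c.1 g, (MvPolynomial.mem_restrictTotalDegree _ _ _).2 (c.2.2.2 g)⟩)
      fun a b h => Subtype.ext (funext fun g => congrArg Subtype.val (congrFun h g))
  · have := Fintype.ofFinite G
    let e := Module.Basis.ofVectorSpace (ZMod p) K
    let A := Finset.univ.biUnion fun g : G =>
      (c g).support.biUnion fun m => (e.repr ((c g).coeff m)).support
    have hA : ∀ g m, (e.repr ((c g).coeff m)).support ⊆ A := fun g m a ha => by
      refine Finset.mem_biUnion.2 ⟨g, Finset.mem_univ g, Finset.mem_biUnion.2 ⟨m, ?_, ha⟩⟩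
      exact MvPolynomial.mem_support_iff.2 fun h => by simp [h] at ha
    let f : _ → Fam p G D := fun a => ⟨fun g => bc_co (e.coord a) (c g), bc_coc _ hc,
      fun g m hm => by rw [bc_coeff, ho g m hm, map_zero], fun g => (bc_deg _ _).trans (hd g)⟩
    have key : (fun g => MvPolynomial.eval x (c g)) =
        ∑ a ∈ A, e a • fun g => MvPolynomial.aeval x ((f a).1 g) := by
      funext g
      conv_lhs => rw [bc_sum e A (c g) (hA g)]
      simp only [map_sum, map_mul, MvPolynomial.eval_C, MvPolynomial.eval_map, Finset.sum_apply,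
        Pi.smul_apply, smul_eq_mul, MvPolynomial.aeval_def, f]
    rw [key]
    exact Submodule.sum_mem _ fun a _ => Submodule.smul_mem _ _ (Submodule.subset_span ⟨f a, rfl⟩)

end

/-! Step INT. -/

section

section

open MvPolynomial
open scoped Classical

variable {G K : Type} [Group G] [Field K]

theorem int_ren {P : MvPolynomial G K} (h : P ∈ idealOfVars G K ^ 2) (g : G) :
    rename (g * ·) P ∈ idealOfVars G K ^ 2 := by
  have h1 : (idealOfVars G K).map (rename (R := K) (g * ·)) ≤ idealOfVars G K := by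
    rw [idealOfVars, Ideal.map_span]
    refine Ideal.span_mono ?_
    rintro _ ⟨_, ⟨a, rfl⟩, rfl⟩
    exact ⟨g * a, (rename_X _ _).symm⟩
  refine Ideal.pow_right_mono h1 2 ?_
  rw [← Ideal.map_pow]
  exact Ideal.mem_map_of_mem _ h

omit [Group G] in
theorem int_ord {c : G → MvPolynomial G K} (h : ∀ g, c g ∈ idealOfVars G K ^ 2) : Ord2 c :=
  fun g m hm => (mem_pow_idealOfVars_iff' 2 _).1 (h g) m (Nat.lt_succ_of_le hm)

theorem int_b [Fintype G] {x : G → K} (hx : x ≠ 0) {H : Subgroup G}
    (hH : ∀ g, g ∈ H ↔ ∀ a, x (g * a) = x a) (g₀ : G) :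
    ∃ b : MvPolynomial G K, b ∈ idealOfVars G K ^ 2 ∧ b.totalDegree ≤ Fintype.card G + 2 ∧
      ∀ g, eval (fun a => x (g * a)) b = if g * g₀⁻¹ ∈ H then 1 else 0 := by
  obtain ⟨a, ha⟩ := Function.ne_iff.1 hx
  have h1 : ∀ g, ∃ l : MvPolynomial G K, l.totalDegree ≤ 1 ∧ eval (fun a => x (g₀ * a)) l = 1 ∧
      (g * g₀⁻¹ ∉ H → eval (fun a => x (g * a)) l = 0) := fun g => by
    by_cases e : g * g₀⁻¹ ∈ H
    · exact ⟨1, by simp, by simp, fun h => absurd e h⟩
    obtain ⟨u, hu⟩ := not_forall.1 (mt (hH _).2 e)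
    refine ⟨C (x u - x (g * g₀⁻¹ * u))⁻¹ * (X (g₀⁻¹ * u) - C (x (g * g₀⁻¹ * u))),
      (totalDegree_mul _ _).trans ?_, ?_, fun _ => by simp [mul_assoc]⟩
    · simpa using totalDegree_sub_C_le (X (g₀⁻¹ * u)) (x (g * g₀⁻¹ * u))
    · simpa using inv_mul_cancel₀ (sub_ne_zero.2 (Ne.symm hu))
  choose l l1 l2 l3 using h1
  refine ⟨X (g₀⁻¹ * a) ^ 2 * (C ((x a)⁻¹ ^ 2) * ∏ g, l g),
    Ideal.mul_mem_right _ _ (Ideal.pow_mem_pow (Ideal.subset_span (Set.mem_range_self _)) 2), ?_, fun g => ?_⟩
  · have h2 : (∏ g, l g).totalDegree ≤ _ :=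
      (totalDegree_finsetProd Finset.univ l).trans (Finset.sum_le_sum fun g _ => l1 g)
    have h3 := totalDegree_mul (C ((x a)⁻¹ ^ 2)) (∏ g, l g)
    refine (totalDegree_mul _ _).trans ?_
    rw [totalDegree_C] at h3
    rw [Finset.sum_const, Finset.card_univ, smul_eq_mul] at h2
    rw [totalDegree_X_pow]
    omega
  · split_ifs with e
    · have h2 : (fun a => x (g * a)) = fun a => x (g₀ * a) := funext fun a => by
        rw [← (hH _).1 e (g₀ * a), mul_assoc, inv_mul_cancel_left]
      have h3 : x a ≠ 0 := ha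
      simp [h2, l2, h3]
    · rw [map_mul, map_mul, map_prod, Finset.prod_eq_zero (Finset.mem_univ g) (l3 g e), mul_zero,
        mul_zero]

end

open PowerSeries IsLocalRing

theorem p_INT (hTR : S_TR) :
    S_INT := by
  classical
  intro G _ _
  let := Fintype.ofFinite G
  refine ⟨Fintype.card G * (Fintype.card G + 2), fun K _ x hx H hH => ⟨fun g₀ h₀ => ?_, fun χ => ?_⟩⟩
  · obtain ⟨b, b1, b2, b3⟩ := int_b hx hH g₀
    refine ⟨fun g => MvPolynomial.rename (g * ·) b - b, fun h g => ?_,
      int_ord fun g => sub_mem (int_ren b1 g) b1, fun g => ?_, fun g => ?_⟩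
    · simp only [map_sub, MvPolynomial.rename_rename, Function.comp_def, mul_assoc]
      ring
    · exact (MvPolynomial.totalDegree_sub _ _).trans (max_le
        ((MvPolynomial.totalDegree_rename_le _ _).trans (b2.trans (Nat.le_mul_of_pos_left _
          Fintype.card_pos))) (b2.trans (Nat.le_mul_of_pos_left _ Fintype.card_pos)))
    · have h1 := b3 1
      simp only [one_mul, inv_mem_iff, h₀, if_false] at h1
      rw [map_sub, MvPolynomial.eval_rename, h1, sub_zero]
      exact b3 g
  obtain ⟨b, b1, b2, b3⟩ := int_b hx hH 1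
  let := renAct G K
  have sm : ∀ (g : G) (P : MvPolynomial G K), g • P = MvPolynomial.rename (g * ·) P :=
    fun _ _ => rfl
  obtain ⟨φ, hφ⟩ : ∃ φ : G → K, ∀ (t : H) g, φ (t * g) = (χ t).toAdd + φ g := by
    have h1 : ∀ g : G, g * ((g⁻¹ : G) : G ⧸ H).out ∈ H := fun g => by
      simpa using QuotientGroup.eq.1 (QuotientGroup.out_eq' ((g⁻¹ : G) : G ⧸ H)).symm
    refine ⟨fun g => (χ ⟨_, h1 g⟩).toAdd, fun t g => ?_⟩
    have h2 : (((t * g)⁻¹ : G) : G ⧸ H) = (g⁻¹ : G) := QuotientGroup.eq.2 (by simp)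
    rw [← toAdd_mul, ← map_mul]
    exact congrArg (fun z => (χ z).toAdd) (Subtype.ext (by simp only [h2]; exact mul_assoc _ _ _))
  obtain ⟨f, f1, f2, f3, f4⟩ : ∃ f : MvPolynomial G K, f ∈ MvPolynomial.idealOfVars G K ^ 2 ∧
      f.totalDegree ≤ Fintype.card G * (Fintype.card G + 2) ∧ (∀ t ∈ H, t • f = f) ∧
      ∀ g : G, MvPolynomial.eval x (g • f) = if g ∈ H then 1 else 0 := by
    refine ⟨∏ t : H, (t : G) • b, Ideal.prod_mem _ (Finset.mem_univ 1) (int_ren b1 _), ?_,
      fun t ht => ?_, fun g => ?_⟩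
    · refine (MvPolynomial.totalDegree_finsetProd _ _).trans ((Finset.sum_le_sum fun t _ =>
        (MvPolynomial.totalDegree_rename_le _ _).trans b2).trans ?_)
      rw [Finset.sum_const, Finset.card_univ, smul_eq_mul]
      exact Nat.mul_le_mul_right _ (Fintype.card_subtype_le _)
    · rw [Finset.smul_prod']
      exact Fintype.prod_equiv (Equiv.mulLeft (⟨t, ht⟩ : H)) _ _ fun s => (mul_smul _ _ _).symm
    · have h1 : ∀ t : H, MvPolynomial.eval x (g • (t : G) • b) = if g ∈ H then 1 else 0 :=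
        fun t => by
          rw [← mul_smul, sm, MvPolynomial.eval_rename]
          simpa [H.mul_mem_cancel_right t.2, Function.comp_def] using b3 (g * t)
      rw [Finset.smul_prod', map_prod, Finset.prod_congr rfl fun t _ => h1 t]
      split_ifs <;> simp
  have sc : ∀ (g : G) (u v : K), g • (f * MvPolynomial.C u - f * MvPolynomial.C v) =
      g • f * MvPolynomial.C (u - v) := fun g u v => by
    rw [← mul_sub, ← map_sub, smul_mul', sm g (MvPolynomial.C _), MvPolynomial.rename_C]
  let := Fintype.ofFinite (G ⧸ H)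
  refine ⟨cor H fun g => f * MvPolynomial.C (φ g),
    (hTR G _ fun g => f * MvPolynomial.C (φ g)).1 H fun t ht u v => ?_,
    int_ord fun g => ?_, fun g => ?_, fun t => ?_⟩
  · rw [sc, f3 t ht, hφ ⟨t, ht⟩, hφ ⟨t, ht⟩, ← mul_sub, ← map_sub, add_sub_add_left_eq_sub]
  · rw [cor_eq]
    refine sum_mem fun y _ => ?_
    rw [sc]
    exact Ideal.mul_mem_right _ _ (int_ren f1 _)
  · rw [cor_eq]
    refine MvPolynomial.totalDegree_finsetSum_le fun y _ => ?_
    rw [sc]
    refine (MvPolynomial.totalDegree_mul _ _).trans ?_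
    rw [MvPolynomial.totalDegree_C]
    exact (MvPolynomial.totalDegree_rename_le _ _).trans f2
  · have h1 := out_one_mem H
    rw [cor_eq, map_sum, Finset.sum_eq_single ((1 : G) : G ⧸ H) (fun y _ hy => ?_) (by simp)]
    · have h2 := hφ ⟨_, H.inv_mem h1⟩ t
      have h3 := hφ ⟨_, H.inv_mem h1⟩ 1
      have h4 := hφ t 1
      rw [mul_one] at h3 h4
      rw [sc, map_mul, f4, if_pos h1, one_mul, MvPolynomial.eval_C, h2, h3, h4]
      ring
    · rw [sc, map_mul, f4, if_neg fun e => hy ?_, zero_mul]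
      rw [← QuotientGroup.out_eq' y]
      exact QuotientGroup.eq.2 (by simpa using e)

end

/-! Step TRD. -/

section

open PowerSeries IsLocalRing

theorem trd_card {F Ω κ : Type} [Field F] [Field Ω] [Algebra F Ω] [Fintype κ] (S : Finset Ω)
    {x : κ → Ω} (hx : AlgebraicIndependent F x)
    (h : ∀ i, x i ∈ IntermediateField.adjoin F (S : Set Ω)) : Fintype.card κ ≤ S.card := by
  have h1 : (AlgebraicIndependent.matroid F Ω).Indep (Set.range x) :=
    AlgebraicIndependent.matroid_indep_iff.2 hx.to_subtype_range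
  have h2 : Set.range x ⊆ (AlgebraicIndependent.matroid F Ω).closure S := by
    rintro _ ⟨i, rfl⟩
    rw [AlgebraicIndependent.matroid_closure_eq, SetLike.mem_coe, Subalgebra.mem_algebraicClosure,
      ← IntermediateField.isAlgebraic_adjoin_iff]
    exact isAlgebraic_algebraMap (⟨x i, h i⟩ : IntermediateField.adjoin F (S : Set Ω))
  have h3 := hx.injective.encard_range.trans ((h1.encard_le_eRk_of_subset h2).trans
    ((Matroid.eRk_closure_eq _ _).trans_le (Matroid.eRk_le_encard _ _)))
  rw [Set.encard_coe_eq_coe_finsetCard, ENat.card_eq_coe_fintype_card] at h3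
  exact_mod_cast h3

theorem p_TRD :
    S_TRD := by
  classical
  intro F Ω _ _ _ T ι I _ _ t z
  set K := IntermediateField.adjoin F (T : Set Ω) with hK
  intro a hz hi hs
  let A : Matrix I ι K := a
  let W : Submodule K (I → K) := Submodule.span K (Set.range A.col)
  have hr : Module.finrank K (Submodule.span K (Set.range a)) = Module.finrank K W :=
    (A.rank_eq_finrank_span_row).symm.trans A.rank_eq_finrank_span_cols
  obtain ⟨W', hW⟩ := W.exists_isCompl
  have hd := Submodule.finrank_add_eq_of_isCompl hW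
  rw [Module.finrank_fintype_fun_eq_card] at hd
  let ψ : (I → K) →ₗ[K] Ω := Fintype.linearCombination K t
  let b := Module.finBasis K W'
  let S : Finset Ω := T ∪ Finset.univ.image fun j => ψ (b j)
  have hle : K ≤ IntermediateField.adjoin F (S : Set Ω) :=
    IntermediateField.adjoin.mono _ _ _ (Finset.coe_subset.2 Finset.subset_union_left)
  let V : Submodule K Ω :=
    { carrier := IntermediateField.adjoin F (S : Set Ω)
      add_mem' := add_mem
      zero_mem' := zero_mem _
      smul_mem' := fun c _ h => mul_mem (hle c.2) h }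
  have h1 : W ≤ V.comap ψ := Submodule.span_le.2 (by
    rintro _ ⟨g, rfl⟩
    refine hle ?_
    rw [Fintype.linearCombination_apply]
    exact Finset.sum_congr rfl (fun i _ => mul_comm (t i) (a i g : Ω)) ▸ hs g)
  have h2 : W' ≤ V.comap ψ := fun w hw => by
    have e := congrArg Subtype.val (b.sum_repr ⟨w, hw⟩)
    rw [AddSubmonoidClass.coe_finsetSum] at e
    rw [show w = _ from e.symm]
    refine sum_mem fun j _ => Submodule.smul_mem _ _ (IntermediateField.subset_adjoin _ _ ?_)
    exact Finset.mem_coe.2 (Finset.mem_union_right _ (Finset.mem_image_of_mem _ (Finset.mem_univ j)))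
  have h3 : ∀ w, ψ w ∈ V := fun w =>
    (hW.sup_eq_top.ge.trans (sup_le h1 h2)) (Submodule.mem_top (x := w))
  have h4 := trd_card S hi fun o => by
    cases o with
    | none => exact hle hz
    | some i =>
      have := h3 (Pi.single i 1)
      rwa [Fintype.linearCombination_apply_single, one_smul] at this
  have h5 : S.card ≤ T.card + Module.finrank K W' :=
    (Finset.card_union_le _ _).trans (Nat.add_le_add_left (Finset.card_image_le.trans (by simp)) _)
  rw [Fintype.card_option] at h4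
  omega

end

/-! Step RANK. -/

section

open PowerSeries IsLocalRing

theorem p_RANK :
    S_RANK := by
  classical
  intro G K _ _ _ H V hV
  let W : Submodule K (G → K) := V ⊓ ⨅ h : H, LinearMap.ker (LinearMap.proj (h : G))
  have mW : ∀ f, f ∈ W ↔ f ∈ V ∧ ∀ h ∈ H, f h = 0 := fun f => by
    simp [W, Submodule.mem_iInf]
  let := Fintype.ofFinite (G ⧸ H)
  let e : {q : G ⧸ H // ¬ q = ((1 : G) : G ⧸ H)} → G → K :=
    fun q g => if g * q.1.out ∈ H then 1 else 0
  have nq : ∀ q : {q : G ⧸ H // ¬ q = ((1 : G) : G ⧸ H)}, q.1.out ∉ H := fun q h =>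
    q.2 (by rw [← QuotientGroup.out_eq' q.1, eq_comm, QuotientGroup.eq]; simpa using h)
  have li : LinearIndependent K e := by
    rw [Fintype.linearIndependent_iff]
    intro a ha q
    have := congrFun ha q.1.out⁻¹
    rw [Finset.sum_apply, Finset.sum_eq_single q] at this
    · simpa [e] using this
    · intro q' _ hq
      have : q.1.out⁻¹ * q'.1.out ∉ H := fun h => hq (Subtype.ext (by
        rw [← QuotientGroup.out_eq' q.1, ← QuotientGroup.out_eq' q'.1, eq_comm, QuotientGroup.eq]
        exact h))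
      simp [e, this]
    · simp
  have hW : H.index ≤ Module.finrank K W + 1 := by
    have h1 : Submodule.span K (Set.range e) ≤ W := by
      rw [Submodule.span_le]
      rintro _ ⟨q, rfl⟩
      refine (mW _).2 ⟨?_, fun h hh => if_neg fun h' => nq q ((H.mul_mem_cancel_left hh).1 h')⟩
      simpa [e] using hV q.1.out⁻¹ (fun h => nq q (H.inv_mem_iff.1 h))
    have h2 := Submodule.finrank_mono h1
    rw [finrank_span_eq_card li, Fintype.card_subtype_compl, Fintype.card_subtype_eq] at h2
    rw [Subgroup.index_eq_card, Nat.card_eq_fintype_card]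
    omega
  refine ⟨fun v hv a ha h => ?_, fun v₁ h₁ v₂ h₂ a ha b hb k1 k2 k3 => ?_⟩
  · have : W < V := lt_of_le_of_ne inf_le_left fun e' => h (((mW v).1 (e' ▸ hv)).2 a ha)
    have := Submodule.finrank_lt_finrank_of_lt this
    omega
  · let W' : Submodule K (G → K) := V ⊓ LinearMap.ker (LinearMap.proj a)
    have l1 : W < W' := lt_of_le_of_ne
      (fun f hf => ⟨((mW f).1 hf).1, ((mW f).1 hf).2 a ha⟩)
      fun e' => k3 (((mW v₂).1 (e' ▸ (⟨h₂, k2⟩ : v₂ ∈ W'))).2 b hb)
    have l2 : W' < V := lt_of_le_of_ne inf_le_left fun e' => k1 (e' ▸ h₁ : v₁ ∈ W').2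
    have := Submodule.finrank_lt_finrank_of_lt l1
    have := Submodule.finrank_lt_finrank_of_lt l2
    omega

end

/-! Step GENC. -/

section

open PowerSeries IsLocalRing

/-- The stabilizer of a point. -/
def genc_st {G Ω : Type} [Group G] (x : G → Ω) : Subgroup G where
  carrier := {g | ∀ a, x (g * a) = x a}
  one_mem' a := by rw [one_mul]
  mul_mem' h h' a := by rw [mul_assoc, h, h']
  inv_mem' {g} h a := by rw [← h, mul_inv_cancel_left]

theorem genc_card {G Ω : Type} [Group G] [Fintype G] [DecidableEq Ω] (x : G → Ω) :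
    (Finset.univ.image x).card ≤ (genc_st x).index := by
  have := Fintype.ofFinite (G ⧸ genc_st x)
  rw [Subgroup.index, Nat.card_eq_fintype_card]
  refine (Finset.card_le_card fun y hy => ?_).trans
    (Finset.card_image_le (f := fun q : G ⧸ genc_st x => x q.out⁻¹))
  obtain ⟨a, -, rfl⟩ := Finset.mem_image.1 hy
  obtain ⟨h, e⟩ := QuotientGroup.mk_out_eq_mul (genc_st x) a⁻¹
  exact Finset.mem_image.2 ⟨(a⁻¹ : G), Finset.mem_univ _, by
    rw [e, mul_inv_rev, inv_inv]; exact (genc_st x).inv_mem h.2 a⟩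

theorem p_GENC (hCHI : S_CHI) (hBC : S_BC) (hINT : S_INT) (hTRD : S_TRD) (hRANK : S_RANK) :
    S_GENC := by
  intro p _ G _ _ hG
  classical
  obtain ⟨D, hD⟩ := hINT G
  obtain ⟨hf, hbc⟩ := hBC p G D
  have := Fintype.ofFinite G
  let := Fintype.ofFinite (Fam p G D)
  refine ⟨Fam p G D, inferInstance, fun i => i.1, fun i => i.2.1, fun i => i.2.2.1, ?_⟩
  intro Ω _ _ x t z b x0 hind heq H hH
  have hle : H ≤ genc_st x := hH
  set T : Finset Ω := insert z (Finset.univ.image x)
  set K := IntermediateField.adjoin (ZMod p) (T : Set Ω)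
  have hx : ∀ g, x g ∈ K := fun g => IntermediateField.subset_adjoin _ _ (by simp [T])
  have hz : z ∈ K := IntermediateField.subset_adjoin _ _ (by simp [T])
  let y : G → K := fun g => ⟨x g, hx g⟩
  have ev : ∀ P : MvPolynomial G (ZMod p),
      ((MvPolynomial.aeval y P : K) : Ω) = MvPolynomial.aeval x P := fun P =>
    MvPolynomial.comp_aeval_apply y K.val P
  have tr := hTRD (ZMod p) Ω T G (Fam p G D) t z (fun i g => MvPolynomial.aeval y (i.1 g)) hz hind
    fun g => by
      simp only [ev]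
      rw [show ∑ i, t i * MvPolynomial.aeval x (i.1 g) =
        x g - x 1 - z * algebraMap (ZMod p) Ω (b g) by linear_combination -heq g]
      exact sub_mem (sub_mem (hx g) (hx 1)) (mul_mem hz (K.algebraMap_mem _))
  obtain ⟨i1, i2⟩ := hD K y (fun e => x0 (funext fun g => congrArg Subtype.val (congrFun e g)))
    (genc_st x) fun g => forall_congr' fun a => (Subtype.ext_iff (a1 := y _) (a2 := y _)).symm
  obtain ⟨r1, r2⟩ := hRANK G K (genc_st x) _ fun g hg => by
    obtain ⟨c, c1, c2, c3, c4⟩ := i1 g hg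
    exact funext c4 ▸ hbc K y c c1 c2 c3
  have ch : ∀ χ : genc_st x →* Multiplicative (ZMod p), ∃ v ∈ Submodule.span K
      (Set.range fun (i : Fam p G D) g => MvPolynomial.aeval y (i.1 g)),
      ∀ a : genc_st x, v a = 0 ↔ χ a = 1 := fun χ => by
    obtain ⟨c, c1, c2, c3, c4⟩ := i2
      ((AddMonoidHom.toMultiplicative (algebraMap (ZMod p) K).toAddMonoidHom).comp χ)
    exact ⟨_, hbc K y c c1 c2 c3, fun a => by
      rw [c4 a]
      exact (map_eq_zero (algebraMap (ZMod p) K)).trans toAdd_eq_zero⟩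
  obtain ⟨k1, k2⟩ := hCHI p (genc_st x) (hG.to_subgroup _)
  have hc := genc_card x
  refine ⟨?_, fun e => by_contra fun n => ?_⟩
  · suffices IsCyclic (genc_st x) from Subgroup.isCyclic_of_le hle
    by_contra n
    obtain ⟨χ₁, χ₂, a, a', h1, h2, h3⟩ := k2 n
    obtain ⟨v, v1, v2⟩ := ch χ₁
    obtain ⟨w, w1, w2⟩ := ch χ₂
    have := (Nat.succ_le_succ
      (r2 v v1 w w1 a a.2 a' a'.2 (mt (v2 a).1 h1) ((w2 a).2 h2) (mt (w2 a').1 h3))).trans
      (tr.trans (Finset.card_insert_le z (Finset.univ.image x)))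
    omega
  · obtain ⟨χ, a, h1⟩ := k1 ((Subgroup.nontrivial_iff_ne_bot _).2 fun e' =>
      n (le_bot_iff.1 (e' ▸ hle)))
    obtain ⟨v, v1, v2⟩ := ch χ
    have := (Nat.succ_le_succ (r1 v v1 a a.2 (mt (v2 a).1 h1))).trans (tr.trans_eq
      (congrArg Finset.card (Finset.insert_eq_of_mem (s := Finset.univ.image x) (by simp [e]))))
    omega

end

end Pool.Agent.P.MP_41a2b4_ag.W
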