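import Pool.Agent.P.MP_41a2b4_ag.W.Iface
import Pool.Agent.P.MP_41a2b4_ag.Ring

set_option autoImplicit false

namespace Pool.Agent.P.MP_41a2b4_ag.W

/-! Step SPEC. -/

section

open PowerSeries IsLocalRing

theorem spec_comb {p : ℕ} {G I R A B : Type} [Fintype I] [CommRing R] [Algebra (ZMod p) R]
    [CommRing A] [Algebra R A] [Algebra (ZMod p) A] [IsScalarTower (ZMod p) R A] [CommRing B]
    [Algebra (ZMod p) B] (ψ : A →ₐ[ZMod p] B) (t : I → R) (c : I → G → MvPolynomial G (ZMod p))
    [Group G] (x : G → A) (g : G) : ψ (MvPolynomial.aeval x (comb t c g)) =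
      ∑ i, ψ (algebraMap R A (t i)) * MvPolynomial.aeval (fun g => ψ (x g)) (c i g) := by
  simp only [comb, map_sum, map_mul, MvPolynomial.aeval_C, MvPolynomial.aeval_map_algebraMap,
    MvPolynomial.comp_aeval_apply]

theorem spec_ind (F I : Type) [Field F] : AlgebraicIndependent F fun o : Option I =>
    o.elim (X : (MvPolynomial I F)⟦X⟧) fun i => C (MvPolynomial.X i) := by
  have e : (MvPolynomial.aeval fun o : Option I =>
      o.elim (X : (MvPolynomial I F)⟦X⟧) fun i => C (MvPolynomial.X i)) =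
      ((Polynomial.coeToPowerSeries.algHom (R := MvPolynomial I F)
        (MvPolynomial I F)).restrictScalars F).comp (MvPolynomial.optionEquivLeft F I).toAlgHom :=
    MvPolynomial.algHom_ext fun o => by cases o <;> simp
  rw [AlgebraicIndependent, e]
  exact fun a b h => (MvPolynomial.optionEquivLeft F I).injective (by simpa using h)

theorem p_SPEC (hCURVE : S_CURVE) (hEVU : S_EVU) :
    S_SPEC := by
  classical
  intro p _ G _ _ I _ c hc ho hg k _ _ _
  let U := MvPolynomial I (ZMod p)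
  obtain ⟨⟨x, h0, h1⟩, h2⟩ := hCURVE G U ⊥ inferInstance (comb MvPolynomial.X c) (fun h g => by
    simp only [comb, hc _ h g, map_add, mul_add, Finset.sum_add_distrib, map_sum, map_mul,
      MvPolynomial.rename_C, MvPolynomial.map_rename]) fun g m hm => by
    simp [comb, MvPolynomial.coeff_sum, MvPolynomial.coeff_map, ho _ g m hm]
  obtain ⟨h3, α, hα⟩ := h2 x h0 h1
  have key : ∀ s, s ≠ 1 → x s ≠ X := fun s hs e => by
    have a1 : α s = 1 := AlgEquiv.ext fun f => DFunLike.congr_fun
      ((hEVU U U⟦X⟧ (Ideal.span {X})).2.2.1 (α s) (RingHom.id _) inferInstance (α s).commutes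
        (by rw [RingHom.coe_coe, ← h3, hα, mul_one, e, h3]; exact Ideal.mem_span_singleton_self _)
        (by rw [RingHom.coe_coe, RingHom.id_apply, ← h3, hα, mul_one, e, h3])) f
    let ι := IsScalarTower.toAlgHom (ZMod p) U⟦X⟧ (FractionRing U⟦X⟧)
    have inj : Function.Injective ι := IsFractionRing.injective U⟦X⟧ (FractionRing U⟦X⟧)
    have := (hg (FractionRing U⟦X⟧) (fun g => ι (x g)) (fun i => ι (C (MvPolynomial.X i))) (ι X) 0
      (fun e => X_ne_zero (inj (h3 ▸ (congrFun e 1).trans (map_zero ι).symm)))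
      (by
        refine (congrArg (fun v => AlgebraicIndependent (ZMod p) v) (funext fun o => ?_)).mp
          ((spec_ind (ZMod p) I).map' inj)
        cases o <;> rfl)
      (fun g => by
        rw [h3, Pi.zero_apply, map_zero, mul_zero, add_zero]
        conv_lhs => rw [h1 g, map_add, spec_comb]
        rfl)
      (Subgroup.zpowers s) fun h hh a => by
        rw [← hα, show α h = 1 from Subgroup.zpowers_le_of_mem (H := α.ker) a1 hh]
        rfl).2 (by rw [h3])
    exact hs (Subgroup.zpowers_eq_bot.1 this)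
  have := Fintype.ofFinite G
  choose! n hn using fun s hs => (PowerSeries.ext_iff.not.1 (key s hs) |> not_forall.1)
  obtain ⟨t, ht⟩ : ∃ t : I → k, MvPolynomial.aeval t (∏ s ∈ Finset.univ.erase 1,
      (coeff (n s) (x s) - coeff (n s) X : U)) ≠ 0 := by
    by_contra! h
    refine (Finset.prod_ne_zero_iff (s := Finset.univ.erase 1)).2
      (fun s hs => sub_ne_zero.2 (hn s (Finset.ne_of_mem_erase hs))) (MvPolynomial.map_injective (algebraMap (ZMod p) k) (algebraMap (ZMod p) k).injective
        (MvPolynomial.funext fun t => ?_))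
    rw [MvPolynomial.eval_map, ← MvPolynomial.aeval_def, h, map_zero, map_zero]
  let φ : U →ₐ[ZMod p] k := MvPolynomial.aeval t
  let ψ := PowerSeries.mapAlgHom φ
  have ψX : ψ X = X := map_X _
  refine ⟨t, fun g => ψ (x g), fun g => ?_, fun g => ?_, fun s hs e => ?_⟩
  · have : constantCoeff (x g) = 0 := h0 g
    rw [← coeff_zero_eq_constantCoeff_apply] at this ⊢
    exact (coeff_map _ _ _).trans (by rw [this, map_zero])
  · beta_reduce
    have := spec_comb (AlgHom.id (ZMod p) k⟦X⟧) t c (fun g => ψ (x g)) g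
    rw [AlgHom.id_apply] at this
    rw [this]
    conv_lhs => rw [h1 g, map_add, spec_comb, ψX]
    refine congrArg _ (Finset.sum_congr rfl fun i _ => congrArg (· * _) ?_)
    exact (map_C _ _).trans (congrArg C (MvPolynomial.aeval_X t i))
  · rw [map_prod, Finset.prod_ne_zero_iff] at ht
    refine ht s (Finset.mem_erase.2 ⟨hs, Finset.mem_univ _⟩) ?_
    rw [map_sub, sub_eq_zero]
    exact (coeff_map _ _ _).symm.trans ((congrArg _ (e.trans ψX.symm)).trans (coeff_map _ _ _))

end

/-! Step IND. -/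

section

open PowerSeries IsLocalRing

attribute [-instance] PowerSeries.algebraPowerSeries

open Classical in
theorem ind_unc {k : Type} [Field k] (c : k) {S : Set k⟦X⟧} (hS : S.Countable) :
    ∃ a : k⟦X⟧, a ∉ S ∧ constantCoeff a = c := by
  by_contra h
  push Not at h
  let f : Set ℕ → k⟦X⟧ := fun A => C c + X * PowerSeries.mk fun n => if n ∈ A then 1 else 0
  have hf : Function.Injective f := fun A B e => by
    have e1 := mul_left_cancel₀ X_ne_zero (add_left_cancel e)
    ext n
    have e2 := congrArg (coeff n) e1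
    rw [coeff_mk, coeff_mk] at e2
    by_cases a : n ∈ A <;> by_cases b : n ∈ B <;> simp_all
  have h1 : f ⁻¹' S = Set.univ := Set.eq_univ_of_forall fun A =>
    by_contra fun e => h (f A) e (by simp [f])
  have h2 := hS.preimage_of_injOn hf.injOn
  rw [h1, Set.countable_univ_iff] at h2
  obtain ⟨g, hg⟩ := exists_surjective_nat (Set ℕ)
  exact Function.cantor_surjective g hg

theorem p_IND :
    S_IND := by
  intro F k _ _ _ _ I _
  induction I using Finite.induction_empty_option with
  | of_equiv e ih =>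
    intro t₀
    obtain ⟨t, h1, h2⟩ := ih (t₀ ∘ e)
    exact ⟨t ∘ e.symm, h1.comp _ e.symm.injective, fun i => by simp [h2]⟩
  | h_empty =>
    exact fun t₀ => ⟨fun i => i.elim, (algebraicIndependent_empty_type_iff).2
      (algebraMap F k⟦X⟧).injective, fun i => i.elim⟩
  | @h_option I _ ih =>
    intro t₀
    obtain ⟨t, h1, h2⟩ := ih (t₀ ∘ some)
    have h3 : Countable (MvPolynomial I F) := by
      rw [← Cardinal.mk_le_aleph0_iff]
      exact MvPolynomial.cardinalMk_le_max.trans (by simp)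
    have h4 : Countable (Algebra.adjoin F (Set.range t)) := h1.aevalEquiv.symm.injective.countable
    obtain ⟨a, ha, hc⟩ := ind_unc (t₀ none)
      (Algebraic.countable (Algebra.adjoin F (Set.range t)) k⟦X⟧)
    refine ⟨fun o => o.elim a t, (h1.option_iff_transcendental a).2 ha, fun i => ?_⟩
    cases i
    exacts [hc, h2 _]

end

/-! Step ISO. -/

section

open PowerSeries IsLocalRing

attribute [-instance] PowerSeries.algebraPowerSeries

theorem p_ISO (hEVE : S_EVE) :
    S_ISO := by
  intro k O _ _ _ _ _ hc hr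
  obtain ⟨ϖ, hϖ⟩ := IsDiscreteValuationRing.exists_irreducible O
  have hm : maximalIdeal O = Ideal.span {ϖ} := hϖ.maximalIdeal_eq
  obtain ⟨φ, hφ⟩ := (hEVE k O _ hc).2.2.2 ϖ (hm ▸ Ideal.mem_span_singleton_self ϖ)
  have hI : (Ideal.span {X} : Ideal k⟦X⟧).map (φ : k⟦X⟧ →+* O) = maximalIdeal O := by
    rw [Ideal.map_span, Set.image_singleton, hm]
    exact congrArg (fun a => Ideal.span {a}) hφ
  have hinj : Function.Injective φ := by
    rw [injective_iff_map_eq_zero]
    intro f hf
    by_contra h0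
    rw [← X_pow_order_mul_divXPowOrder (f := f), map_mul, map_pow, hφ] at hf
    exact mul_ne_zero (pow_ne_zero _ hϖ.ne_zero)
      ((isUnit_divided_by_X_pow_order h0).map φ).ne_zero hf
  have hsurj : Function.Surjective (φ : k⟦X⟧ →+* O) := by
    refine surjective_of_mk_map_comp_surjective (I := Ideal.span {X}) _
      (haus := hI ▸ hc.toIsHausdorff) fun y => ?_
    obtain ⟨a, rfl⟩ := Ideal.Quotient.mk_surjective y
    obtain ⟨r, hr⟩ := hr a
    refine ⟨algebraMap k _ r, ?_⟩
    rw [RingHom.comp_apply, eq_comm, Ideal.Quotient.eq, hI]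
    simpa only [RingHom.coe_coe, AlgHom.commutes] using hr
  exact ⟨(AlgEquiv.ofBijective φ ⟨hinj, hsurj⟩).symm⟩

end

/-! Step SEP. -/

section

open PowerSeries IsLocalRing

open RingAux in
theorem sep_good (k : Type) [Field k] [IsAlgClosed k] (R : Type) [CommRing R] [IsDedekindDomain R]
    [Algebra k⟦X⟧ R] [Module.Finite k⟦X⟧ R] [Algebra k R] [IsScalarTower k k⟦X⟧ R]
    (hinj : Function.Injective (algebraMap k⟦X⟧ R)) :
    ∃ _ : IsDiscreteValuationRing R, IsAdicComplete (maximalIdeal R) R ∧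
      ∀ a : R, ∃ r : k, a - algebraMap k R r ∈ maximalIdeal R := by
  set I : Ideal k⟦X⟧ := Ideal.span {X} with hI
  set J : Ideal R := I.map (algebraMap k⟦X⟧ R) with hJ
  have hcJ : IsAdicComplete J R := complete_of_finite I R
  have hImax : I.IsMaximal := by
    rw [hI, ← maximalIdeal_eq_span_X]
    infer_instance
  have hart0 : IsArtinianRing (k⟦X⟧ ⧸ I) := by
    let _ := Ideal.Quotient.field I
    infer_instance
  have hfin : Module.Finite (k⟦X⟧ ⧸ I) (R ⧸ J) := by
    have : Module.Finite k⟦X⟧ (R ⧸ J) := inferInstance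
    exact Module.Finite.of_restrictScalars_finite k⟦X⟧ _ _
  have hart : IsArtinianRing (R ⧸ J) := IsArtinianRing.of_finite (k⟦X⟧ ⧸ I) (R ⧸ J)
  have hloc : IsLocalRing R := isLocalRing_of_complete J
  have hJle : J ≤ maximalIdeal R := by
    rw [← jacobson_eq_maximalIdeal ⊥ bot_ne_top]
    exact IsAdicComplete.le_jacobson_bot J
  have hJtop : J ≠ ⊤ := fun h => by
    rw [h, top_le_iff] at hJle
    exact (maximalIdeal.isMaximal R).ne_top hJle
  have hpJ : algebraMap k⟦X⟧ R X ∈ J := Ideal.mem_map_of_mem _ (Ideal.mem_span_singleton_self _)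
  have hJbot : J ≠ ⊥ := fun h => by
    rw [h, Ideal.mem_bot, map_eq_zero_iff _ hinj] at hpJ
    exact X_ne_zero hpJ
  have hnf : ¬ IsField R := Ring.not_isField_of_ne_of_ne hJbot hJtop
  have hdvr : IsDiscreteValuationRing R :=
    ((IsDiscreteValuationRing.TFAE R hnf).out 0 2).2 (inferInstance : IsDedekindDomain R)
  refine ⟨hdvr, ?_, fun a => ?_⟩
  · obtain ⟨ϖ, hϖ⟩ := IsDiscreteValuationRing.exists_irreducible R
    obtain ⟨e, he⟩ := IsDiscreteValuationRing.ideal_eq_span_pow_irreducible hJbot hϖ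
    rw [← Ideal.span_singleton_pow, ← hϖ.maximalIdeal_eq] at he
    have he0 : 0 < e := by
      rcases Nat.eq_zero_or_pos e with h | h
      · rw [h, pow_zero, Ideal.one_eq_top] at he
        exact absurd he hJtop
      · exact h
    have hpre : IsPrecomplete (maximalIdeal R) R :=
      precomplete_of_pow _ e he0 (he ▸ hcJ.toIsPrecomplete)
    exact {}
  · let g : k⟦X⟧ →+* ResidueField R := (residue R).comp (algebraMap k⟦X⟧ R)
    let φ : k →+* ResidueField R := (residue R).comp (algebraMap k R)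
    have hφ : φ.comp (constantCoeff : k⟦X⟧ →+* k) = g := RingHom.ext fun f => by
      have h1 : f - algebraMap k k⟦X⟧ (constantCoeff f) ∈ I :=
        Ideal.mem_span_singleton.2 (X_dvd_iff.2 (by simp))
      have h2 := (residue_eq_zero_iff _).2 (hJle (Ideal.mem_map_of_mem _ h1))
      rw [map_sub, map_sub, ← IsScalarTower.algebraMap_apply, sub_eq_zero] at h2
      exact h2.symm
    have hgint : g.IsIntegral :=
      RingHom.IsIntegral.trans _ _ (algebraMap_isIntegral_iff.2 inferInstance)
        (RingHom.isIntegral_of_surjective _ residue_surjective)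
    have hφint : φ.IsIntegral := RingHom.IsIntegral.tower_top _ _ (hφ ▸ hgint)
    obtain ⟨r, hr⟩ := (IsAlgClosed.ringHom_bijective_of_isIntegral φ hφint).2 (residue R a)
    exact ⟨r, (residue_eq_zero_iff _).1 (by rw [map_sub, ← hr]; exact sub_self _)⟩

theorem p_SEP (hISO : S_ISO) :
    S_SEP := by
  intro k _ _ P hP hd hs
  let K := FractionRing k⟦X⟧
  let L := (P.map (algebraMap k⟦X⟧ K)).SplittingField
  have hg : IsGalois K L := IsGalois.of_separable_splitting_field hs
  let R := integralClosure k⟦X⟧ L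
  have hfin : Module.Finite k⟦X⟧ R := IsIntegralClosure.finite k⟦X⟧ K L R
  have hded : IsDedekindDomain R := IsIntegralClosure.isDedekindDomain k⟦X⟧ K L R
  have hinj : Function.Injective (algebraMap k⟦X⟧ R) := fun a b hab => by
    have h1 : algebraMap k⟦X⟧ L a = algebraMap k⟦X⟧ L b := congrArg Subtype.val hab
    rw [IsScalarTower.algebraMap_apply k⟦X⟧ K L, IsScalarTower.algebraMap_apply k⟦X⟧ K L b] at h1
    exact IsFractionRing.injective k⟦X⟧ K ((algebraMap K L).injective h1)
  let _ : Algebra k R := ((algebraMap k⟦X⟧ R).comp (algebraMap k k⟦X⟧)).toAlgebra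
  have _ : IsScalarTower k k⟦X⟧ R := IsScalarTower.of_algebraMap_eq fun _ => rfl
  obtain ⟨hdvr, hc, hr⟩ := sep_good k R hinj
  obtain ⟨e⟩ := hISO k R hc hr
  obtain ⟨z, hz⟩ := (Polynomial.SplittingField.splits
    (P.map (algebraMap k⟦X⟧ K))).exists_eval_eq_zero (by
      rw [(hP.map _).degree_map, hP.degree_map]
      exact (Polynomial.natDegree_pos_iff_degree_pos.1 hd).ne')
  rw [Polynomial.eval_map_algebraMap, Polynomial.aeval_map_algebraMap] at hz
  let w : R := ⟨z, P, hP, hz⟩
  have hw : Polynomial.aeval w P = 0 := Subtype.val_injective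
    ((Polynomial.aeval_subalgebra_coe P R w).trans hz)
  refine ⟨(e : R →ₐ[k] k⟦X⟧).comp (IsScalarTower.toAlgHom k k⟦X⟧ R), e.injective.comp hinj,
    e w, ?_⟩
  have := Polynomial.hom_eval₂ P (algebraMap k⟦X⟧ R) (e : R →+* k⟦X⟧) w
  rw [← Polynomial.aeval_def, hw, map_zero] at this
  rw [Polynomial.eval_map]
  exact this.symm

end

/-! Step SPL. -/

section

open PowerSeries IsLocalRing

theorem spl_cc {k : Type} [Field k] (θ : k⟦X⟧ →ₐ[k] k⟦X⟧) (f : k⟦X⟧) :
    constantCoeff (θ f) = constantCoeff f := by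
  by_contra h
  have h1 : IsUnit (f - algebraMap k k⟦X⟧ (constantCoeff (θ f))) :=
    isUnit_iff_constantCoeff.2 (Ne.isUnit (by simpa [sub_eq_zero] using Ne.symm h))
  have h2 := (isUnit_iff_constantCoeff.1 (h1.map θ)).ne_zero
  rw [map_sub, θ.commutes] at h2
  simp at h2

theorem spl_root (hSEP : S_SEP) (p : ℕ) [Fact p.Prime] {k : Type} [Field k] [IsAlgClosed k]
    [CharP k p] {P : Polynomial k⟦X⟧} (hP : P.Monic) (h0 : 0 < P.natDegree) :
    ∃ θ : k⟦X⟧ →ₐ[k] k⟦X⟧, Function.Injective θ ∧
      ∃ w, (P.map (θ : k⟦X⟧ →+* k⟦X⟧)).eval w = 0 := by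
  have hp : p ≠ 0 := (Fact.out : p.Prime).ne_zero
  have hi := IsFractionRing.injective k⟦X⟧ (FractionRing k⟦X⟧)
  have : CharP (FractionRing k⟦X⟧) p := charP_of_injective_ringHom
    (f := (algebraMap k⟦X⟧ (FractionRing k⟦X⟧)).comp (algebraMap k k⟦X⟧)) (RingHom.injective _) p
  obtain ⟨g, g1, g2, g3⟩ := Polynomial.exists_monic_irreducible_factor
    (P.map (algebraMap k⟦X⟧ (FractionRing k⟦X⟧)))
    (Polynomial.not_isUnit_of_natDegree_pos _ (by rwa [hP.natDegree_map]))
  obtain ⟨Q, hQ⟩ := IsIntegrallyClosed.eq_map_mul_C_of_dvd _ hP g3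
  rw [g1.leadingCoeff, map_one, mul_one] at hQ
  subst hQ
  have q1 : Q.Monic := Polynomial.monic_of_injective hi g1
  obtain ⟨R, hR⟩ := (Polynomial.map_dvd_map _ hi q1).1 g3
  obtain ⟨n, g', s1, s2⟩ := Polynomial.exists_separable_of_irreducible p g2 hp
  have hn : p ^ n ≠ 0 := pow_ne_zero n hp
  have e1 : (Q.contract (p ^ n)).map (algebraMap k⟦X⟧ (FractionRing k⟦X⟧)) = g' := by
    rw [Polynomial.map_contract hn, ← s2, Polynomial.contract_expand _ hn]
  have e2 : Polynomial.expand _ (p ^ n) (Q.contract (p ^ n)) = Q :=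
    Polynomial.map_injective _ hi (by rw [Polynomial.map_expand, e1, s2])
  generalize Q.contract (p ^ n) = Q' at e1 e2
  subst e2
  obtain ⟨θ, hθ, w, hw⟩ := hSEP k Q' ((Polynomial.monic_expand_iff hn.bot_lt).1 q1) (by
    have := g2.natDegree_pos
    rw [q1.natDegree_map, Polynomial.natDegree_expand] at this
    exact Nat.pos_of_mul_pos_right this) (e1 ▸ s1)
  have e3 : PowerSeries.map (iterateFrobeniusEquiv k p n).symm.toRingHom w ^ p ^ n =
      expand (p ^ n) hn w := by
    refine (MvPowerSeries.map_iterateFrobenius_expand p hp _ n).symm.trans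
      ((map_expand (p ^ n) hn _ _).trans (congrArg _ (PowerSeries.ext fun i => ?_)))
    rw [coeff_map, coeff_map]
    exact (iterateFrobeniusEquiv k p n).apply_symm_apply _
  refine ⟨(expand (p ^ n) hn).comp θ, fun a b h => hθ (PowerSeries.ext fun i => ?_),
    PowerSeries.map (iterateFrobeniusEquiv k p n).symm.toRingHom w, ?_⟩
  · rw [← coeff_expand_mul (p ^ n) hn, ← coeff_expand_mul (p ^ n) hn (θ b)]
    exact congrArg _ h
  · rw [hR, Polynomial.map_mul, Polynomial.eval_mul, Polynomial.map_expand, Polynomial.expand_eval,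
      e3, AlgHom.comp_toRingHom, ← Polynomial.map_map]
    refine mul_eq_zero_of_left ((Polynomial.eval_map_apply _ _).trans ?_) _
    rw [hw, map_zero]

theorem p_SPL (hSEP : S_SEP) :
    S_SPL := by
  intro p _ k _ _ _
  have key : ∀ (n : ℕ) (P : Polynomial k⟦X⟧), P.Monic → P.natDegree = n →
      ∃ θ : k⟦X⟧ →ₐ[k] k⟦X⟧, Function.Injective θ ∧ ∃ w : Fin n → k⟦X⟧,
        P.map (θ : k⟦X⟧ →+* k⟦X⟧) = ∏ i, (Polynomial.X - Polynomial.C (w i)) := fun n => by
    induction n with
    | zero =>
      exact fun P hP h => ⟨AlgHom.id _ _, fun _ _ e => e, Fin.elim0, by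
        rw [hP.natDegree_eq_zero.1 h, Polynomial.map_one, Fin.prod_univ_zero]⟩
    | succ n ih =>
      intro P hP h
      obtain ⟨θ, hθ, a, ha⟩ := spl_root hSEP p hP (by omega)
      obtain ⟨R, hR⟩ := Polynomial.dvd_iff_isRoot.2 ha
      have h1 := hP.map (θ : k⟦X⟧ →+* k⟦X⟧)
      have h2 := hP.natDegree_map (θ : k⟦X⟧ →+* k⟦X⟧)
      rw [hR] at h1 h2
      have h3 := (Polynomial.monic_X_sub_C a).of_mul_monic_left h1
      rw [(Polynomial.monic_X_sub_C a).natDegree_mul h3, Polynomial.natDegree_X_sub_C] at h2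
      obtain ⟨θ', hθ', w, hw⟩ := ih R h3 (by omega)
      refine ⟨θ'.comp θ, hθ'.comp hθ, Fin.cons (θ' a) w, ?_⟩
      rw [AlgHom.comp_toRingHom, ← Polynomial.map_map, hR, Polynomial.map_mul, hw,
        Fin.prod_univ_succ, Polynomial.map_sub, Polynomial.map_X, Polynomial.map_C]
      rfl
  intro P hP
  obtain ⟨θ, hθ, h⟩ := key _ P hP rfl
  exact ⟨θ, hθ, spl_cc θ, h⟩

end

/-! Step WSP. -/

section

open PowerSeries IsLocalRing

attribute [-instance] PowerSeries.algebraPowerSeries

theorem p_WSP (hSPL : S_SPL) :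
    S_WSP := by
  intro p _ k _ _ _ f hf
  have hc : IsAdicComplete (maximalIdeal k⟦X⟧) k⟦X⟧ := by
    rw [maximalIdeal_eq_span_X]; infer_instance
  have hm : ∀ a : k⟦X⟧, a ∈ maximalIdeal k⟦X⟧ ↔ constantCoeff a = 0 := fun a => by
    rw [← ker_coeff_eq_max_ideal, RingHom.mem_ker]
  have hf' : f.map (residue k⟦X⟧) ≠ 0 := fun h => hf (by
    ext n
    have := congrArg (coeff n) h
    rw [coeff_map, map_zero, residue_eq_zero_iff, hm] at this
    rw [coeff_map, this, map_zero])
  obtain ⟨P, h, hP, hu, e⟩ := f.exists_isWeierstrassFactorization hf'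
  obtain ⟨θ, h1, h2, w, hw⟩ := hSPL p k P hP.monic
  refine ⟨θ, h1, h2, P.natDegree, w, PowerSeries.map (θ : k⟦X⟧ →+* k⟦X⟧) h, hu.map _,
    fun i => ?_, ?_⟩
  · have e1 : (P.map (θ : k⟦X⟧ →+* k⟦X⟧)).map constantCoeff = Polynomial.X ^ P.natDegree := by
      ext n
      rw [Polynomial.coeff_map, Polynomial.coeff_map, RingHom.coe_coe, h2, Polynomial.coeff_X_pow]
      rcases lt_trichotomy n P.natDegree with hn | hn | hn
      · rw [if_neg hn.ne]
        exact (hm _).1 (hP.mem hn)
      · rw [if_pos hn, hn, hP.monic.coeff_natDegree, map_one]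
      · rw [if_neg hn.ne', Polynomial.coeff_eq_zero_of_natDegree_lt hn, map_zero]
    have e2 := congrArg (Polynomial.eval (constantCoeff (w i))) e1
    rw [hw, Polynomial.map_prod, Polynomial.eval_prod,
      Finset.prod_eq_zero (Finset.mem_univ i) (by simp), Polynomial.eval_pow,
      Polynomial.eval_X] at e2
    exact pow_eq_zero_iff (Nat.pos_iff_ne_zero.1 (Fin.pos i)) |>.1 e2.symm
  · rw [e, map_mul, mul_comm, ← Polynomial.polynomial_map_coe, hw]
    congr 1
    rw [← Polynomial.coeToPowerSeries.ringHom_apply, map_prod]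
    simp

end

end Pool.Agent.P.MP_41a2b4_ag.W
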