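import Pool.Agent.P.MP_41a2b4_ag.W.Iface

set_option autoImplicit false

namespace Pool.Agent.P.MP_41a2b4_ag.W

/-! Step CP0. -/

section

open PowerSeries IsLocalRing

attribute [-instance] PowerSeries.algebraPowerSeries MvPowerSeries.algebraMvPowerSeries

theorem cp0_eval {p : ℕ} {G I R Ω : Type} [Group G] [Fintype I] [CommRing R] [CommRing Ω]
    [Algebra (ZMod p) R] (ρ : R →+* Ω) (y : G → Ω) (t : I → R)
    (c : I → G → MvPolynomial G (ZMod p)) (g : G) :
    MvPolynomial.eval₂ ρ y (comb t c g) =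
      ∑ i, ρ (t i) * MvPolynomial.eval₂ (ρ.comp (algebraMap (ZMod p) R)) y (c i g) := by
  simp only [comb, MvPolynomial.eval₂_sum, MvPolynomial.eval₂_mul, MvPolynomial.eval₂_C,
    MvPolynomial.eval₂_map]

theorem cp0_ord {p : ℕ} {G I R : Type} [Group G] [Fintype I] [CommRing R]
    [Algebra (ZMod p) R] (t : I → R) {c : I → G → MvPolynomial G (ZMod p)}
    (h : ∀ i, Ord2 (c i)) : Ord2 (comb t c) := by
  intro g m hm
  simp only [comb, MvPolynomial.coeff_sum, MvPolynomial.coeff_C_mul, MvPolynomial.coeff_map,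
    fun i => h i g m hm, map_zero, mul_zero, Finset.sum_const_zero]

theorem cp0_coc {p : ℕ} {G I R : Type} [Group G] [Fintype I] [CommRing R]
    [Algebra (ZMod p) R] (t : I → R) {c : I → G → MvPolynomial G (ZMod p)}
    (h : ∀ i, IsCoc (c i)) : IsCoc (comb t c) := by
  intro a g
  simp only [comb, fun i => h i a g, map_add, mul_add, Finset.sum_add_distrib, map_sum, map_mul,
    MvPolynomial.rename_C, MvPolynomial.map_rename]

theorem p_CP0 (hCHI : S_CHI) (hGENC : S_GENC) (hSPEC : S_SPEC) (hIND : S_IND) (hCMP : S_CMP) (hIMP : S_IMP) (hCURVE : S_CURVE) :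
    S_CP0 := by
  intro p _ k _ _ _ G _ _ hG
  classical
  let : Algebra (ZMod p) k := ZMod.algebra k p
  obtain ⟨I, _, c', hc1, hc2, hgen⟩ := hGENC p G hG
  obtain ⟨t0, x0, hx1, hx2, hx3⟩ := hSPEC p G I c' hc1 hc2 hgen k
  obtain ⟨b, hb1, hb2⟩ : ∃ b : G → ZMod p, (∀ h g, b (h * g) = b h + b g) ∧
      ((∀ g, b g = 0) → Subsingleton G) := by
    rcases subsingleton_or_nontrivial G with h | h
    · exact ⟨fun _ => 0, fun _ _ => by simp, fun _ => h⟩
    · obtain ⟨χ, a, ha⟩ := (hCHI p G hG).1 h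
      exact ⟨fun g => (χ g).toAdd, fun h g => by simp, fun h0 => (ha (h0 a)).elim⟩
  obtain ⟨T, hT, hT0⟩ := hIND (ZMod p) k (Option I) fun o => o.elim 0 t0
  let c : G → MvPolynomial G k⟦X⟧ := fun g => comb (fun i => T (some i)) c' g +
    MvPolynomial.C (T none * algebraMap (ZMod p) k⟦X⟧ (b g))
  have hcoc : IsCoc c := by
    intro a g
    simp only [c, cp0_coc _ hc1 a g, hb1, map_add, mul_add, MvPolynomial.rename_C]
    ring
  have hsm : Small (constantCoeff : k⟦X⟧ →+* k) ⊥ c := by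
    intro g m hm
    simp only [c, MvPolynomial.coeff_add, cp0_ord _ hc2 g m hm, zero_add, MvPolynomial.coeff_C,
      Ideal.mem_bot]
    split_ifs
    · rw [map_mul, hT0 none]
      exact zero_mul _
    · exact map_zero _
  have hcomp : IsAdicComplete (nb1 (⊥ : Ideal k)) k⟦X⟧ :=
    ((hCMP k).1 ⊥ ((hCMP k).2.2 ⊥ IsNilpotent.zero)).2
  obtain ⟨x, h1, h2⟩ := (hCURVE G k⟦X⟧ _ hcomp c hcoc hsm).1
  have hev : ∀ (Ω : Type) [CommRing Ω] (ρ : k⟦X⟧ →+* Ω) (y : G → Ω) (g : G),
      MvPolynomial.eval₂ ρ y (c g) = ∑ i, ρ (T (some i)) *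
        MvPolynomial.eval₂ (ρ.comp (algebraMap (ZMod p) k⟦X⟧)) y (c' i g) +
        ρ (T none) * ρ (algebraMap (ZMod p) k⟦X⟧ (b g)) := by
    intro Ω _ ρ y g
    simp only [c]
    rw [MvPolynomial.eval₂_add, cp0_eval, MvPolynomial.eval₂_C, map_mul]
  refine ⟨c, x, hcoc, hsm, fun g => h1 g, h2, ?_, ?_⟩
  · have key : (fun g => PowerSeries.map (constantCoeff : k⟦X⟧ →+* k) (x g)) = x0 := by
      refine (hIMP k k⟦X⟧ G (algebraMap k k⟦X⟧) (nb1 ⊥) (comb t0 c') (fun _ => X)
        (fun g m hm => by rw [cp0_ord _ hc2 g m hm, map_zero]; exact zero_mem _)).1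
        hcomp.toIsHausdorff _ _ (fun g => ?_) (fun g => hx1 g) (fun g => ?_) hx2
      · change constantCoeff (PowerSeries.map (constantCoeff : k⟦X⟧ →+* k) (x g)) = 0
        rw [← coeff_zero_eq_constantCoeff_apply, coeff_map, coeff_zero_eq_constantCoeff_apply]
        exact h1 g
      · have a1 : (PowerSeries.map (constantCoeff : k⟦X⟧ →+* k)).comp
            (algebraMap k⟦X⟧ k⟦X⟧⟦X⟧) = (algebraMap k k⟦X⟧).comp constantCoeff := by
          refine RingHom.ext fun f => ?_
          simp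
        conv_lhs => rw [h2 g]
        rw [map_add, map_X, MvPolynomial.aeval_def, MvPolynomial.eval₂_comp_left, a1, hev, cp0_eval]
        simp only [RingHom.comp_apply, hT0, Option.elim, map_zero, zero_mul, add_zero]
        congr 1
    intro s hs e
    exact hx3 s hs (by rw [← key]; exact e)
  · intro Ω _ _ ρ hρ y hy H hH
    by_cases h0 : y = 0
    · have : Subsingleton G := by
        refine hb2 fun g => ?_
        have a1 := hy g
        have a2 : ∀ i, MvPolynomial.eval₂ (ρ.comp (algebraMap (ZMod p) k⟦X⟧)) (0 : G → Ω)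
            (c' i g) = 0 := fun i => by
          rw [Pi.zero_def, MvPolynomial.eval₂_zero'_apply, MvPolynomial.constantCoeff_eq, hc2 i g 0 (by simp),
            map_zero]
        rw [hev, h0] at a1
        simp only [a2, Pi.zero_apply, mul_zero, Finset.sum_const_zero, zero_add] at a1
        have a3 := (mul_eq_zero.1 a1.symm).resolve_left
          (fun e => hT.ne_zero none (hρ (e.trans (map_zero ρ).symm)))
        exact (ρ.comp (algebraMap (ZMod p) k⟦X⟧)).injective (a3.trans (map_zero _).symm)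
      exact isCyclic_of_subsingleton
    · let ι := algebraMap Ω (FractionRing Ω)
      have hι : Function.Injective ι := IsFractionRing.injective _ _
      let : Algebra (ZMod p) (FractionRing Ω) :=
        ((ι.comp ρ).comp (algebraMap (ZMod p) k⟦X⟧)).toAlgebra
      let φ : k⟦X⟧ →ₐ[ZMod p] FractionRing Ω := ⟨ι.comp ρ, fun _ => rfl⟩
      have a1 : AlgebraicIndependent (ZMod p) (φ ∘ T) := hT.map' (hι.comp hρ)
      refine (hgen (FractionRing Ω) (fun g => ι (y g)) (fun i => φ (T (some i))) (φ (T none)) b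
        (fun e => h0 (funext fun g => hι ((congrFun e g).trans (map_zero ι).symm))) ?_ (fun g => ?_)
        H fun h hh a => by rw [hH h hh a]).1
      · have a3 : (fun o : Option I => o.elim (φ (T none)) fun i => φ (T (some i))) = φ ∘ T :=
          funext fun o => by cases o <;> rfl
        rw [a3]
        exact a1
      · have a2 := congrArg ι (hy g)
        rw [map_add, MvPolynomial.eval₂_comp_left, hev, ← add_assoc] at a2
        exact a2

end

/-! Step CP. -/

section

open PowerSeries IsLocalRing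

attribute [-instance] PowerSeries.algebraPowerSeries MvPowerSeries.algebraMvPowerSeries

theorem cp_aeval {G R S : Type} [CommRing R] [CommRing S] (φ : R →+* S) (x : G → R⟦X⟧)
    (P : MvPolynomial G R) : PowerSeries.map φ (MvPolynomial.aeval x P) =
      MvPolynomial.aeval (fun a => PowerSeries.map φ (x a)) (MvPolynomial.map φ P) := by
  induction P using MvPolynomial.induction_on with
  | C a => simp
  | add p q hp hq => simp only [map_add, hp, hq]
  | mul_X p n hp => simp only [map_mul, hp, MvPolynomial.aeval_X, MvPolynomial.map_X]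

theorem cp_eq {G R S : Type} [CommRing R] [CommRing S] (φ : R →+* S) {x : G → R⟦X⟧}
    {c : G → MvPolynomial G R} (h : ∀ g, x g = X + MvPolynomial.aeval x (c g)) (g : G) :
    PowerSeries.map φ (x g) =
      X + MvPolynomial.aeval (fun a => PowerSeries.map φ (x a)) (MvPolynomial.map φ (c g)) := by
  rw [← cp_aeval, h g, map_add, PowerSeries.map_X]

theorem cp_coc {G R S : Type} [Group G] [CommRing R] [CommRing S] (φ : R →+* S)
    {c : G → MvPolynomial G R} (h : IsCoc c) : IsCoc fun g => MvPolynomial.map φ (c g) :=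
  fun a b => by simp only [h a b, map_add, MvPolynomial.map_rename]

theorem cp_ev {k : Type} [Field k] (ev : k⟦X⟧⟦X⟧ →ₐ[k⟦X⟧] k⟦X⟧) : constantCoeff (ev X) = 0 := by
  by_contra h
  have h1 : IsUnit (X - PowerSeries.C (ev X) : k⟦X⟧⟦X⟧) := by
    rw [PowerSeries.isUnit_iff_constantCoeff, map_sub, constantCoeff_X, constantCoeff_C, zero_sub,
      IsUnit.neg_iff, PowerSeries.isUnit_iff_constantCoeff]
    exact isUnit_iff_ne_zero.2 h
  have h2 := h1.map ev
  rw [map_sub, show ev (PowerSeries.C (ev X)) = ev X from ev.commutes _, sub_self] at h2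
  exact not_isUnit_zero h2

theorem p_CP (hCP0 : S_CP0) (hWSP : S_WSP) (hCMP : S_CMP) (hEVU : S_EVU) (hCURVE : S_CURVE) :
    S_CP := by
  intro p _ k _ _ _ G _ _ _ hG
  obtain ⟨c0, x0, coc, sm, cc, eqn, fa, cyc⟩ := hCP0 p k G hG
  obtain ⟨θ, θi, θc, r, w, u, hu, hw, hf⟩ := hWSP p k
      (∏ g ∈ Finset.univ.erase (1 : G), (X - x0 g)) (by
    rw [map_prod]
    refine Finset.prod_ne_zero_iff.2 fun g hg => ?_
    rw [map_sub, PowerSeries.map_X]
    exact sub_ne_zero.2 (fa g (Finset.ne_of_mem_erase hg)).symm)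
  set T : k⟦X⟧ →+* k⟦X⟧ := (θ : k⟦X⟧ →+* k⟦X⟧) with hT
  have b0 : IsAdicComplete (⊥ : Ideal k) k := (hCMP k).2.2 ⊥ ⟨1, pow_one _⟩
  have b1 : IsAdicComplete (nb1 (⊥ : Ideal k)) k⟦X⟧ := ((hCMP k).1 ⊥ b0).2
  have sm1 : Small (constantCoeff : k⟦X⟧ →+* k) ⊥ fun g => MvPolynomial.map T (c0 g) :=
    fun g m hm => by
      rw [MvPolynomial.coeff_map, show constantCoeff (T _) = _ from θc _]
      exact sm g m hm
  have cc1 : ∀ g, constantCoeff (constantCoeff (PowerSeries.map T (x0 g))) = 0 := fun g =>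
    (θc _).trans (cc g)
  have e1 := cp_eq T eqn
  obtain ⟨x1, α, hα⟩ := (hCURVE G k⟦X⟧ _ b1 _ (cp_coc T coc) sm1).2 _ cc1 e1
  obtain ⟨x2, i, hi⟩ := (hCURVE G k ⊥ b0 _ (cp_coc constantCoeff (cp_coc T coc)) fun g m hm => by
    rw [MvPolynomial.coeff_map]
    exact sm1 g m hm).2 (fun g => PowerSeries.map constantCoeff (PowerSeries.map T (x0 g))) cc1
      (cp_eq constantCoeff e1)
  have a1 : ∀ g, α g X = PowerSeries.map T (x0 g) := fun g => by rw [← x1, hα, mul_one]
  have a2 : ∀ g, i g X = PowerSeries.map constantCoeff (PowerSeries.map T (x0 g)) := fun g => by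
    rw [← x2, hi, mul_one]
  have a3 : ∀ g, g ≠ 1 → PowerSeries.map constantCoeff (PowerSeries.map T (x0 g)) ≠ X :=
    fun g hg h => fa g hg (Eq.trans (PowerSeries.ext fun n => (θc _).symm) h)
  refine ⟨_, _, α, i, cp_coc T coc, sm1, cc1, e1, a1, a2, (injective_iff_map_eq_one i).2
    fun g hg => by_contra fun h => a3 g h (by rw [← a2, hg]; rfl),
    fun g hg h => a3 g hg (by rw [h, PowerSeries.map_X]), ⟨r, w, u, hu, hw, ?_⟩, fun ev H hH => ?_⟩
  · rw [← hf, map_prod]
    simp only [map_sub, PowerSeries.map_X]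
  · refine cyc k⟦X⟧ T θi (fun a => ev (PowerSeries.map T (x0 a))) (fun g => ?_) H fun h hh a => ?_
    · rw [x1, e1 g, map_add, MvPolynomial.comp_aeval_apply, MvPolynomial.aeval_def,
        MvPolynomial.eval₂_map]
      rfl
    · have := (hEVU k⟦X⟧ k⟦X⟧ (nb1 (⊥ : Ideal k))).2.2.1 ev.toRingHom
        (ev.comp (α h).toAlgHom).toRingHom b1.toIsHausdorff
        (fun r => (ev.commutes r).trans ((ev.comp (α h).toAlgHom).commutes r).symm)
        (cp_ev ev) ((hH h hh).symm.trans (congrArg ev (a1 h).symm))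
      rw [← hα]
      exact (RingHom.congr_fun this _).symm

end

/-! Step EUL. -/

section

open PowerSeries IsLocalRing

theorem eul_lagr {K ι : Type} [Field K] [DecidableEq ι] (T : Finset ι) (v : ι → K)
    (hv : Set.InjOn v T) (h : T.Nonempty) :
    ∑ i ∈ T, v i ^ (T.card - 1) / ∏ j ∈ T.erase i, (v i - v j) = 1 := by
  have h1 := Finset.card_pos.2 h
  have := Lagrange.leadingCoeff_eq_sum hv (P := Polynomial.X ^ (T.card - 1)) (by
    rw [Polynomial.degree_X_pow]
    exact_mod_cast (Nat.sub_add_cancel h1).symm)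
  simpa using this.symm

theorem eul_sub {G A : Type} [Group G] [Fintype G] [DecidableEq G] [CommRing A] [IsDomain A]
    [MulSemiringAction G A] (z : A) (hz : ∀ g : G, g ≠ 1 → g • z ≠ z) (b : A) (hb : dif G z ∣ b)
    (S : Subgroup G) (T : Finset G) (hT : ∀ g, g ∈ T ↔ g ∈ S) (hS : ∀ t ∈ S, t • b = b) :
    ∃ β : A, ∑ t ∈ T, t • β = b := by
  have hinj : ∀ g h : G, g • z = h • z → g = h := fun g h e => by
    by_contra a
    refine hz (h⁻¹ * g) (fun e' => a (inv_mul_eq_one.1 e').symm) ?_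
    rw [mul_smul, e, inv_smul_smul]
  obtain ⟨b', hb'⟩ : ∏ g ∈ T.erase 1, (z - g • z) ∣ b :=
    (Finset.prod_dvd_prod_of_subset _ _ _
      (Finset.erase_subset_erase 1 (Finset.subset_univ T))).trans hb
  have key : ∀ t ∈ T, (∏ u ∈ T.erase t, (t • z - u • z)) * t • b' = b := fun t ht => by
    have htS := (hT t).1 ht
    rw [← hS t htS]
    conv_rhs => rw [hb', smul_mul', Finset.smul_prod']
    congr 1
    symm
    refine Finset.prod_nbij' (fun g => t * g) (fun u => t⁻¹ * u) (fun g hg => ?_) (fun u hu => ?_)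
      (fun g _ => by simp) (fun u _ => by simp) fun g _ => by rw [smul_sub, mul_smul]
    · rw [Finset.mem_erase, hT] at hg ⊢
      exact ⟨fun e => hg.1 (by simpa using e), S.mul_mem htS hg.2⟩
    · rw [Finset.mem_erase, hT] at hu ⊢
      exact ⟨fun e => hu.1 (inv_mul_eq_one.1 e).symm, S.mul_mem (S.inv_mem htS) hu.2⟩
  let φ := algebraMap A (FractionRing A)
  have hφ : Function.Injective φ := IsFractionRing.injective A (FractionRing A)
  have hv : Set.InjOn (fun g : G => φ (g • z)) T := fun g _ h _ e => hinj g h (hφ e)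
  have h1 := eul_lagr T _ hv ⟨1, (hT 1).2 S.one_mem⟩
  refine ⟨b' * z ^ (T.card - 1), hφ ?_⟩
  rw [← mul_one (φ b), ← h1, map_sum, Finset.mul_sum]
  refine Finset.sum_congr rfl fun t ht => ?_
  have h0 : ∏ u ∈ T.erase t, (φ (t • z) - φ (u • z)) ≠ 0 :=
    Finset.prod_ne_zero_iff.2 fun u hu => sub_ne_zero.2 fun e =>
      (Finset.mem_erase.1 hu).1 (hinj _ _ (hφ e)).symm
  have h2 := congrArg φ (key t ht)
  simp only [map_mul, map_prod, map_sub] at h2
  rw [← h2, smul_mul', smul_pow', map_mul, map_pow]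
  field_simp

theorem p_EUL :
    S_EUL := by
  intro G A _ _ _ _ _ _ z hz b hb
  refine ⟨fun h => eul_sub z hz b hb ⊤ Finset.univ (by simp) fun t _ => h t, fun s h => ?_⟩
  obtain ⟨β, hβ⟩ := eul_sub z hz b hb (Subgroup.zpowers s)
    ((Finset.range (orderOf s)).image fun i => s ^ i)
    (fun g => mem_zpowers_iff_mem_range_orderOf.symm) (smul_eq_of_mem_zpowers h)
  refine ⟨β, ?_⟩
  rwa [Finset.sum_image fun i hi j hj e => pow_injOn_Iio_orderOf (by simpa using hi)
    (by simpa using hj) e] at hβ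

end

/-! Step PU1. -/

section

open PowerSeries IsLocalRing

section

variable {G A L : Type} [CommRing A] [CommRing L] {ι : L →+* A} {w a a' b τ τ' : A} {p p' : A → L}

theorem pu1_symm (h : Cop w a b) : Cop w b a :=
  let ⟨c, u, v, e⟩ := h; ⟨c, v, u, (add_comm _ _).trans e⟩

theorem pu1_one : Cop w 1 b := ⟨0, 1, 0, by simp⟩

theorem pu1_mul (h : Cop w a b) (h' : Cop w a' b) : Cop w (a * a') b := by
  obtain ⟨c, u, v, e⟩ := h
  obtain ⟨c', u', v', e'⟩ := h'
  exact ⟨c + c', u * u', u * a * v' + v * u' * a' + v * v' * b, by rw [pow_add, ← e, ← e']; ring⟩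

theorem pu1_prod {I : Type} [Fintype I] {f : I → A} (r : ℕ) (h : ∀ i, Cop w (f i) b) :
    Cop w ((∏ i, f i) ^ r) b := by
  have : Cop w (∏ i, f i) b :=
    Finset.prod_induction f (Cop w · b) (fun _ _ => pu1_mul) pu1_one fun i _ => h i
  induction r with
  | zero => exact (pow_zero (∏ i, f i)).symm ▸ pu1_one
  | succ r ih => exact (pow_succ (∏ i, f i) r).symm ▸ pu1_mul ih this

/-- `p` is the evaluation at the zero of `τ`. -/
def pu1_Pt (ι : L →+* A) (p : A → L) (τ : A) : Prop :=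
  (∀ b, τ ∣ b - ι (p b)) ∧ ∀ c, τ ∣ ι c → c = 0

theorem pu1_dvd (h : pu1_Pt ι p τ) (h' : pu1_Pt ι p τ') : τ ∣ τ' := by
  have := h'.2 _ ((dvd_sub_self_left).1 (h'.1 τ'))
  simpa [this] using h.1 τ'

theorem pu1_cop (hw : ∀ c, c ≠ 0 → ∃ e, ι c ∣ w ^ e) (h : pu1_Pt ι p τ) (h' : pu1_Pt ι p' τ')
    (ne : p ≠ p') : Cop w τ τ' := by
  by_cases e : p τ' = 0
  · have t : τ ∣ τ' := by simpa [e] using h.1 τ'
    refine absurd (funext fun b => sub_eq_zero.1 (h.2 _ ?_)) ne
    simpa using (t.trans (h'.1 b)).sub (h.1 b)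
  · obtain ⟨c, v, e⟩ := hw _ e
    obtain ⟨q, hq⟩ := h.1 τ'
    exact ⟨c, -(v * q), v, by rw [e]; linear_combination v * hq⟩

variable [Group G] [MulSemiringAction G A]

theorem pu1_sdvd (g : G) (h : a ∣ b) : g • a ∣ g • b :=
  map_dvd (MulSemiringAction.toRingHom G A g) h

theorem pu1_smul (hι : ∀ (g : G) c, g • ι c = ι c) (h : pu1_Pt ι p τ) (g : G) :
    pu1_Pt ι (fun b => p (g⁻¹ • b)) (g • τ) :=
  ⟨fun b => by simpa [smul_sub, hι] using pu1_sdvd g (h.1 (g⁻¹ • b)),
    fun c hc => h.2 c (by simpa [hι] using pu1_sdvd g⁻¹ hc)⟩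

theorem pu1_main [Fintype G] (hι : ∀ (g : G) c, g • ι c = ι c)
    (hw : ∀ c, c ≠ 0 → ∃ e, ι c ∣ w ^ e) (hp : Prime w) {r : ℕ} {p : Fin r → A → L}
    {τ : Fin r → A} (hpt : ∀ i, pu1_Pt ι (p i) (τ i)) (hnd : ∀ i (g : G), ¬ w ∣ g • τ i)
    (hc : ∀ i (H : Subgroup G), (∀ h ∈ H, ∀ b, p i (h • b) = p i b) → IsCyclic H) :
    ∃ (J : Type) (_ : Fintype J) (s : J → G) (d : J → A) (j₀ : J),
      s j₀ = 1 ∧ d j₀ = 1 ∧ (∀ j, s j • d j = d j) ∧ (∀ j, ¬ w ∣ d j) ∧
      (∀ z z' : Tr s, z ≠ z' → Cop w (z.2.out • d z.1) (z'.2.out • d z'.1)) ∧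
      ∏ i, τ i ∣ d j₀ * cof s d j₀ := by
  classical
  let _ : MulAction G (A → L) := arrowAction
  have pt : ∀ i (g : G), pu1_Pt ι (g • p i) (g • τ i) := fun i g => pu1_smul hι (hpt i) g
  choose s hs using fun i => (Subgroup.isCyclic_iff_exists_zpowers_eq_top _).1
    (hc i (MulAction.stabilizer G (p i)) fun h hh b => by
      simpa only [inv_inv] using
        (show p i (h⁻¹⁻¹ • b) = p i b from congrFun (Subgroup.inv_mem _ hh) b))
  have st : ∀ i, ∀ t ∈ Subgroup.zpowers (s i), t • p i = p i := fun i t ht =>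
    MulAction.mem_stabilizer_iff.1 (hs i ▸ ht)
  let R : Setoid (Fin r) := (MulAction.orbitRel G (A → L)).comap p
  let D : Option (Quotient R) → A := fun o => o.elim 1 fun j =>
    ∏ t : Subgroup.zpowers (s j.out), t • τ j.out
  refine ⟨Option (Quotient R), inferInstance, fun o => o.elim 1 fun j => s j.out,
    fun o => D o ^ r, none, rfl, one_pow r, ?_, ?_, ?_, ?_⟩
  · rintro (_ | j)
    · exact one_smul _ _
    · rw [smul_pow']
      exact congrArg (· ^ r)
        (Finset.smul_prod_perm (τ j.out) (⟨_, Subgroup.mem_zpowers _⟩ : Subgroup.zpowers (s j.out)))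
  · rintro (_ | j) h
    · exact hp.not_dvd_one (hp.dvd_of_dvd_pow h)
    · obtain ⟨t, -, h⟩ := hp.exists_mem_finset_dvd (hp.dvd_of_dvd_pow h)
      exact hnd _ _ h
  · rintro ⟨_ | j, x⟩ ⟨_ | j', x'⟩ ne
    · simpa [D] using pu1_one
    · simpa [D] using pu1_one
    · simpa [D] using pu1_symm pu1_one
    · simp only [D, Option.elim, smul_pow', Finset.smul_prod']
      refine pu1_prod r fun t => pu1_symm (pu1_prod r fun t' => pu1_symm ?_)
      rw [Subgroup.smul_def, Subgroup.smul_def, smul_smul, smul_smul]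
      refine pu1_cop hw (pt _ _) (pt _ _) fun e => ne ?_
      rw [mul_smul, mul_smul, st _ _ t.2, st _ _ t'.2, ← inv_smul_eq_iff, smul_smul] at e
      obtain rfl : j' = j := Quotient.out_equiv_out.1 ⟨_, e⟩
      have m : x'.out⁻¹ * x.out ∈ Subgroup.zpowers (s j'.out) := (hs _).ge e
      exact congrArg _ (Quotient.out_equiv_out.1 (QuotientGroup.leftRel_apply.2 m)).symm
  · let _ := Fintype.ofFinite (Tr fun o : Option (Quotient R) => o.elim 1 fun j => s j.out)
    rw [cof_eq]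
    simp only [smul_pow', Finset.prod_pow]
    refine Dvd.dvd.mul_left ?_ _
    rw [← Fin.prod_const]
    refine Finset.prod_dvd_prod_of_dvd _ _ fun i _ => ?_
    obtain ⟨g, hg⟩ : R i (Quotient.mk R i).out := R.symm (Quotient.mk_out i)
    obtain ⟨t, ht⟩ := QuotientGroup.mk_out_eq_mul (Subgroup.zpowers (s (Quotient.mk R i).out)) g
    refine Dvd.dvd.trans ?_ (Finset.dvd_prod_of_mem _ (a := ⟨some (Quotient.mk R i), (g : G ⧸ _)⟩)
      (Finset.mem_erase.2 ⟨fun e => Option.some_ne_none _ (congrArg Sigma.fst e),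
        Finset.mem_univ _⟩))
    refine (pu1_dvd (hpt i) ?_).trans (pu1_sdvd _ (by
      simpa [D] using Finset.dvd_prod_of_mem (fun t : Subgroup.zpowers (s (Quotient.mk R i).out) =>
        t • τ (Quotient.mk R i).out) (Finset.mem_univ 1)))
    have := pt (Quotient.mk R i).out (g * t)
    rw [mul_smul g, st _ _ t.2, show g • p _ = p i from hg, ← ht] at this
    exact this

end

theorem p_PU1 (hCMP : S_CMP) (hEVE : S_EVE) (hRED : S_RED) :
    S_PU1 := by
  intro G L _ _ _ _ _ _ _ ϖ hϖ hL hC ⟨r, w, u, hu, hw, hd⟩ hcyc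
  choose ev hev using fun i => (hEVE L L _ hL).2.2.2 (w i) (hw i)
  have evC : ∀ i c, ev i (PowerSeries.C c) = c := fun i c => (ev i).commutes c
  have z : ∀ i b, X - PowerSeries.C (w i) ∣ b → ev i b = 0 := fun i b h => by
    simpa [hev, evC] using map_dvd (ev i) h
  have dv : ∀ i b, X - PowerSeries.C (w i) ∣ b - PowerSeries.C (ev i b) := fun i b => by
    have m : (X - PowerSeries.C (w i)).map (Ideal.Quotient.mk (maximalIdeal L)) = X := by
      simp [Ideal.Quotient.eq_zero_iff_mem.2 (hw i)]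
    obtain ⟨q, ρ, h1, h2⟩ := b.exists_isWeierstrassDivision (g := X - PowerSeries.C (w i))
      (m.trans_ne X_ne_zero)
    rw [m, order_X] at h1
    rw [Polynomial.eq_C_of_degree_le_zero (Nat.WithBot.lt_one_iff_le_zero.1 h1),
      Polynomial.coe_C] at h2
    have a : X - PowerSeries.C (w i) ∣ b - PowerSeries.C (ρ.coeff 0) := ⟨q, sub_eq_of_eq_add h2⟩
    have := z i _ a
    rw [map_sub, evC, sub_eq_zero] at this
    rwa [this]
  have nd : ∀ i (g : G), ¬ PowerSeries.C ϖ ∣ g • (X - PowerSeries.C (w i)) := fun i g h => by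
    have := pu1_sdvd g⁻¹ h
    rw [hC, inv_smul_smul] at this
    obtain ⟨q, hq⟩ := this
    have := congrArg (coeff 1) hq
    rw [coeff_C_mul, map_sub, coeff_one_X, coeff_C, if_neg one_ne_zero, sub_zero] at this
    exact hϖ.not_isUnit (IsUnit.of_mul_eq_one _ this.symm)
  obtain ⟨J, _, s, d, j₀, h1, h2, h3, h4, h5, h6⟩ := pu1_main (G := G) (ι := PowerSeries.C)
    (w := PowerSeries.C ϖ) hC (fun c hc => (IsDiscreteValuationRing.associated_pow_irreducible
      hc hϖ).imp fun _ h => by simpa only [map_pow] using map_dvd PowerSeries.C h.dvd)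
    ((hRED Unit L).2.1 ϖ hϖ.prime) (p := fun i => ev i) (τ := fun i => X - PowerSeries.C (w i))
    (fun i => ⟨dv i, fun c hc => (evC i c).symm.trans (z i _ hc)⟩) nd
    fun i H h => hcyc (ev i) H fun g hg => h g hg X
  exact ⟨J, inferInstance, s, d, j₀, h1, h2, h3, h4, h5, hd ▸ hu.mul_left_dvd.2 h6⟩

end

end Pool.Agent.P.MP_41a2b4_ag.W
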