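import Pool.Agent.P.MP_41a2b4_ag.W.Iface
import Pool.Agent.P.MP_41a2b4_ag.Ring

set_option autoImplicit false

namespace Pool.Agent.P.MP_41a2b4_ag.W

/-! Step PU2. -/

section

open PowerSeries IsLocalRing

section cop

variable {A : Type} [CommRing A] {w a a' b : A}

theorem pu2_symm (h : Cop w a b) : Cop w b a :=
  let ⟨c, u, v, e⟩ := h; ⟨c, v, u, (add_comm _ _).trans e⟩

theorem pu2_one : Cop w 1 b := ⟨0, 1, 0, by simp⟩

theorem pu2_mul (h : Cop w a b) (h' : Cop w a' b) : Cop w (a * a') b :=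
  let ⟨c, u, v, e⟩ := h; let ⟨c', u', v', e'⟩ := h'
  ⟨c + c', u * u', u * a * v' + v * u' * a' + v * v' * b, by rw [pow_add, ← e, ← e']; ring⟩

theorem pu2_prod {ι : Type} (t : Finset ι) (f : ι → A) (h : ∀ i ∈ t, Cop w (f i) b) :
    Cop w (∏ i ∈ t, f i) b :=
  Finset.prod_induction f (fun x => Cop w x b) (fun _ _ => pu2_mul) pu2_one h

theorem pu2_pow (h : Cop w a b) (n : ℕ) : Cop w (a ^ n) b := by
  simpa using pu2_prod (Finset.range n) (fun _ => a) fun _ _ => h

theorem pu2_add (h : Cop w a b) (h' : b ∣ a') : Cop w (a + a') b :=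
  let ⟨c, u, v, e⟩ := h; let ⟨k, e'⟩ := h'
  ⟨c, u, v - u * k, by rw [← e, e']; ring⟩

theorem pu2_unif {J : Type} [Fintype J] {d q : J → A} (h : ∀ j, Cop w (d j) (q j)) :
    ∃ c : ℕ, ∀ j, ∃ u v, u * d j + v * q j = w ^ c := by
  choose c u v e using h
  refine ⟨∑ j, c j, fun j => ?_⟩
  obtain ⟨k, hk⟩ := Nat.exists_eq_add_of_le
    (Finset.single_le_sum (fun i _ => Nat.zero_le (c i)) (Finset.mem_univ j))
  exact ⟨u j * w ^ k, v j * w ^ k, by rw [hk, pow_add, ← e j]; ring⟩

theorem pu2_norm {ι : Type} (t : Finset ι) (v : ι → A) :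
    ∃ γ, ∏ i ∈ t, (a - v i * b) = a ^ t.card - b * γ := by
  induction t using Finset.cons_induction with
  | empty => exact ⟨0, by simp⟩
  | cons i t hi ih =>
    obtain ⟨γ, e⟩ := ih
    exact ⟨a * γ + v i * (a ^ t.card - b * γ), by
      rw [Finset.prod_cons, e, Finset.card_cons]; ring⟩

end cop

theorem pu2_out {G A : Type} [Group G] [Fintype G] [AddCommMonoid A] [MulAction G A] {s : G}
    (hs : s = 1) [Fintype (G ⧸ Subgroup.zpowers s)] (μ : A) :
    ∑ x : G ⧸ Subgroup.zpowers s, x.out • μ = ∑ g : G, g • μ := by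
  refine Fintype.sum_bijective (fun x : G ⧸ Subgroup.zpowers s => x.out)
    ⟨Quotient.out_injective, fun g => ⟨QuotientGroup.mk g, ?_⟩⟩ _ _ fun _ => rfl
  have := QuotientGroup.eq.1 (QuotientGroup.out_eq' (g : G ⧸ Subgroup.zpowers s))
  subst hs
  exact inv_mul_eq_one.1 (Subgroup.mem_bot.1 (Subgroup.zpowers_one_eq_bot (G := G) ▸ this))

theorem p_PU2 (hEUL : S_EUL) :
    S_PU2 := by
  intro G A J _ _ _ _ _ _ _ w z hw hz s d j₀ hs hd hsd hnd hcop hdif
  classical
  let _ : ∀ j, Fintype (G ⧸ Subgroup.zpowers (s j)) := fun j => Fintype.ofFinite _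
  obtain ⟨D, hD⟩ : ∃ D : Tr s → A, ∀ y, D y = y.2.out • d y.1 := ⟨_, fun _ => rfl⟩
  obtain ⟨o, ho⟩ : ∃ o : J → Tr s, ∀ j, o j = ⟨j, ((1 : G) : G ⧸ Subgroup.zpowers (s j))⟩ :=
    ⟨_, fun _ => rfl⟩
  obtain ⟨K, hK⟩ : ∃ K : Tr s → A, ∀ y, K y = ∏ y' ∈ Finset.univ.erase y, D y' := ⟨_, fun _ => rfl⟩
  have sD : ∀ (h : G) y, h • D y = D (h • y) := fun h ⟨j, x⟩ => by
    rw [hD, hD]
    exact smul_out_smul _ (smul_eq_of_mem_zpowers (hsd j)) h x
  have sK : ∀ (h : G) y, h • K y = K (h • y) := fun h y => by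
    rw [hK, hK, Finset.smul_prod']
    exact Finset.prod_equiv (MulAction.toPerm h) (by simp) fun y' _ => sD h y'
  have Do : ∀ j, D (o j) = d j := fun j => by
    rw [hD, ho]
    exact smul_eq_of_mem_zpowers (hsd j) _ (out_one_mem _)
  have Ko : ∀ j, cof s d j = K (o j) := fun j => by simp only [cof_eq, hK, hD, ho]
  have so : ∀ j, s j • o j = o j := fun j => by
    rw [ho, Sigma.smul_mk, MulAction.Quotient.smul_coe, smul_eq_mul, mul_one]
    exact congrArg _ (QuotientGroup.eq.2 (by simp))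
  have oo : ∀ j (x : G ⧸ Subgroup.zpowers (s j)), x.out • o j = ⟨j, x⟩ := fun j x => by
    rw [ho, Sigma.smul_mk, MulAction.Quotient.smul_coe, smul_eq_mul, mul_one,
      QuotientGroup.out_eq']
  obtain ⟨f, hf⟩ : ∃ f, f = ∏ y, D y := ⟨_, rfl⟩
  have fD : ∀ y, D y * K y = f := fun y => by
    rw [hK, hf]
    exact Finset.mul_prod_erase _ _ (Finset.mem_univ y)
  have fd : ∀ j, d j * K (o j) = f := fun j => by rw [← Do, fD]
  have sf : ∀ h : G, h • f = f := fun h => by rw [← fD (o j₀), smul_mul', sD, sK, fD, fD]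
  have df : dif G z ∣ f := by rwa [Ko, fd] at hdif
  have cK : ∀ y, Cop w (K y) (D y) := fun y => by
    rw [hK]
    exact pu2_prod _ _ fun y' h => by
      rw [hD, hD]
      exact hcop y' y (Finset.ne_of_mem_erase h)
  obtain ⟨a, ha⟩ : ∃ a, a = ∑ y, K y ^ orderOf (s y.1) := ⟨_, rfl⟩
  have sa : ∀ h : G, h • a = a := fun h => by
    rw [ha, Finset.smul_sum]
    exact Fintype.sum_equiv (MulAction.toPerm h) _ _ fun ⟨j, x⟩ => by rw [smul_pow', sK]; rfl
  have ca : Cop w f a := by
    rw [hf]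
    refine pu2_prod _ _ fun y _ => pu2_symm ?_
    rw [ha, ← Finset.add_sum_erase _ _ (Finset.mem_univ y)]
    refine pu2_add (pu2_pow (cK y) _) (Finset.dvd_sum fun y' h => ?_)
    refine Dvd.dvd.pow ?_ (orderOf_pos _).ne'
    rw [hK]
    exact Finset.dvd_prod_of_mem _ (by simpa using (Finset.ne_of_mem_erase h).symm)
  obtain ⟨c, v, u, e⟩ := ca
  obtain ⟨γ, hγ⟩ := pu2_norm (a := w ^ c) (b := f) Finset.univ fun g : G => g • v
  obtain ⟨ν, hν⟩ : ∃ ν, ν = a ^ (Fintype.card G - 1) * ∏ g : G, g • u := ⟨_, rfl⟩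
  have sν : ∀ h : G, h • ν = ν := fun h => by
    rw [hν, smul_mul', smul_pow', sa, Finset.smul_prod']
    congr 1
    exact Fintype.prod_equiv (Equiv.mulLeft h) _ _ fun g => (mul_smul h g u).symm
  have key : ν * a + f * γ = w ^ (c * Fintype.card G) := by
    have h1 : ∀ g : G, w ^ c - g • v * f = g • u * a := fun g => by
      have := congrArg (g • ·) e
      simp only [smul_add, smul_mul', smul_pow', sf, sa, hw] at this
      rw [← this]
      ring
    simp only [h1, Finset.prod_mul_distrib, Finset.prod_const, Finset.card_univ] at hγ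
    rw [pow_mul, hν, mul_right_comm, ← pow_succ, Nat.sub_add_cancel Fintype.card_pos, mul_comm, hγ]
    ring
  have sγ : ∀ h : G, h • (f * γ) = f * γ := fun h => by
    rw [eq_sub_of_add_eq' key, smul_sub, smul_pow', hw, smul_mul', sν, sa]
  obtain ⟨μ, hμ⟩ := (hEUL G A z hz _ (df.mul_right γ)).1 sγ
  obtain ⟨q, hq⟩ : ∃ q : J → A, ∀ j, q j = K (o j) * ν + if j = j₀ then μ else 0 :=
    ⟨_, fun _ => rfl⟩
  have tr : ∀ j, ∃ β : A, ∑ i ∈ Finset.range (orderOf (s j)), s j ^ i • β = d j * q j := fun j => by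
    by_cases h : j = j₀
    · exact ⟨q j, by rw [h, hs, hd]; simp⟩
    · rw [hq, if_neg h, add_zero, ← mul_assoc, fd]
      exact (hEUL G A z hz _ (df.mul_right ν)).2 _ (by rw [smul_mul', sf, sν])
  choose β hβ using tr
  obtain ⟨c', hc'⟩ := pu2_unif (w := w) (d := d) (q := q) fun j => by
    by_cases h : j = j₀
    · rw [h, hd]
      exact pu2_one
    · rw [hq, if_neg h, add_zero]
      refine pu2_symm (pu2_mul (Do j ▸ cK (o j)) ⟨c * Fintype.card G, a, K (o j) * γ, ?_⟩)
      rw [← key, ← fd j]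
      ring
  refine ⟨q, β, c', c * Fintype.card G, hsd, fun j => ?_, fun j => by rw [Ko, sK, so], hβ, hc', hnd,
    ?_⟩
  · by_cases h : j = j₀
    · rw [h, hs, one_smul]
    · rw [hq, if_neg h, add_zero, smul_mul', sK, so, sν]
  · have h1 : ∀ j, ∑ᶠ x : G ⧸ Subgroup.zpowers (s j),
        x.out • (q j * cof s d j ^ (orderOf (s j) - 1)) =
        ∑ x, ν * K ⟨j, x⟩ ^ orderOf (s j) + if j = j₀ then f * γ else 0 := fun j => by
      rw [finsum_eq_sum_of_fintype, hq, Ko, add_mul, mul_right_comm, ← pow_succ',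
        Nat.sub_add_cancel (orderOf_pos _)]
      simp only [smul_add, Finset.sum_add_distrib, smul_mul' _ _ ν, smul_pow', sK, oo, sν,
        mul_comm ν]
      congr 1
      split_ifs with h
      · subst h
        rw [pu2_out hs, hs, orderOf_one, Nat.sub_self, pow_zero, mul_one, hμ]
      · simp
    simp only [h1, Finset.sum_add_distrib, Finset.sum_ite_eq', Finset.mem_univ, if_true]
    rw [← key, ha, Finset.mul_sum, Fintype.sum_sigma]

end

/-! Step RING. -/

section

open PowerSeries IsLocalRing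

theorem ring_lift {p : ℕ} [Fact p.Prime] {k : Type} [Field k] [IsAlgClosed k] [CharP k p] {S : Type}
    [CommRing S] (g : WittVector p k →+* S) (h : (p : S) = 0) :
    ∃ φ : k →+* S, φ.comp (WittVector.constantCoeff : WittVector p k →+* k) = g := by
  have hg : ∀ a ∈ Ideal.span {(p : WittVector p k)}, g a = 0 := fun a ha => by
    obtain ⟨b, rfl⟩ := Ideal.mem_span_singleton'.1 ha
    rw [map_mul, map_natCast, h, mul_zero]
  refine ⟨(Ideal.Quotient.lift _ g hg).comp (WittVector.quotientPEquiv (p := p) (k := k)).symm,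
    RingHom.ext fun a => ?_⟩
  have : (WittVector.quotientPEquiv (p := p) (k := k)).symm (WittVector.constantCoeff a) =
      Ideal.Quotient.mk _ a := by
    rw [RingEquiv.symm_apply_eq]
    rfl
  simp only [RingHom.comp_apply, RingHom.coe_coe, this, Ideal.Quotient.lift_mk]

theorem ring_root {O : Type} [CommRing O] [Nontrivial O]
    (h : ∀ f : Polynomial O, f.Monic → 0 < f.natDegree → ∃ x, f.eval x = 0) {N : ℕ} (hN : 0 < N)
    (c : O) : ∃ x, x ^ N = c := by
  obtain ⟨x, hx⟩ := h _ (Polynomial.monic_X_pow_sub_C c hN.ne')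
    (by rwa [Polynomial.natDegree_X_pow_sub_C])
  exact ⟨x, by simpa [sub_eq_zero] using hx⟩

theorem p_RING (hCMP : S_CMP) (hEVE : S_EVE) :
    S_RING := by
  intro p hp k _ _ _ a N hN
  obtain ⟨O, _, _, _, _, hO, hG⟩ := exists_goodRing p k
  have hpa : 0 < p ^ a := pow_pos hp.out.pos a
  obtain ⟨z, hz⟩ := hO _ (Polynomial.cyclotomic.monic (p ^ a) O)
    (by rw [Polynomial.natDegree_cyclotomic]; exact Nat.totient_pos.2 hpa)
  have hz' := (Polynomial.isRoot_cyclotomic_iff_charZero hpa).1 hz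
  obtain ⟨u, hu⟩ := ring_root hO hN p
  obtain ⟨v, hv⟩ := ring_root hO hN (z - 1)
  obtain ⟨G, hs⟩ := hG {z, u, v} (Set.toFinite _)
  obtain ⟨ζ, rfl⟩ := hs (Set.mem_insert _ _)
  obtain ⟨u, rfl⟩ := hs (Set.mem_insert_of_mem _ (Set.mem_insert _ _))
  obtain ⟨v, rfl⟩ := hs (Set.mem_insert_of_mem _ (Set.mem_insert_of_mem _ rfl))
  have hζ : IsPrimitiveRoot ζ (p ^ a) := hz'.of_map_of_injective G.hf
  have hu' : u ^ N = p := G.hf (by rw [map_pow, map_natCast, hu])
  have hv' : v ^ N = ζ - 1 := G.hf (by rw [map_pow, map_sub, map_one, hv])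
  have : CharZero G.R := G.f.toRingHom.charZero
  obtain ⟨ϖ, hϖ⟩ := IsDiscreteValuationRing.exists_irreducible G.R
  have hk : ∀ r, G.π r = 0 ↔ ϖ ∣ r := fun r => by
    rw [← Ideal.mem_span_singleton, ← hϖ.maximalIdeal_eq,
      ← eq_maximalIdeal (RingHom.ker_isMaximal_of_surjective G.π G.hπ), RingHom.mem_ker]
  have hd : ∀ x c, x ^ N = c → G.π c = 0 → ϖ ^ N ∣ c := fun x c e h =>
    e ▸ pow_dvd_pow_of_dvd ((hk x).1 (pow_eq_zero_iff hN.ne' |>.1 (by rwa [← map_pow, e]))) N
  obtain ⟨φ, hφ⟩ := ring_lift (G.π.comp (algebraMap (WittVector p k) G.R)) (CharP.cast_eq_zero k p)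
  have hint : φ.IsIntegral := RingHom.IsIntegral.tower_top _ _ (hφ ▸
    RingHom.IsIntegral.trans _ _ (algebraMap_isIntegral_iff.2 inferInstance)
      (RingHom.isIntegral_of_surjective _ G.hπ))
  let E : k ≃+* k := RingEquiv.ofBijective φ (IsAlgClosed.ringHom_bijective_of_isIntegral φ hint)
  have h1 : ∀ w, E.symm (G.π (algebraMap (WittVector p k) G.R w)) = WittVector.constantCoeff w :=
    fun w => E.symm_apply_eq.2 (RingHom.congr_fun hφ w).symm
  have h2 : ∀ r, E.symm (G.π r) = 0 ↔ ϖ ∣ r := fun r => E.symm.map_eq_zero_iff.trans (hk r)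
  obtain ⟨ρ, hρ⟩ := ring_lift ((Ideal.Quotient.mk (Ideal.span {ϖ ^ N})).comp
    (algebraMap (WittVector p k) G.R)) (by
      rw [← map_natCast (Ideal.Quotient.mk _), Ideal.Quotient.eq_zero_iff_dvd]
      exact hd u _ hu' (by rw [map_natCast, CharP.cast_eq_zero]))
  obtain ⟨θ, t1, t2⟩ := (hEVE k _ (Ideal.span {Ideal.Quotient.mk (Ideal.span {ϖ ^ N}) ϖ})
    ((hCMP _).2.2 _ ⟨N, by
      rw [Ideal.span_singleton_pow, ← map_pow, Ideal.Quotient.mk_singleton_self]
      simp⟩)).2.1 ρ _ (Ideal.mem_span_singleton_self _)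
  refine ⟨G.R, inferInstance, inferInstance, inferInstance, inferInstance, inferInstance, ϖ, ζ,
    (E.symm : k →+* k).comp G.π, θ, inferInstance, hϖ, hζ, hd v _ hv' ?_, ?_, h1,
    E.symm.surjective.comp G.hπ, h2, t2, fun f r e => ?_⟩
  · refine pow_eq_zero_iff hpa.ne' |>.1 ?_
    rw [map_sub, map_one, sub_pow_char_pow, ← map_pow, hζ.pow_eq_one, map_one, one_pow, sub_self]
  · refine (injective_iff_map_eq_zero _).2 fun w hw => by_contra fun h => ?_
    obtain ⟨n, c, rfl⟩ := IsDiscreteValuationRing.eq_unit_mul_pow_irreducible h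
      (WittVector.irreducible (k := k) p)
    rw [map_mul, map_pow, map_natCast, (c.isUnit.map _).mul_right_eq_zero] at hw
    exact hp.out.ne_zero (Nat.cast_eq_zero.1 (eq_zero_of_pow_eq_zero hw))
  · obtain ⟨w, hw⟩ := WittVector.constantCoeff_surjective p (constantCoeff f)
    obtain ⟨s, hs⟩ := Ideal.Quotient.mk_surjective (θ (mk fun n => coeff (n + 1) f))
    have e1 : ρ (constantCoeff f) = Ideal.Quotient.mk _ (algebraMap (WittVector p k) G.R w) :=
      hw ▸ RingHom.congr_fun hρ w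
    rw [eq_X_mul_shift_add_const f, map_add, map_mul, t1, t2, ← hs, e1, ← map_mul, ← map_add,
      Ideal.Quotient.eq, Ideal.mem_span_singleton] at e
    have e2 := (dvd_pow_self ϖ hN.ne').trans e
    rw [add_sub_assoc, dvd_add_right (dvd_mul_right _ _), ← h2, map_sub, map_sub, h1,
      sub_eq_zero] at e2
    exact e2.symm.trans hw

end

/-! Step TN. -/

section

open PowerSeries IsLocalRing

theorem p_TN :
    S_TN := by
  classical
  intro G R _ _ _ _ s ξ hξ η h
  letI : MulAction G (G →₀ ℕ) := Finsupp.comapMulAction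
  have c1 : ∀ (g : G) (P : MvPolynomial G R) (m : G →₀ ℕ),
      (MvPolynomial.rename (g * ·) P).coeff (g • m) = P.coeff m := fun g P m =>
    MvPolynomial.coeff_rename_mapDomain _ (mul_right_injective g) P m
  have c2 : ∀ (i : ℕ) (m : G →₀ ℕ), η.coeff (s ^ i • m) = ξ ^ i * η.coeff m := fun i m => by
    induction i with
    | zero => simp
    | succ i ih =>
      rw [pow_succ', mul_smul, ← h, MvPolynomial.coeff_C_mul, c1, h, ih, pow_succ', mul_assoc]
  let rep : (G →₀ ℕ) → G →₀ ℕ := fun m =>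
    (Quotient.mk (MulAction.orbitRel (Subgroup.zpowers s) _) m).out
  have r1 : ∀ m, ∃ i < orderOf s, s ^ i • rep m = m := fun m => by
    obtain ⟨t, ht⟩ := (MulAction.orbitRel (Subgroup.zpowers s) _).symm (Quotient.mk_out m)
    obtain ⟨i, hi, e⟩ := Finset.mem_image.1 (mem_zpowers_iff_mem_range_orderOf.1 t.2)
    exact ⟨i, Finset.mem_range.1 hi, by rw [e]; exact ht⟩
  have r2 : ∀ (i : ℕ) m, rep (s ^ i • m) = rep m := fun i m =>
    congrArg Quotient.out (Quotient.sound ⟨⟨s ^ i, Subgroup.npow_mem_zpowers s i⟩, rfl⟩)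
  have r3 : ∀ m, rep (rep m) = rep m := fun m => congrArg Quotient.out (Quotient.out_eq _)
  obtain ⟨δ, hδ⟩ : ∃ δ : MvPolynomial G R, ∀ m, δ.coeff m = if rep m = m then η.coeff m else 0 :=
    ⟨∑ m ∈ η.support.filter fun m => rep m = m, MvPolynomial.monomial m (η.coeff m), fun m => by
      simp only [MvPolynomial.coeff_sum, MvPolynomial.coeff_monomial, Finset.sum_ite_eq',
        Finset.mem_filter, MvPolynomial.mem_support_iff]
      by_cases e : η.coeff m = 0 <;> simp [e]⟩
  refine ⟨δ, MvPolynomial.ext _ _ fun m => ?_⟩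
  obtain ⟨i, hi, e⟩ := r1 m
  have c3 : ∀ j : ℕ, (MvPolynomial.C (ξ ^ j) * MvPolynomial.rename (s ^ j * ·) δ).coeff m =
      if s ^ j • rep m = m then η.coeff m else 0 := fun j => by
    have e1 : m = s ^ j • (s ^ j)⁻¹ • m := (smul_inv_smul _ _).symm
    conv_lhs => rw [e1, MvPolynomial.coeff_C_mul, c1, hδ, mul_ite, mul_zero, ← c2, ← e1, ← r2 j,
      ← e1]
    simp only [eq_inv_smul_iff]
  rw [MvPolynomial.coeff_sum, Finset.sum_eq_single i (fun j hj hji => ?_)
    (fun h' => absurd (Finset.mem_range.2 hi) h'), c3, if_pos e]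
  rw [c3]
  split_ifs with e'
  · by_contra h0
    have a1 := c2 i (rep m)
    have a2 := c2 j (rep m)
    rw [e] at a1
    rw [e', a1] at a2
    exact hji (hξ.pow_inj (Finset.mem_range.1 hj) hi (mul_right_cancel₀
      (fun e0 => h0 (by rw [a1, e0, mul_zero])) a2.symm))
  · rfl

end

/-! Step TW. -/

section

open PowerSeries IsLocalRing

/-- The orbit of `a` under `x ↦ γ + T x`. -/
noncomputable def tw_orb {R B : Type} [CommRing R] [AddCommGroup B] [Module R B]
    (T : Module.End R B) (γ a : B) (i : ℕ) : B := ∑ j ∈ Finset.range i, (T ^ j) γ + (T ^ i) a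

theorem tw_succ {R B : Type} [CommRing R] [AddCommGroup B] [Module R B]
    (T : Module.End R B) (γ a : B) (i : ℕ) : tw_orb T γ a (i + 1) = γ + T (tw_orb T γ a i) := by
  simp only [tw_orb, Finset.sum_range_succ', map_add, map_sum, pow_succ', Module.End.mul_apply,
    pow_zero, Module.End.one_apply]
  abel

theorem tw_mod {R B : Type} [CommRing R] [AddCommGroup B] [Module R B]
    {T : Module.End R B} {γ : B} {n : ℕ} (hT : T ^ n = 1)
    (h : ∑ j ∈ Finset.range n, (T ^ j) γ = 0) (a : B) {i j : ℕ} (e : i ≡ j [MOD n]) :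
    tw_orb T γ a i = tw_orb T γ a j := by
  have p : Function.Periodic (tw_orb T γ a) n := fun i => by
    induction i with
    | zero => simp [tw_orb, h, hT]
    | succ i ih => rw [add_right_comm, tw_succ, tw_succ, ih]
  rw [← p.map_mod_nat i, ← p.map_mod_nat j, e]

theorem tw_rep {G : Type} [Group G] [Finite G] (s : G) : ∃ (r : G → G) (i : G → ℕ),
    (∀ g, s ^ i g * r g = g) ∧ ∀ g, r (s * g) = r g := by
  have h : ∀ g : G, ∃ i : ℕ,
      s ^ i * (Quotient.mk (QuotientGroup.rightRel (Subgroup.zpowers s)) g).out = g := fun g => by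
    have := QuotientGroup.rightRel_apply.1
      (Quotient.mk_out (s := QuotientGroup.rightRel (Subgroup.zpowers s)) g)
    obtain ⟨i, e⟩ := (Submonoid.mem_powers_iff _ _).1 (mem_powers_iff_mem_zpowers.2 this)
    exact ⟨i, by rw [e, inv_mul_cancel_right]⟩
  choose i hi using h
  refine ⟨_, i, hi, fun g => congrArg Quotient.out (Quotient.sound ?_)⟩
  exact QuotientGroup.rightRel_apply.2 (by simp)

open MvPolynomial in
theorem p_TW (hTN : S_TN) :
    S_TW := by
  intro G R _ _ _ _ s ξ l hξ hl hd F hF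
  obtain ⟨T, hT⟩ : ∃ T : Module.End R (MvPolynomial G R),
      ∀ x, T x = MvPolynomial.C ξ * rename (s * ·) x :=
    ⟨ξ • (rename (s * ·)).toLinearMap, fun x => by simp [MvPolynomial.smul_eq_C_mul]⟩
  have hid : ∀ x : MvPolynomial G R, rename (fun a => a) x = x := rename_id_apply
  have hp : ∀ (i : ℕ) x, (T ^ i) x = MvPolynomial.C (ξ ^ i) * rename (s ^ i * ·) x := fun i x => by
    induction i with
    | zero => simp [hid]
    | succ i ih =>
      rw [pow_succ', Module.End.mul_apply, ih, hT, map_mul, rename_C, rename_rename, ← mul_assoc,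
        ← map_mul, ← pow_succ']
      congr 3
      funext a
      simp [pow_succ', mul_assoc]
  have hn : T ^ orderOf s = 1 := LinearMap.ext fun x => by
    simp [hp, hξ.pow_eq_one, pow_orderOf_eq_one, hid]
  have hm : ∀ (i : ℕ) x, (T ^ i) (MvPolynomial.C l * x) = MvPolynomial.C l * (T ^ i) x :=
    fun i x => by
      rw [← MvPolynomial.smul_eq_C_mul, ← MvPolynomial.smul_eq_C_mul, map_smul]
  have key : ∀ γ, MvPolynomial.C l ∣ γ - F s → ∀ r (i : ℕ),
      MvPolynomial.C l ∣ tw_orb T γ (F r) i - F (s ^ i * r) := fun γ hγ r i => by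
    induction i with
    | zero => simp [tw_orb]
    | succ i ih =>
      obtain ⟨u, hu⟩ := ih
      have h1 := hm 1 u
      rw [pow_one, ← hu, map_sub, hT (F _)] at h1
      have h2 : MvPolynomial.C l ∣ (MvPolynomial.C ξ - 1) * rename (s * ·) (F (s ^ i * r)) := by
        refine Dvd.dvd.mul_right ?_ _
        simpa using map_dvd (MvPolynomial.C (σ := G)) hd
      have h3 := ((hγ.add (Dvd.intro _ h1.symm)).add h2).sub (hF s (s ^ i * r))
      rw [tw_succ, pow_succ', mul_assoc]
      convert h3 using 1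
      ring
  obtain ⟨η, hη⟩ := key (F s) (by simp) 1 (orderOf s)
  rw [tw_orb, hn, pow_orderOf_eq_one, one_mul, Module.End.one_apply, add_sub_cancel_right] at hη
  have h0 : (MvPolynomial.C l : MvPolynomial G R) ≠ 0 := by simpa using hl
  obtain ⟨δ, hδ⟩ := hTN G R s ξ hξ η (by
    have h1 := tw_succ T (F s) 0 (orderOf s)
    have h2 := hm 1 η
    simp only [tw_orb, map_zero, add_zero] at h1
    rw [Finset.sum_range_succ, hn, Module.End.one_apply, add_comm, add_right_inj, hη] at h1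
    rw [pow_one, ← h1] at h2
    rw [← hT]
    exact (mul_left_cancel₀ h0 h2).symm)
  have hz : ∑ j ∈ Finset.range (orderOf s), (T ^ j) (F s - MvPolynomial.C l * δ) = 0 := by
    simp only [map_sub, hm, Finset.sum_sub_distrib]
    rw [hη, ← Finset.mul_sum, ← hδ]
    simp only [hp, sub_self]
  obtain ⟨r, i, h1, h2⟩ := tw_rep s
  refine ⟨fun g => tw_orb T (F s - MvPolynomial.C l * δ) (F (r g)) (i g),
    F s - MvPolynomial.C l * δ, fun g => ?_, fun g => ?_⟩
  · have := key (F s - MvPolynomial.C l * δ) (by simp) (r g) (i g)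
    rwa [h1] at this
  · beta_reduce
    rw [← hT, ← tw_succ, h2]
    refine tw_mod hn hz _ (pow_eq_pow_iff_modEq.1 (mul_right_cancel (b := r g) ?_))
    rw [pow_succ', mul_assoc, h1, ← h2, h1]

end

/-! Step LIFT. -/

section

open PowerSeries IsLocalRing

theorem p_LIFT :
    S_LIFT := by
  intro G L R k _ _ _ _ l θ ε π hc c hcoc
  have h1 : c 1 = 0 := by
    have := hcoc 1 1
    simp only [mul_one, one_mul] at this
    rw [show (fun x : G => x) = id from rfl, MvPolynomial.rename_id_apply] at this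
    simpa using this
  have : ∀ g, ∃ P : MvPolynomial G R, (g = 1 → P = 0) ∧
      MvPolynomial.map (Ideal.Quotient.mk (Ideal.span {l})) P = MvPolynomial.map θ (c g) := by
    intro g
    by_cases hg : g = 1
    · exact ⟨0, fun _ => rfl, by simp [hg, h1]⟩
    · obtain ⟨P, hP⟩ := MvPolynomial.map_surjective _ Ideal.Quotient.mk_surjective
        (MvPolynomial.map θ (c g))
      exact ⟨P, fun h => absurd h hg, hP⟩
  choose c' h0 h using this
  refine ⟨c', h0 1 rfl, h, fun g => ?_, fun a g => ?_⟩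
  · ext m
    have := congrArg (MvPolynomial.coeff m) (h g)
    simp only [MvPolynomial.coeff_map] at this ⊢
    exact hc _ _ this.symm
  · rw [MvPolynomial.C_dvd_iff_dvd_coeff]
    intro m
    rw [← Ideal.mem_span_singleton, ← Ideal.Quotient.eq_zero_iff_mem, ← MvPolynomial.coeff_map,
      map_sub, map_sub, MvPolynomial.map_rename, h, h, h, hcoc a g, map_add,
      MvPolynomial.map_rename]
    simp

end

end Pool.Agent.P.MP_41a2b4_ag.W
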