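import Pool.Agent.P.MP_41a2b4_ag.W.Iface

set_option autoImplicit false

namespace Pool.Agent.P.MP_41a2b4_ag.W

/-! Step TUBE. -/

section

open PowerSeries IsLocalRing

theorem tube_y {G R : Type} [Group G] [CommRing R] (m : Ideal R) (g : G) : yv R g ∈ nb G m := by
  unfold yv
  split_ifs
  · exact zero_mem _
  · simp [nb]

theorem p_TUBE (hCMP : S_CMP) (hEVU : S_EVU) (hEVE : S_EVE) (hIMP : S_IMP) :
    S_TUBE := by
  classical
  intro G R _ _ _ _ m hm ϖ hϖ h0 M N hMN c c1 cs hc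
  have hB := ((hCMP R).1 m hm).1 G
  have mC : ∀ r ∈ m, (MvPowerSeries.C r : MvPowerSeries G R) ∈ nb G m := fun r hr => by
    simpa [nb] using hr
  have mX : ∀ g : G, (MvPowerSeries.X g : MvPowerSeries G R) ∈ nb G m := fun g => by simp [nb]
  have hI := fun w => hIMP R (MvPowerSeries G R) G (algebraMap R _) (nb G m) c w
    fun g d hd => mC _ (cs g d hd)
  simp only [← MvPolynomial.aeval_def] at hI
  obtain ⟨x, x1, x2⟩ := (hI fun g => MvPowerSeries.X 1 + MvPowerSeries.C ϖ ^ M * yv R g).2 hB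
    fun g => add_mem (mX 1) (Ideal.mul_mem_left _ _ (tube_y m g))
  have y1 : yv R (1 : G) = 0 := if_pos rfl
  have x3 : x 1 = MvPowerSeries.X 1 := by rw [x2, c1, y1]; simp
  choose r hr using hc
  have r1 : ∀ h, r h 1 = 0 := fun h => by
    have := hr h 1
    rw [mul_one, c1, map_zero, sub_self, sub_zero, eq_comm, mul_eq_zero] at this
    exact this.resolve_left (MvPolynomial.C_ne_zero.2 (pow_ne_zero _ h0))
  set v : G → G → MvPowerSeries G R := fun h g =>
    yv R (h * g) - yv R h + MvPowerSeries.C ϖ ^ (N - M) * MvPolynomial.aeval x (r h g) with hv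
  have v1 : ∀ h g, v h g ∈ nb G m := fun h g => add_mem (sub_mem (tube_y m _) (tube_y m _))
    (Ideal.mul_mem_right _ _ (Ideal.pow_mem_of_mem _ (mC ϖ hϖ) _ (by omega)))
  have a0 : ∀ h g, (if g = 1 then x h else v h g) ∈ nb G m := fun h g => by
    split_ifs
    exacts [x1 h, v1 h g]
  choose a ha using fun h => (hEVE R _ (nb G m) hB).2.2.1 G _ (a0 h)
  have aC : ∀ (φ : MvPowerSeries G R →ₐ[R] MvPowerSeries G R) (t : R),
      φ (MvPowerSeries.C t) = MvPowerSeries.C t := fun φ t => φ.commutes t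
  have aX : ∀ h g, a h (MvPowerSeries.X g) ∈ nb G m := fun h g => ha h g ▸ a0 h g
  have ay : ∀ h g, a h (yv R g) = v h g := fun h g => by
    by_cases e : g = 1
    · simp [e, y1, hv, r1]
    · rw [yv, if_neg e, ha, if_neg e]
  have ae : ∀ (φ : MvPowerSeries G R →ₐ[R] MvPowerSeries G R) (P : MvPolynomial G R),
      φ (MvPolynomial.aeval x P) = MvPolynomial.aeval (fun g => φ (x g)) P := fun φ P =>
    (MvPolynomial.comp_aeval_apply x φ P)
  have ax : ∀ h g, a h (x g) = x (h * g) := fun h => congrFun <|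
    (hI fun g => x h + MvPowerSeries.C ϖ ^ M * v h g).1 hB.toIsHausdorff _ _
      (fun g => (hEVU R _ (nb G m)).2.2.2.1 G (a h).toRingHom m
        (fun t ht => (aC (a h) t).symm ▸ mC t ht) (aX h) _ (x1 g))
      (fun g => x1 _)
      (fun g => by
        conv_lhs => rw [x2 g]
        rw [map_add, map_add, map_mul, map_pow, aC, ay, ha, if_pos rfl, ae])
      fun g => by
        have e1 := congrArg (MvPolynomial.aeval x) (hr h g)
        rw [map_sub, map_sub, map_mul, MvPolynomial.aeval_rename, MvPolynomial.aeval_C,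
          map_pow] at e1
        have e2 : (MvPowerSeries.C ϖ : MvPowerSeries G R) ^ M * MvPowerSeries.C ϖ ^ (N - M) =
            algebraMap R _ ϖ ^ N := by
          rw [← pow_add, Nat.add_sub_cancel' hMN.le]
          rfl
        have e3 : MvPolynomial.aeval (x ∘ fun a => h * a) (c g) =
          MvPolynomial.aeval (fun a => x (h * a)) (c g) := rfl
        simp only [hv]
        linear_combination x2 (h * g) - x2 h + e1 + e3 - MvPolynomial.aeval x (r h g) * e2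
  have uq : ∀ φ ψ : MvPowerSeries G R →ₐ[R] MvPowerSeries G R,
      (∀ g, φ (MvPowerSeries.X g) ∈ nb G m) → (∀ g, φ (x g) = ψ (x g)) → φ = ψ := by
    intro φ ψ h1 h2
    refine AlgHom.coe_ringHom_injective ((hEVU R _ (nb G m)).2.1 G φ ψ hB.toIsHausdorff
      (fun t => (aC φ t).trans (aC ψ t).symm) h1 fun g => ?_)
    have h3 := h2 1
    rw [x3] at h3
    by_cases e : g = 1
    · exact e ▸ h3
    have h4 := h2 g
    rw [x2 g, yv, if_neg e] at h4
    simp only [map_add, map_mul, map_pow, aC, ae, h2, h3, add_left_inj, add_right_inj] at h4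
    refine mul_left_cancel₀ (pow_ne_zero M fun e => h0 ?_) h4
    simpa using congrArg MvPowerSeries.constantCoeff e
  have am : ∀ h k, a (h * k) = (a h).comp (a k) := fun h k =>
    uq _ _ (aX _) fun g => by rw [AlgHom.comp_apply, ax, ax, ax, mul_assoc]
  have a1 : a 1 = AlgHom.id R _ := uq _ _ (aX _) fun g => by rw [ax, one_mul, AlgHom.id_apply]
  refine ⟨x, MonoidHom.mk' (fun h => AlgEquiv.ofAlgHom (a h) (a h⁻¹)
    (by rw [← am, mul_inv_cancel, a1]) (by rw [← am, inv_mul_cancel, a1])) fun h k =>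
      AlgEquiv.ext fun f => DFunLike.congr_fun (am h k) f, x1, x3, fun g => ?_, ax, aX⟩
  rw [add_right_comm]
  exact x2 g

end

/-! Step EQV. -/

section

open PowerSeries IsLocalRing

theorem p_EQV (hCMP : S_CMP) (hEVU : S_EVU) (hEVE : S_EVE) (hIMP : S_IMP) (hRED : S_RED) :
    S_EQV := by
  intro G L R _ _ _ _ ϖ₀ ϖ M θ hθ c₀ x₀ α₀ hc₀ hx₀ ex₀ hα₀ c x α hc hx ex hα g a b hab
  let mk := Ideal.Quotient.mk (Ideal.span {ϖ ^ M})
  let m : Ideal (R ⧸ Ideal.span {ϖ ^ M}) := Ideal.span {mk ϖ}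
  have h0 : mk (ϖ ^ M) = 0 := Ideal.Quotient.eq_zero_iff_mem.2 (Ideal.mem_span_singleton_self _)
  have hm : IsAdicComplete m (R ⧸ Ideal.span {ϖ ^ M}) := (hCMP _).2.2 m ⟨M, by
    rw [Ideal.span_singleton_pow, ← map_pow, h0, Ideal.zero_eq_bot, Ideal.span_singleton_eq_bot]⟩
  have hH := (((hCMP _).1 m hm).1 G).toIsHausdorff
  let r : L⟦X⟧ →+* MvPowerSeries G (R ⧸ Ideal.span {ϖ ^ M}) :=
    (PowerSeries.toMvPowerSeries (1 : G)).toRingHom.comp (PowerSeries.map θ)
  let red : MvPowerSeries G R →+* MvPowerSeries G (R ⧸ Ideal.span {ϖ ^ M}) := MvPowerSeries.map mk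
  let ρ : L →+* MvPowerSeries G (R ⧸ Ideal.span {ϖ ^ M}) := MvPowerSeries.C.comp θ
  have rC : ∀ l, r (PowerSeries.C l) = ρ l := fun l => by
    change PowerSeries.toMvPowerSeries 1 (PowerSeries.map θ _) = _
    rw [map_C, toMvPowerSeries_C]
    rfl
  have rX : r X = MvPowerSeries.X 1 := by
    change PowerSeries.toMvPowerSeries 1 (PowerSeries.map θ _) = _
    rw [map_X, toMvPowerSeries_X]
  have hρ : ∀ l ∈ Ideal.span {ϖ₀}, ρ l ∈ nb G m := fun l hl => by
    obtain ⟨t, rfl⟩ := Ideal.mem_span_singleton'.1 hl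
    change MvPowerSeries.constantCoeff (MvPowerSeries.C (θ _)) ∈ m
    rw [MvPowerSeries.constantCoeff_C, map_mul, hθ]
    exact Ideal.mul_mem_left _ _ (Ideal.mem_span_singleton_self _)
  have hX : (MvPowerSeries.X 1 : MvPowerSeries G (R ⧸ Ideal.span {ϖ ^ M})) ∈ nb G m := by
    simp [nb]
  have h1 : ∀ g, r (x₀ g) ∈ nb G m := fun g =>
    (hEVU L _ _).2.2.2.2 r _ (fun l hl => by rw [rC]; exact hρ l hl) (by rw [rX]; exact hX) _
      (hx₀ g)
  have h2 : (fun g => r (x₀ g)) = fun g => red (x g) := by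
    refine (hIMP L _ G ρ (nb G m) c₀ (fun _ => MvPowerSeries.X 1)
      fun g d hd => hρ _ (hc₀ g d hd)).1 hH _ _ h1 (fun g => ?_) (fun g => ?_) fun g => ?_
    · obtain ⟨t, ht⟩ := Ideal.mem_span_singleton'.1 (hx g)
      change MvPowerSeries.constantCoeff (MvPowerSeries.map mk _) ∈ m
      rw [MvPowerSeries.constantCoeff_map, ← ht, map_mul]
      exact Ideal.mul_mem_left _ _ (Ideal.mem_span_singleton_self _)
    · have e2 : r.comp (algebraMap L L⟦X⟧) = ρ := RingHom.ext rC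
      conv_lhs => rw [ex₀ g]
      rw [map_add, rX, MvPolynomial.aeval_def, MvPolynomial.eval₂_comp_left, e2]
      rfl
    · have e2 : red.comp (algebraMap R (MvPowerSeries G R)) = MvPowerSeries.C.comp mk :=
        RingHom.ext fun t => MvPowerSeries.map_C mk t
      have e3 : red (MvPowerSeries.C ϖ ^ M) = 0 := by
        rw [← map_pow]
        exact ((hRED G R).1 _).2 _ |>.2 dvd_rfl
      conv_lhs => rw [ex g]
      rw [map_add, map_add, map_mul, e3, zero_mul, add_zero, MvPowerSeries.map_X,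
        MvPolynomial.aeval_def, MvPolynomial.eval₂_comp_left, e2, ← MvPolynomial.eval₂_map, hc,
        MvPolynomial.eval₂_map]
      rfl
  have aC : ∀ t, α g (MvPowerSeries.C t) = MvPowerSeries.C t := (α g).commutes
  obtain ⟨hs, hk⟩ := (hRED G R).1 (ϖ ^ M)
  obtain ⟨β, hβ⟩ : ∃ β : MvPowerSeries G (R ⧸ Ideal.span {ϖ ^ M}) →+*
      MvPowerSeries G (R ⧸ Ideal.span {ϖ ^ M}), ∀ b, β (red b) = red (α g b) :=
    ⟨red.liftOfSurjective hs ⟨red.comp (α g).toAlgHom.toRingHom, fun b hb => by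
      obtain ⟨t, rfl⟩ := (hk b).1 hb
      refine (hk (α g _)).2 ?_
      rw [map_mul, aC]
      exact dvd_mul_right _ _⟩, fun b => RingHom.liftOfSurjective_comp_apply _ _ _ b⟩
  have key := (hEVU L _ (nb G m)).2.2.1 (r.comp (α₀ g).toAlgHom.toRingHom) (β.comp r) hH
    (fun l => by
      obtain ⟨t, ht⟩ := Ideal.Quotient.mk_surjective (θ l)
      have e1 : α₀ g (PowerSeries.C l) = PowerSeries.C l := (α₀ g).commutes l
      have e2 : ρ l = red (MvPowerSeries.C t) := by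
        rw [MvPowerSeries.map_C, ht]
        rfl
      change r (α₀ g _) = β (r _)
      rw [e1, rC, e2, hβ, aC])
    (by
      change r (α₀ g X) ∈ _
      rw [hα₀]
      exact h1 g)
    (by
      change r (α₀ g X) = β (r X)
      rw [hα₀, rX, ← MvPowerSeries.map_X mk, hβ, hα]
      exact congrFun h2 g)
  have := DFunLike.congr_fun key a
  change r (α₀ g a) = β (r a) at this
  change r a = red b at hab
  rw [hab, hβ] at this
  exact this

end

/-! Step HEN. -/

section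

open PowerSeries IsLocalRing

theorem hen_root (hFIX : S_FIX) {B : Type} [CommRing B] {ϖ : B}
    (hB : IsAdicComplete (Ideal.span {ϖ}) B) (a b ρ : B) :
    ∃ t, t + ϖ * (a * t + b * t ^ 2) = ρ := by
  have hm : ϖ ∈ Ideal.span {ϖ} := Ideal.mem_span_singleton_self ϖ
  obtain ⟨x, -, hx⟩ := (hFIX B Unit (Ideal.span {ϖ})
    (fun x _ => -(ϖ * (a * (ρ + x ()) + b * (ρ + x ()) ^ 2))) fun n x y _ _ h _ => by
      have e : -(ϖ * (a * (ρ + x ()) + b * (ρ + x ()) ^ 2)) -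
          -(ϖ * (a * (ρ + y ()) + b * (ρ + y ()) ^ 2)) =
          (x () - y ()) * (ϖ * -(a + b * (2 * ρ + x () + y ()))) := by ring
      rw [e, pow_succ]
      exact Ideal.mul_mem_mul (h ()) (Ideal.mul_mem_right _ _ hm)).2 hB
    fun _ => neg_mem (Ideal.mul_mem_right _ _ hm)
  exact ⟨ρ + x (), by linear_combination -congrFun hx ()⟩

theorem p_HEN (hFIX : S_FIX) :
    S_HEN := by
  intro B _ _ ϖ hp hB M c hM d₀ q₀ φ u v ⟨a, ha⟩ ⟨ρ, hρ⟩ hd
  obtain ⟨L, rfl⟩ : ∃ L, M = c + (c + (L + 1)) := ⟨M - 2 * c - 1, by omega⟩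
  rw [Nat.add_sub_cancel_left]
  obtain ⟨t, ht⟩ := hen_root hFIX hB (ϖ ^ (c + L) * a) (ϖ ^ L * (u * v)) ρ
  have e0 : φ = (d₀ + ϖ ^ (c + (L + 1)) * (v * t)) * (q₀ + ϖ ^ (c + (L + 1)) * (u * t)) := by
    linear_combination hρ - ϖ ^ (c + (L + 1)) * t * ha - ϖ ^ (c + (c + (L + 1))) * ht
  refine ⟨_, _, e0, ⟨v * t, by ring⟩, ⟨u * t, by ring⟩, fun τ ξ h1 h2 ⟨e1, h3⟩ ⟨e2, h4⟩ => ?_⟩
  obtain ⟨d, hd'⟩ : ∃ d, d = d₀ + ϖ ^ (c + (L + 1)) * (v * t) := ⟨_, rfl⟩
  obtain ⟨q, hq'⟩ : ∃ q, q = q₀ + ϖ ^ (c + (L + 1)) * (u * t) := ⟨_, rfl⟩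
  rw [← hd', ← hq'] at e0
  rw [← hd']
  have nd : ¬ ϖ ∣ d := fun k => hd (by
    have : d₀ = d - ϖ * (ϖ ^ (c + L) * (v * t)) := by rw [hd']; ring
    exact this ▸ dvd_sub k (dvd_mul_right _ _))
  obtain ⟨e, he⟩ : ∃ e, τ d = d + ϖ ^ (c + (L + 1)) * e := ⟨ϖ ^ c * e1 + τ (v * t) - v * t, by
    rw [hd', map_add, map_mul τ (ϖ ^ _), map_pow, h1]
    linear_combination h3⟩
  obtain ⟨z, hz⟩ : ∃ z, u * d + v * τ q = ϖ ^ c * (1 + ϖ * z) :=
    ⟨ϖ ^ (c + L) * a + ϖ ^ L * (u * v * t + v * (ϖ ^ c * e2 + τ (u * t))), by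
      rw [hd', hq', map_add, map_mul τ (ϖ ^ _), map_pow, h1]
      linear_combination ha + v * h4⟩
  obtain ⟨κ, hκ⟩ := (Ideal.isUnit_of_sub_one_mem_jacobson_bot (1 + ϖ * z)
    (IsAdicComplete.le_jacobson_bot (Ideal.span {ϖ}) (by
      rw [add_sub_cancel_left]
      exact Ideal.mul_mem_right _ _ (Ideal.mem_span_singleton_self ϖ)))).exists_right_inv
  rw [e0, map_mul] at h2
  have e3 : d * (u * τ d + v * ξ * q - ϖ ^ c * (1 + ϖ * z)) =
      ϖ ^ (c + (c + (L + 1))) * ((1 + ϖ * z) * e) := by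
    linear_combination τ d * hz - v * h2 + ϖ ^ c * (1 + ϖ * z) * he
  obtain ⟨w, hw⟩ := hp.pow_dvd_of_dvd_mul_left _ nd ⟨_, e3⟩
  have e4 : d * w = (1 + ϖ * z) * e :=
    mul_left_cancel₀ (pow_ne_zero (c + (c + (L + 1))) hp.ne_zero) (by
      linear_combination e3 - d * hw)
  exact ⟨w * κ, by
    linear_combination he - ϖ ^ (c + (L + 1)) * κ * e4 - ϖ ^ (c + (L + 1)) * e * hκ⟩

end

/-! Step GLUE. -/

section

open PowerSeries IsLocalRing

section

variable {G B : Type} [Group G] [CommRing B] [MulSemiringAction G B] {l a b c : B}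

/-- Equal up to a factor that is one modulo `l`. -/
def glue_Sim (l a b : B) : Prop := ∃ t, a = b * (1 + l * t)

lemma glue_refl (l a : B) : glue_Sim l a a := ⟨0, by simp⟩

lemma glue_trans (h : glue_Sim l a b) (h' : glue_Sim l b c) : glue_Sim l a c := by
  obtain ⟨t, rfl⟩ := h
  obtain ⟨u, rfl⟩ := h'
  exact ⟨t + u + l * t * u, by ring⟩

lemma glue_symm (hl : ∀ t, IsUnit (1 + l * t)) (h : glue_Sim l a b) : glue_Sim l b a := by
  obtain ⟨t, rfl⟩ := h
  obtain ⟨u, hu⟩ := (hl t).exists_right_inv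
  exact ⟨-(t * u), by linear_combination b * l * t * hu⟩

lemma glue_prod {ι : Type} (S : Finset ι) {x y : ι → B} (h : ∀ i, glue_Sim l (x i) (y i)) :
    glue_Sim l (∏ i ∈ S, x i) (∏ i ∈ S, y i) := by
  classical
  induction S using Finset.induction_on with
  | empty => exact glue_refl _ _
  | insert i S hi ih =>
    obtain ⟨t, ht⟩ := h i
    obtain ⟨u, hu⟩ := ih
    exact ⟨t + u + l * t * u, by rw [Finset.prod_insert hi, Finset.prod_insert hi, ht, hu]; ring⟩

lemma glue_smul (hl : ∀ g : G, g • l = l) (g : G) (h : glue_Sim l a b) :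
    glue_Sim l (g • a) (g • b) := by
  obtain ⟨t, rfl⟩ := h
  exact ⟨g • t, by rw [smul_mul', smul_add, smul_one, smul_mul', hl]⟩

lemma glue_zpow [Finite G] (hl : ∀ g : G, g • l = l) {s t : G} (h : glue_Sim l (s • a) a)
    (ht : t ∈ Subgroup.zpowers s) : glue_Sim l (t • a) a := by
  obtain ⟨n, rfl⟩ := (mem_powers_iff_mem_zpowers.2 ht : t ∈ Submonoid.powers s)
  induction n with
  | zero => simpa using glue_refl l a
  | succ n ih =>
    simp only [pow_succ, mul_smul]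
    exact glue_trans (glue_smul hl _ h) (ih (pow_mem (Subgroup.mem_zpowers s) n))

lemma glue_eig {s : G} {ξ : B} (β : B) (h0 : 0 < orderOf s) (h1 : s • ξ = ξ)
    (h2 : ξ ^ orderOf s = 1) :
    s • ∑ i ∈ Finset.range (orderOf s), (ξ ^ (orderOf s - 1)) ^ i * s ^ i • β =
      ξ * ∑ i ∈ Finset.range (orderOf s), (ξ ^ (orderOf s - 1)) ^ i * s ^ i • β := by
  have e1 := Finset.sum_range_succ' (fun i => (ξ ^ (orderOf s - 1)) ^ i * s ^ i • β) (orderOf s)
  rw [Finset.sum_range_succ, pow_orderOf_eq_one, pow_right_comm, h2, one_pow, pow_zero, pow_zero,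
    add_left_inj] at e1
  have e2 : ξ * ξ ^ (orderOf s - 1) = 1 := by rw [← pow_succ', Nat.sub_add_cancel h0, h2]
  conv_rhs => rw [e1]
  rw [Finset.smul_sum, Finset.mul_sum]
  refine Finset.sum_congr rfl fun i _ => ?_
  rw [smul_mul', smul_pow', smul_pow', h1, pow_succ' s, mul_smul, pow_succ' (ξ ^ _), ← mul_assoc,
    ← mul_assoc, e2, one_mul]

lemma glue_norm (s : G) (b : B) :
    s • ∏ i ∈ Finset.range (orderOf s), s ^ i • b = ∏ i ∈ Finset.range (orderOf s), s ^ i • b := by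
  rcases Nat.eq_zero_or_pos (orderOf s) with h | h
  · simp [h]
  obtain ⟨n, hn⟩ := Nat.exists_eq_succ_of_ne_zero h.ne'
  have e : s ^ (n + 1) = s ^ 0 := by rw [← n.succ_eq_add_one, ← hn, pow_orderOf_eq_one, pow_zero]
  rw [hn, Finset.smul_prod', Finset.prod_range_succ' (fun i => s ^ i • b), Finset.prod_range_succ]
  simp only [← mul_smul, ← pow_succ', e]

end

theorem p_GLUE (hHEN : S_HEN) :
    S_GLUE := by
  intro G A B C J _ _ _ _ _ _ _ _ _ w s d q β c e P ϖ hϖ hG hc M h2 hM red r hs hker hsm hw hdv ξ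
    hξ1 hξ2 hξ3
  classical
  have := Fintype.ofFinite (Tr s)
  have (j : J) := Fintype.ofFinite (G ⧸ Subgroup.zpowers (s j))
  have hun : ∀ n t, 0 < n → IsUnit (1 + ϖ ^ n * t) := fun n t hn => by
    rw [add_comm]
    exact Ideal.mem_jacobson_bot.1 (IsAdicComplete.le_jacobson_bot _
      (Ideal.mem_span_singleton.2 (dvd_pow_self ϖ hn.ne'))) t
  have hl : ∀ g : G, g • ϖ ^ (M - c) = ϖ ^ (M - c) := fun g => by rw [smul_pow', hG]
  have hK : 0 < M - c := by omega
  choose lf hlf using fun a => hs (r a)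
  have hsub : ∀ {x y}, red x = red y → ϖ ^ M ∣ x - y := fun h =>
    (hker _).1 (by rw [map_sub, h, sub_self])
  have hinv : ∀ {g : G} {a}, g • a = a → ϖ ^ M ∣ g • lf a - lf a := fun h =>
    hsub (by rw [← hsm _ _ _ (hlf _).symm, h, hlf])
  have hn : ∀ j, 0 < orderOf (s j) := fun j => orderOf_pos _
  -- the local factors
  have key : ∀ j, ∃ D Q : B, s j • (D * Q) = ξ j * (D * Q) ∧ ϖ ^ (M - c) ∣ D - lf (d j) ∧
      ϖ ^ (M - c) ∣ Q - lf (q j) ∧ glue_Sim (ϖ ^ (M - c)) (s j • D) D := fun j => by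
    obtain ⟨u, v, huv⟩ := P.bez j
    have e1 := glue_eig (lf (β j)) (hn j) (hξ1 _ j) (hξ2 j)
    have e2 : red (ξ j) = 1 := by
      have := (hker _).2 (hξ3 j)
      rwa [map_sub, map_one, sub_eq_zero] at this
    obtain ⟨D, Q, e3, e4, e5, e6⟩ := hHEN B ϖ hϖ hc M c h2 (lf (d j)) (lf (q j))
      (∑ i ∈ Finset.range (orderOf (s j)), (ξ j ^ (orderOf (s j) - 1)) ^ i * s j ^ i • lf (β j))
      (lf u) (lf v)
      (hsub (by simp only [map_add, map_mul, map_pow, hlf, ← hw]; rw [← map_pow, ← huv]; simp))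
      (hsub (by
        rw [map_mul, hlf, hlf, ← map_mul, ← P.trace, map_sum, map_sum]
        exact Finset.sum_congr rfl fun i _ => by
          rw [map_mul, map_pow, map_pow, e2, one_pow, one_pow, one_mul, hsm _ _ _ (hlf _).symm]))
      fun h => P.ndvd j (hdv _ _ (hlf _).symm h)
    exact ⟨D, Q, e3 ▸ e1, e4, e5, e6 (MulSemiringAction.toRingHom G B (s j)) (ξ j) (hG _) e1
      (hinv (P.inv_d j)) (hinv (P.inv_q j))⟩
  choose D Q k1 k2 k3 k4 using key
  have hf : ∀ g : G, glue_Sim (ϖ ^ (M - c)) (g • ∏ z : Tr s, z.2.out • D z.1)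
      (∏ z : Tr s, z.2.out • D z.1) := fun g => by
    rw [Finset.smul_prod', ← Equiv.prod_comp (Equiv.sigmaCongrRight fun j => MulAction.toPerm g)
      fun z : Tr s => z.2.out • D z.1]
    refine glue_prod _ fun z => ?_
    obtain ⟨t, ht, e⟩ := exists_mul_out _ g z.2
    rw [← mul_smul, e, mul_smul]
    exact glue_smul hl _ (glue_zpow hl (k4 _) ht)
  have hcof : ∀ j, glue_Sim (ϖ ^ (M - c)) (D j * cof s D j) (∏ z : Tr s, z.2.out • D z.1) :=
    fun j => by
      obtain ⟨t, ht⟩ := glue_zpow hl (k4 j) (out_one_mem _)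
      refine glue_symm (fun t => hun _ t hK) ⟨t, ?_⟩
      rw [← Finset.mul_prod_erase _ _ (Finset.mem_univ ⟨j, ((1 : G) : G ⧸ _)⟩), ← cof_eq, ht]
      ring
  obtain ⟨f, hfd⟩ : ∃ f, f = ∏ z : Tr s, z.2.out • D z.1 := ⟨_, rfl⟩
  rw [← hfd] at hf hcof
  choose tf htf using hf
  choose tc htc using hcof
  -- reduction modulo `ϖ ^ (M - c)`
  let π := Ideal.Quotient.mk (Ideal.span {ϖ ^ (M - c)})
  have hπ : ∀ {x y}, π x = π y ↔ ϖ ^ (M - c) ∣ x - y :=
    Ideal.Quotient.eq.trans Ideal.mem_span_singleton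
  obtain ⟨κ, hκ⟩ : ∃ κ : C →+* B ⧸ Ideal.span {ϖ ^ (M - c)}, ∀ b, κ (red b) = π b :=
    ⟨red.liftOfSurjective hs ⟨π, fun x hx => hπ.2 (by
      simpa using (pow_dvd_pow ϖ (Nat.sub_le M c)).trans ((hker x).1 hx))⟩,
      fun b => RingHom.liftOfRightInverse_comp_apply _ _ _ _ b⟩
  have L0 : ∀ {a b}, κ (r a) = π b ↔ ϖ ^ (M - c) ∣ b - lf a := by
    intro a b; rw [← hlf, hκ, eq_comm, hπ]
  have L1 : ∀ (g : G) {a b}, κ (r a) = π b → κ (r (g • a)) = π (g • b) := fun g a b h => by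
    obtain ⟨t, ht⟩ := L0.1 h
    rw [hsm g _ _ (hlf a).symm, hκ, eq_comm, hπ]
    exact ⟨g • t, by rw [← smul_sub, ht, smul_mul', hl]⟩
  have L2 : ∀ t, π (1 + ϖ ^ (M - c) * t) = 1 := fun t => (hπ (y := 1)).2 (by simp)
  have L3 : ∀ j, κ (r (cof s d j)) = π (cof s D j) := fun j => by
    rw [cof_eq, cof_eq, map_prod, map_prod, map_prod]
    exact Finset.prod_congr rfl fun z _ => L1 _ (L0.2 (k2 _))
  let ρ : J → B := fun j => (1 + ϖ ^ (M - c) * tc j) *
    (Q j * ∏ i ∈ Finset.range (orderOf (s j) - 1), s j ^ (i + 1) • cof s D j)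
  have L4 : ∀ j, κ (r (q j * cof s d j ^ (orderOf (s j) - 1))) = π (ρ j) := fun j => by
    rw [map_mul π, L2, one_mul, map_mul, map_mul, map_mul, L0.2 (k3 j), map_prod, map_pow, map_pow,
      Finset.prod_eq_pow_card (b := κ (r (cof s d j))), Finset.card_range]
    intro i _
    rw [← L1 _ (L3 j), smul_eq_of_mem_zpowers (P.inv_cof j) _ (pow_mem (Subgroup.mem_zpowers _) _)]
  have hΦ : ∀ j, D j * Q j * ∏ i ∈ Finset.range (orderOf (s j)), s j ^ i • cof s D j = f * ρ j :=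
    fun j => by
      conv_lhs => rw [← Nat.sub_add_cancel (hn j), Finset.prod_range_succ', pow_zero, one_smul]
      simp only [ρ]
      rw [← mul_assoc f, ← htc]
      ring
  obtain ⟨t, ht⟩ : ϖ ^ (M - c) ∣ ∑ j, ∑ x : G ⧸ Subgroup.zpowers (s j),
      (1 + ϖ ^ (M - c) * tf x.out) * x.out • ρ j - ϖ ^ e := by
    rw [← hπ, ← hκ (ϖ ^ e), map_pow, ← hw, ← map_pow, ← P.sum, map_sum, map_sum, map_sum]
    refine Finset.sum_congr rfl fun j _ => ?_
    rw [finsum_eq_sum_of_fintype, map_sum, map_sum, map_sum]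
    exact Finset.sum_congr rfl fun x _ => by rw [map_mul, L2, one_mul, L1 _ (L4 j)]
  refine ⟨f, 1 + ϖ ^ (M - c - e) * t, fun j => f * ρ j, ?_, hun _ _ (by omega),
    fun g => ⟨_, hun _ (tf g) hK, by rw [htf, mul_comm]⟩, fun j => ?_, fun j => dvd_mul_right _ _, ?_⟩
  · rw [hfd]
    refine Finset.prod_ne_zero_iff.2 fun z _ h => P.ndvd z.1 (hdv _ _ (hlf _).symm ?_)
    have := (dvd_pow_self ϖ hK.ne').trans (k2 z.1)
    rwa [(smul_eq_zero_iff_eq _).1 h, zero_sub, dvd_neg] at this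
  · beta_reduce
    rw [← hΦ, smul_mul', k1, glue_norm, mul_assoc]
  · have e1 : ϖ ^ (M - c) = ϖ ^ e * ϖ ^ (M - c - e) := by rw [← pow_add]; congr 1; omega
    rw [mul_assoc, mul_add, mul_one, ← mul_assoc, ← e1, ← ht, add_sub_cancel, Finset.mul_sum]
    refine Finset.sum_congr rfl fun j _ => ?_
    rw [finsum_eq_sum_of_fintype, Finset.mul_sum]
    exact Finset.sum_congr rfl fun x _ => by rw [smul_mul', htf, mul_assoc]

end

/-! Step CUT. -/

section

open PowerSeries IsLocalRing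

theorem cut_smul_dvd {G B : Type} [Group G] [CommRing B] [MulSemiringAction G B] {ϖ a : B}
    (h : ∀ g : G, g • ϖ = ϖ) (N : ℕ) (g : G) (ha : ϖ ^ N ∣ a) : ϖ ^ N ∣ g • a := by
  obtain ⟨t, rfl⟩ := ha
  rw [smul_mul', smul_pow', h]
  exact dvd_mul_right _ _

theorem cut_unit {G B : Type} [Group G] [CommRing B] [MulSemiringAction G B] {U : B}
    (hU : IsUnit U) (g : G) : IsUnit (g • U) :=
  hU.map (MulSemiringAction.toRingHom G B g)

theorem p_CUT (hTR : S_TR) :
    S_CUT := by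
  intro G B J _ _ _ _ _ _ ϖ hϖ hinv s ξ Φ f U e M N hN hf hU hgf hΦ hdvd hsum y ψ γ hy hψ hψs
  classical
  let _ : ∀ j, Fintype (G ⧸ Subgroup.zpowers (s j)) := fun j => Fintype.ofFinite _
  simp only [finsum_eq_sum_of_fintype] at hsum
  set m : J → G → B := fun j a => Φ j * ψ j a with hm
  have hms : ∀ j a b, s j • (m j b - m j a) = m j (s j * b) - m j (s j * a) := fun j a b => by
    simp only [hm, smul_sub, smul_mul', hΦ, hψs]
    ring
  have hcoc : ∀ j h g, cor (Subgroup.zpowers (s j)) (m j) (h * g) =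
      cor (Subgroup.zpowers (s j)) (m j) h + h • cor (Subgroup.zpowers (s j)) (m j) g :=
    fun j => (hTR G B (m j)).1 _ ((hTR G B (m j)).2 (s j) (hms j))
  set E : G → B := fun g => ∑ j, cor (Subgroup.zpowers (s j)) (m j) g with hE
  have hE1 : E 1 = 0 := by
    simp only [hE, cor_eq, mul_one, sub_self, smul_zero, Finset.sum_const_zero]
  have hEc : ∀ h g, E (h * g) = E h + h • E g := fun h g => by
    simp only [hE, hcoc, Finset.sum_add_distrib, Finset.smul_sum]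
  have hkey : ∀ g, f * ϖ ^ N ∣ E g - f * ϖ ^ e * U * (ϖ ^ M * y g) := fun g => by
    rw [← hsum, hE, Finset.sum_mul, ← Finset.sum_sub_distrib]
    refine Finset.dvd_sum fun j _ => ?_
    rw [cor_eq, Finset.sum_mul, ← Finset.sum_sub_distrib]
    refine Finset.dvd_sum fun x _ => ?_
    have h1 : f ∣ x.out • Φ j := by
      obtain ⟨a, ha⟩ := hdvd j
      obtain ⟨u, -, hu⟩ := hgf x.out
      rw [ha, smul_mul', hu]
      exact ⟨u * x.out • a, by ring⟩
    have h2 : ϖ ^ N ∣ ψ j (x.out⁻¹ * g) - ψ j x.out⁻¹ - x.out⁻¹ • (ϖ ^ M * y g) := by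
      have := ((hψ j (x.out⁻¹ * g)).sub (hψ j x.out⁻¹)).add (hy x.out⁻¹ g)
      convert this using 1
      ring
    have h3 := cut_smul_dvd hinv N x.out h2
    rw [smul_sub, smul_inv_smul] at h3
    have h4 := mul_dvd_mul h1 h3
    convert h4 using 1
    simp only [hm, smul_sub, smul_mul']
    ring
  obtain ⟨k, rfl⟩ := Nat.exists_eq_add_of_lt hN
  obtain ⟨V, hV⟩ := hU.exists_right_inv
  choose t ht using hkey
  have hEq : ∀ g, E g = f * ϖ ^ (M + e) * (U * (y g + ϖ * (V * ϖ ^ k * t g))) := fun g => by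
    have h1 := ht g
    linear_combination h1 - f * ϖ ^ (M + e + k + 1) * t g * hV
  have hne : f * ϖ ^ (M + e) ≠ 0 := mul_ne_zero hf (pow_ne_zero _ hϖ)
  refine ⟨fun g => V * ϖ ^ k * t g, ?_, fun h g => ?_⟩
  · have h1 := hEq 1
    rw [hE1] at h1
    exact (mul_eq_zero.1 ((mul_eq_zero.1 h1.symm).resolve_left hne)).resolve_left hU.ne_zero
  · obtain ⟨u, hu, huf⟩ := hgf h
    have h1 := hEc h g
    rw [hEq, hEq, hEq g, smul_mul', smul_mul', smul_mul', smul_pow', hinv, huf] at h1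
    have h2 : u * h • U * h • (y g + ϖ * (V * ϖ ^ k * t g)) =
        U * ((y (h * g) + ϖ * (V * ϖ ^ k * t (h * g))) - (y h + ϖ * (V * ϖ ^ k * t h))) := by
      refine mul_left_cancel₀ hne ?_
      linear_combination -h1
    rw [← Ideal.unit_mul_mem_iff_mem _ (hu.mul (cut_unit hU h)), h2]
    exact Ideal.mul_mem_left _ _ (Ideal.sub_mem _ (Ideal.subset_span ⟨h * g, rfl⟩)
      (Ideal.subset_span ⟨h, rfl⟩))

end

end Pool.Agent.P.MP_41a2b4_ag.W
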