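import Pool.Agent.P.MP_41a2b4_ag.W.Iface

set_option autoImplicit false

namespace Pool.Agent.P.MP_41a2b4_ag.W

/-! Step QUO. -/

section

open PowerSeries IsLocalRing

theorem p_QUO (hFIX : S_FIX) (hCMP : S_CMP) (hEVU : S_EVU) (hEVE : S_EVE) :
    S_QUO := by
  classical
  intro G R _ _ _ m hm ϖ hϖ α ρ hα h1 hη
  obtain ⟨cB, cC⟩ := (hCMP R).1 m hm
  obtain ⟨u1, u2, u3, u4, u5⟩ := hEVU R R⟦X⟧ (nb1 m)
  have hC : ∀ r ∈ m, C r ∈ nb1 m := fun r hr => by simpa [nb1] using hr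
  have hX : (X : R⟦X⟧) ∈ nb1 m := by simp [nb1]
  have aC : ∀ (φ : MvPowerSeries G R →ₐ[R] R⟦X⟧) (r : R), φ (MvPowerSeries.C r) = C r :=
    fun φ r => φ.commutes r
  have cong : ∀ (φ ψ : MvPowerSeries G R →ₐ[R] R⟦X⟧) (n : ℕ), (∀ i, φ (.X i) ∈ nb1 m) →
      (∀ i, ψ (.X i) ∈ nb1 m) → (∀ i, φ (.X i) - ψ (.X i) ∈ nb1 m ^ n) → ∀ f,
      -(C ϖ * φ f) - -(C ϖ * ψ f) ∈ nb1 m ^ (n + 1) := fun φ ψ n a b c f => by
    rw [neg_sub_neg, ← mul_sub, pow_succ', ← neg_sub, mul_neg]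
    exact neg_mem (Ideal.mul_mem_mul (hC ϖ hϖ) (u1 G φ ψ n
      (fun r => (aC φ r).trans (aC ψ r).symm) a b c f))
  have kill : ∀ (φ : MvPowerSeries G R →ₐ[R] R⟦X⟧) g, g ≠ 1 →
      (φ (yv R g + MvPowerSeries.C ϖ * ρ g) = 0 ↔ φ (.X g) = -(C ϖ * φ (ρ g))) := fun φ g hg => by
    rw [map_add, map_mul, aC, yv, if_neg hg, add_eq_zero_iff_eq_neg]
  have uni : ∀ φ ψ : MvPowerSeries G R →ₐ[R] R⟦X⟧, (∀ i, φ (.X i) ∈ nb1 m) →
      (∀ i, ψ (.X i) ∈ nb1 m) → (∀ g, φ (yv R g + MvPowerSeries.C ϖ * ρ g) = 0) →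
      (∀ g, ψ (yv R g + MvPowerSeries.C ϖ * ρ g) = 0) → φ (.X 1) = ψ (.X 1) → ∀ f, φ f = ψ f := by
    intro φ ψ a b c d e
    have k : ∀ n i, φ (.X i) - ψ (.X i) ∈ nb1 m ^ n := fun n => by
      induction n with
      | zero => simp
      | succ n ih =>
        intro i
        by_cases hi : i = 1
        · rw [hi, e, sub_self]; exact zero_mem _
        · rw [(kill φ i hi).1 (c i), (kill ψ i hi).1 (d i)]
          exact cong φ ψ n a b ih _
    refine RingHom.congr_fun (u2 G φ ψ cC.toIsHausdorff (fun r => (aC φ r).trans (aC ψ r).symm) a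
      fun i => sub_eq_zero.1 (cC.toIsHausdorff.haus _ fun n => ?_))
    rw [SModEq.zero, smul_eq_mul, Ideal.mul_top]
    exact k n i
  choose ev hev using (hEVE R R⟦X⟧ (nb1 m) cC).2.2.1 G
  let Ψ : (G → R⟦X⟧) → G → R⟦X⟧ := fun x g =>
    if g = 1 then X else if h : ∀ i, x i ∈ nb1 m then -(C ϖ * ev x h (ρ g)) else 0
  obtain ⟨x, hx, hΨ⟩ := (hFIX R⟦X⟧ G (nb1 m) Ψ fun n x y a b c i => by
    by_cases hi : i = 1
    · simp only [Ψ, if_pos hi, sub_self, zero_mem]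
    · simp only [Ψ, if_neg hi, dif_pos a, dif_pos b]
      exact cong _ _ n (by simpa only [hev] using a) (by simpa only [hev] using b)
        (by simpa only [hev] using c) _).2 cC fun i => by
    simp only [Ψ]
    split_ifs
    exacts [hX, neg_mem (Ideal.mul_mem_right _ _ (hC ϖ hϖ)), zero_mem _]
  set q := ev x hx
  have q0 : ∀ g, q (.X g) ∈ nb1 m := fun g => by rw [hev]; exact hx g
  have q1 : q (.X 1) = X := by rw [hev, ← hΨ]; exact if_pos rfl
  have q2 : ∀ g, q (yv R g + MvPowerSeries.C ϖ * ρ g) = 0 := fun g => by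
    by_cases hg : g = 1
    · rw [hg, h1, map_zero]
    · rw [kill q g hg, hev, ← congrFun hΨ g]
      exact (if_neg hg).trans (dif_pos hx)
  obtain ⟨ι, hι⟩ := (hEVE R (MvPowerSeries G R) (nb G m) (cB G)).2.2.2 (.X 1) (by simp [nb])
  have qι : ∀ f, q (ι f) = f := RingHom.congr_fun (u3 (q.comp ι) (RingHom.id _) cC.toIsHausdorff
    (fun r => (q.comp ι).commutes r) (by simpa [hι] using q0 1) (by simpa [hι] using q1))
  have qα : ∀ h g, q (α h (.X g)) ∈ nb1 m := fun h g =>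
    u4 G q m (fun r hr => (aC q r).symm ▸ hC r hr) q0 _ (hα h g)
  let β : G → R⟦X⟧ →ₐ[R] R⟦X⟧ := fun h => (q.comp (α h).toAlgHom).comp ι
  have βX : ∀ h, β h X = q (α h (.X 1)) := fun h => by simp [β, hι]
  have key : ∀ h b, q (α h b) = β h (q b) := fun h => by
    refine uni (q.comp (α h).toAlgHom) ((β h).comp q) (qα h) (fun i => u5 (β h) m
      (fun r hr => ((β h).commutes r).symm ▸ hC r hr) ((βX h).symm ▸ qα h 1) _ (q0 i))
      (fun g => ?_) (fun g => by rw [AlgHom.comp_apply, q2, map_zero])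
      (by rw [AlgHom.comp_apply (β h), q1, βX]; rfl)
    exact (Ideal.span_le.2 (Set.range_subset_iff.2 q2) : _ ≤ RingHom.ker q) (hη h g)
  let γ : G →* (R⟦X⟧ →ₐ[R] R⟦X⟧) :=
    { toFun := β
      map_one' := AlgHom.ext fun f => by rw [← qι f, ← key, map_one]; rfl
      map_mul' := fun g h => AlgHom.ext fun f => by
        rw [← qι f, AlgHom.mul_apply, ← key, ← key, ← key, map_mul]; rfl }
  exact ⟨q, (AlgEquiv.algHomUnitsEquiv R R⟦X⟧).toMonoidHom.comp γ.toHomUnits, q1, q0, key⟩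

end

/-! Step SP. -/

section

open PowerSeries IsLocalRing

theorem sp_haus (k : Type) [CommRing k] : IsHausdorff (Ideal.span {(X : k⟦X⟧)}) k⟦X⟧ := by
  refine ⟨fun f hf => PowerSeries.ext fun n => ?_⟩
  have := hf (n + 1)
  rw [SModEq.zero, smul_eq_mul, Ideal.mul_top, Ideal.span_singleton_pow, Ideal.mem_span_singleton,
    X_pow_dvd_iff] at this
  simpa using this n n.lt_succ_self

theorem p_SP (hEVU : S_EVU) (hIMP : S_IMP) :
    S_SP := by
  intro G R k _ _ _ _ m π hπ ϖ hϖ M hM c x q β i hc hx ex q1 hq hβ hi ei g f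
  have hI : ∀ f : k⟦X⟧, constantCoeff f = 0 → f ∈ Ideal.span {(X : k⟦X⟧)} := fun f h =>
    Ideal.mem_span_singleton.2 (X_dvd_iff.2 h)
  let φ : MvPowerSeries G R →+* k⟦X⟧ := (PowerSeries.map π).comp q.toRingHom
  let ρ : R →+* k⟦X⟧ := PowerSeries.C.comp π
  have hφ : ∀ r, φ (MvPowerSeries.C r) = ρ r := fun r => by
    have : q (MvPowerSeries.C r) = PowerSeries.C r := q.commutes r
    change PowerSeries.map π (q _) = _
    rw [this, map_C]
    rfl
  have hρ : ∀ r ∈ m, ρ r = 0 := fun r hr => by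
    change PowerSeries.C (π r) = 0
    rw [hπ r hr, map_zero]
  have h1 : ∀ g, φ (x g) ∈ Ideal.span {(X : k⟦X⟧)} := fun g =>
    (hEVU R k⟦X⟧ _).2.2.2.1 G φ m (fun r hr => by rw [hφ, hρ r hr]; exact zero_mem _)
      (fun a => hI _ (hπ _ (hq a))) _ (hx g)
  have h2 : (fun g => φ (x g)) = fun g => i g X := by
    refine (hIMP R k⟦X⟧ G ρ _ c (fun _ => X) fun g a ha => ?_).1 (sp_haus k) _ _ h1
      (fun g => hI _ (hi g)) (fun g => ?_) fun g => ?_
    · rw [hρ ((c g).coeff a) (hc g a ha)]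
      exact zero_mem _
    · have e1 : φ (MvPowerSeries.X 1) = X := by
        change PowerSeries.map π (q _) = _
        rw [q1, map_X]
      have e2 : φ.comp (algebraMap R (MvPowerSeries G R)) = ρ := RingHom.ext hφ
      conv_lhs => rw [ex g]
      rw [map_add, map_add, map_mul, map_pow, hφ, hρ _ hϖ, zero_pow hM.ne', zero_mul, add_zero, e1,
        MvPolynomial.aeval_def, MvPolynomial.eval₂_comp_left, e2]
      rfl
    · conv_lhs => rw [ei g]
      rw [MvPolynomial.aeval_def, MvPolynomial.eval₂_map]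
      rfl
  have h3 : PowerSeries.map π (β g X) = i g X := by
    rw [hβ]
    exact congrFun h2 g
  refine DFunLike.congr_fun ((hEVU R k⟦X⟧ _).2.2.1
    ((PowerSeries.map π).comp (β g).toAlgHom.toRingHom)
    ((i g).toAlgHom.toRingHom.comp (PowerSeries.map π)) (sp_haus k) (fun r => ?_) ?_ ?_) f
  · have e1 : β g (PowerSeries.C r) = PowerSeries.C r := (β g).commutes r
    have e2 : i g (PowerSeries.C (π r)) = PowerSeries.C (π r) := (i g).commutes (π r)
    change PowerSeries.map π (β g _) = i g (PowerSeries.map π _)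
    rw [e1, map_C, e2]
  · change PowerSeries.map π (β g X) ∈ _
    rw [h3]
    exact hI _ (hi g)
  · change PowerSeries.map π (β g X) = i g (PowerSeries.map π X)
    rw [h3, map_X]

end

/-! Step MAIN. -/

section

open PowerSeries IsLocalRing

attribute [-instance] PowerSeries.algebraPowerSeries MvPowerSeries.algebraMvPowerSeries

theorem main_aeval {G R B : Type} [Group G] [CommRing R] [CommRing B] [Algebra R B]
    (τ : B ≃ₐ[R] B) (x : G → B) (h : G) (hx : ∀ g, τ (x g) = x (h * g)) (P : MvPolynomial G R) :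
    τ (MvPolynomial.aeval x P) = MvPolynomial.aeval x (MvPolynomial.rename (h * ·) P) := by
  rw [MvPolynomial.aeval_rename]
  refine (MvPolynomial.comp_aeval_apply x (τ : B →ₐ[R] B) P).trans ?_
  congr 2
  funext g
  exact hx g

theorem p_MAIN (hCP : S_CP) (hPU1 : S_PU1) (hPU2 : S_PU2) (hRING : S_RING) (hTW : S_TW)
    (hLIFT : S_LIFT) (hTUBE : S_TUBE) (hEQV : S_EQV) (hRED : S_RED) (hGLUE : S_GLUE)
    (hCUT : S_CUT) (hQUO : S_QUO) (hSP : S_SP) (hCMP : S_CMP) :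
    S_MAIN := by
  intro p _ k _ _ _ G _ _ hG
  classical
  let := Fintype.ofFinite G
  obtain ⟨c₀, x₀, α₀, i, hcoc, hsm, hx0, hxe, hα₀, hi, hinj, hne, hsplit, hcyc⟩ := hCP p k G hG
  let act0 : MulSemiringAction G k⟦X⟧⟦X⟧ := MulSemiringAction.compHom _ α₀
  have hs0 : ∀ (g : G) (a : k⟦X⟧⟦X⟧), g • a = α₀ g a := fun _ _ => rfl
  have hmax : maximalIdeal k⟦X⟧ = Ideal.span {X} := maximalIdeal_eq_span_X
  have hcL : IsAdicComplete (maximalIdeal k⟦X⟧) k⟦X⟧ := hmax ▸ inferInstance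
  have hC0 : ∀ (g : G) (r : k⟦X⟧), g • (PowerSeries.C r : k⟦X⟧⟦X⟧) = PowerSeries.C r :=
    fun g r => (α₀ g).commutes r
  obtain ⟨J, _, s, d, j₀, h1, h2, h3, h4, h5, h6⟩ := hPU1 G k⟦X⟧ X X_irreducible hcL hC0 (by
    obtain ⟨r, w, u, hu, hw, e⟩ := hsplit
    refine ⟨r, w, u, hu, fun i => ?_, ?_⟩
    · rw [hmax, Ideal.mem_span_singleton, X_dvd_iff]; exact hw i
    · rw [← e, dif]
      exact Finset.prod_congr rfl fun g _ => by rw [hs0, hα₀])
    (fun ev H hH => hcyc ev H fun h hh => by rw [← hH h hh, hs0, hα₀])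
  obtain ⟨q, β, c, e, hPU⟩ := hPU2 G k⟦X⟧⟦X⟧ J (PowerSeries.C X) X (fun g => hC0 g X)
    (fun g hg => by rw [hs0, hα₀]; exact hne g hg) s d j₀ h1 h2 h3 h4 h5 h6
  obtain ⟨a, ha⟩ := IsPGroup.iff_card.1 hG
  obtain ⟨M, hM⟩ : ∃ M, M = 2 * c + e + 1 := ⟨_, rfl⟩
  obtain ⟨N, hN⟩ : ∃ N, N = M + e + 1 := ⟨_, rfl⟩
  obtain ⟨R, _, _, _, _, _, ϖ, ζ, π, θ, hcR, hϖ, hζ, hζ1, hWinj, hWπ, hπs, hπk, hθX, hθ⟩ :=
    hRING p k a N (by omega)
  obtain ⟨c₁, hc1, hcθ, hcπ, hcc⟩ := hLIFT G k⟦X⟧ R k (ϖ ^ N) θ constantCoeff π hθ c₀ hcoc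
  have hcR' : IsAdicComplete (Ideal.span {ϖ}) R := hϖ.maximalIdeal_eq ▸ hcR
  have hϖm : ϖ ∈ Ideal.span {ϖ} := Ideal.mem_span_singleton_self ϖ
  have hsm1 : Small (RingHom.id R) (Ideal.span {ϖ}) c₁ := fun g m hm => by
    have h1 := congrArg (MvPolynomial.coeff m) (hcπ g)
    rw [MvPolynomial.coeff_map, MvPolynomial.coeff_map, (Ideal.mem_bot).1 (hsm g m hm)] at h1
    exact Ideal.mem_span_singleton.2 ((hπk _).1 h1)
  obtain ⟨x, α, hxm, hx1, hxe1, hαx, hαX⟩ :=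
    hTUBE G R _ hcR' ϖ hϖm hϖ.ne_zero M N (by omega) c₁ hc1 hsm1 hcc
  have hle : Ideal.span {ϖ ^ N} ≤ Ideal.span {ϖ ^ M} :=
    Ideal.span_singleton_le_span_singleton.2 (pow_dvd_pow _ (by omega))
  let θM : k⟦X⟧ →+* R ⧸ Ideal.span {ϖ ^ M} := (Ideal.Quotient.factor hle).comp θ
  have hθM : ∀ f r, θM f = Ideal.Quotient.mk _ r → π r = constantCoeff f := fun f r h => by
    obtain ⟨r', hr'⟩ := Ideal.Quotient.mk_surjective (θ f)
    have h1 : Ideal.Quotient.mk (Ideal.span {ϖ ^ M}) r' = Ideal.Quotient.mk _ r := by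
      rw [← h]; simp [θM, ← hr']
    rw [Ideal.Quotient.eq, Ideal.mem_span_singleton] at h1
    have h2 := (hπk _).2 ((dvd_pow_self ϖ (by omega)).trans h1)
    rw [map_sub, sub_eq_zero] at h2
    rw [← h2, hθ f r' hr'.symm]
  have hθMX : θM X = Ideal.Quotient.mk _ ϖ := by simp [θM, hθX]
  have hα1 : ∀ g, α g (MvPowerSeries.X 1) = x g := fun g => by rw [← hx1, hαx, mul_one]
  have heqv := hEQV G k⟦X⟧ R X ϖ M θM hθMX c₀ x₀ α₀
    (fun g m hm => by
      rw [Ideal.mem_span_singleton, X_dvd_iff]; exact (Ideal.mem_bot).1 (hsm g m hm))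
    (fun g => by
      rw [nb1, Ideal.mem_comap, Ideal.mem_span_singleton, X_dvd_iff]; exact hx0 g)
    hxe hα₀ c₁ x α (fun g => by
      rw [← Ideal.Quotient.factor_comp_mk hle, ← MvPolynomial.map_map, hcθ, MvPolynomial.map_map])
    hxm hxe1 hα1
  let act1 : MulSemiringAction G (MvPowerSeries G R) := MulSemiringAction.compHom _ α
  have hs1 : ∀ (g : G) (b : MvPowerSeries G R), g • b = α g b := fun _ _ => rfl
  have hC1 : ∀ (g : G) (r : R), g • (MvPowerSeries.C r : MvPowerSeries G R) = MvPowerSeries.C r :=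
    fun g r => (α g).commutes r
  obtain ⟨hr1, hr2, hr3⟩ := hRED G R
  have hπϖ : π ϖ = 0 := (hπk _).2 dvd_rfl
  have hord : ∀ j, ∃ t, p ^ a = t * orderOf (s j) := fun j =>
    exists_eq_mul_left_of_dvd (ha ▸ orderOf_dvd_natCard (s j))
  choose t ht using hord
  have hprim : ∀ j, IsPrimitiveRoot (ζ ^ t j) (orderOf (s j)) := fun j =>
    hζ.pow (pow_pos (Fact.out : p.Prime).pos a) (ht j)
  have hξ1 : ∀ j, ϖ ^ N ∣ ζ ^ t j - 1 := fun j =>
    hζ1.trans (by simpa using sub_dvd_pow_sub_pow ζ 1 (t j))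
  have hprime := hr2 ϖ hϖ.prime
  have : IsDomain (MvPowerSeries G R) := NoZeroDivisors.to_isDomain _
  obtain ⟨f, U, Φ, hf, hU, hfu, hΦ, hfΦ, hsum⟩ := hGLUE G k⟦X⟧⟦X⟧ (MvPowerSeries G R)
    (MvPowerSeries G (R ⧸ Ideal.span {ϖ ^ M})) J _ s d q β c e hPU (MvPowerSeries.C ϖ) hprime
    (fun g => hC1 g ϖ) ((hCMP R).2.1 ϖ hcR' G) M (by omega) (by omega)
    (MvPowerSeries.map (Ideal.Quotient.mk _))
    ((PowerSeries.toMvPowerSeries (1 : G)).toRingHom.comp (PowerSeries.map θM))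
    (hr1 _).1 (fun b => by rw [(hr1 _).2, map_pow]) (fun g a b h => heqv g a b h)
    (by simp [hθMX, toMvPowerSeries_C])
    (fun a b h hb => hr3 k _ ϖ π θM 1 hπϖ hθM a b h hb)
    (fun j => MvPowerSeries.C (ζ ^ t j)) (fun g j => hC1 g _)
    (fun j => by rw [← map_pow, (hprim j).pow_eq_one, map_one])
    (fun j => by
      rw [← map_pow, ← map_one MvPowerSeries.C, ← map_sub]
      exact map_dvd _ ((pow_dvd_pow _ (by omega)).trans (hξ1 j)))
  let F : G → MvPolynomial G R := fun g => MvPolynomial.X g - MvPolynomial.X 1 - c₁ g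
  have hF : ∀ h g, MvPolynomial.C (ϖ ^ N) ∣ F (h * g) - F h - MvPolynomial.rename (h * ·) (F g) :=
    fun h g => by
      refine (dvd_neg.2 (hcc h g)).trans (dvd_of_eq ?_)
      simp only [F, map_sub, MvPolynomial.rename_X, mul_one]
      ring
  have hFx : ∀ g, MvPolynomial.aeval x (F g) = MvPowerSeries.C ϖ ^ M * yv R g := fun g => by
    simp only [F, map_sub, MvPolynomial.aeval_X, hx1]
    rw [hxe1 g]; ring
  have hdv : ∀ P : MvPolynomial G R, MvPolynomial.C (ϖ ^ N) ∣ P →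
      MvPowerSeries.C ϖ ^ N ∣ MvPolynomial.aeval x P := fun P hP => by
    have := map_dvd (MvPolynomial.aeval x) hP
    rwa [MvPolynomial.aeval_C, map_pow] at this
  have hae : ∀ (h : G) P, h • MvPolynomial.aeval x P =
      MvPolynomial.aeval x (MvPolynomial.rename (h * ·) P) := fun h P =>
    main_aeval (α h) x h (hαx h) P
  choose φ γ hφ1 hφ2 using fun j => hTW G R (s j) (ζ ^ t j) (ϖ ^ N) (hprim j)
    (pow_ne_zero _ hϖ.ne_zero) (hξ1 j) F hF
  obtain ⟨ρ, hρ1, hρ⟩ := hCUT G (MvPowerSeries G R) J (MvPowerSeries.C ϖ) hprime.ne_zero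
    (fun g => hC1 g ϖ) s (fun j => MvPowerSeries.C (ζ ^ t j)) Φ f U e M N (by omega) hf hU hfu hΦ
    hfΦ hsum (yv R) (fun j g => MvPolynomial.aeval x (φ j g)) (fun j => MvPolynomial.aeval x (γ j))
    (fun h g => by
      rw [← hFx, ← hFx, ← hFx, hae, ← map_sub, ← map_sub]; exact hdv _ (hF h g))
    (fun j g => by rw [← hFx, ← map_sub]; exact hdv _ (hφ1 j g))
    (fun j g => by
      rw [hφ2, map_add, map_mul, MvPolynomial.aeval_C, hae]; rfl)
  obtain ⟨Q, jj, hQ1, hQm, hQ⟩ := hQUO G R _ hcR' ϖ hϖm α ρ hαX hρ1 hρ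
  refine ⟨R, inferInstance, inferInstance, inferInstance, inferInstance, inferInstance, π, i, jj,
    hWinj, hWπ, hπs, hinj, ?_⟩
  refine hSP G R k (Ideal.span {ϖ}) π (fun r hr => (hπk r).2 (Ideal.mem_span_singleton.1 hr)) ϖ
    hϖm M (by omega) c₁ x Q jj i hsm1 hxm hxe1 hQ1 hQm (fun g => by rw [← hQ1, ← hQ, hα1])
    (fun g => ?_) (fun g => ?_)
  · rw [hi, ← coeff_zero_eq_constantCoeff_apply, coeff_map, coeff_zero_eq_constantCoeff_apply]
    exact hx0 g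
  · rw [hcπ, hi, hxe g, map_add, map_X]
    congr 1
    simp only [hi, MvPolynomial.aeval_def, MvPolynomial.eval₂_map]
    rw [MvPolynomial.eval₂_comp_left]
    congr 1
    ext1 r
    simp [PowerSeries.algebraMap_apply]

end

end Pool.Agent.P.MP_41a2b4_ag.W
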