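import Pool.Agent.P.MP_41a2b4_ag.W.B1
import Pool.Agent.P.MP_41a2b4_ag.W.B2
import Pool.Agent.P.MP_41a2b4_ag.W.B3
import Pool.Agent.P.MP_41a2b4_ag.W.B4
import Pool.Agent.P.MP_41a2b4_ag.W.B5
import Pool.Agent.P.MP_41a2b4_ag.W.B6
import Pool.Agent.P.MP_41a2b4_ag.W.B7

/-! Assembly. -/

set_option autoImplicit false

namespace Pool.Agent.P.MP_41a2b4_ag.W

theorem all_CHI : S_CHI := p_CHI
theorem all_BC : S_BC := p_BC
theorem all_TR : S_TR := p_TR
theorem all_INT : S_INT := p_INT all_TR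
theorem all_TRD : S_TRD := p_TRD
theorem all_RANK : S_RANK := p_RANK
theorem all_GENC : S_GENC := p_GENC all_CHI all_BC all_INT all_TRD all_RANK
theorem all_CMP : S_CMP := p_CMP
theorem all_EVU : S_EVU := p_EVU
theorem all_EVE : S_EVE := p_EVE
theorem all_FIX : S_FIX := p_FIX
theorem all_IMP : S_IMP := p_IMP all_FIX
theorem all_CURVE : S_CURVE := p_CURVE all_CMP all_EVU all_EVE all_IMP
theorem all_SPEC : S_SPEC := p_SPEC all_CURVE all_EVU
theorem all_IND : S_IND := p_IND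
theorem all_CP0 : S_CP0 := p_CP0 all_CHI all_GENC all_SPEC all_IND all_CMP all_IMP all_CURVE
theorem all_ISO : S_ISO := p_ISO all_EVE
theorem all_SEP : S_SEP := p_SEP all_ISO
theorem all_SPL : S_SPL := p_SPL all_SEP
theorem all_WSP : S_WSP := p_WSP all_SPL
theorem all_CP : S_CP := p_CP all_CP0 all_WSP all_CMP all_EVU all_CURVE
theorem all_RED : S_RED := p_RED
theorem all_PU1 : S_PU1 := p_PU1 all_CMP all_EVE all_RED
theorem all_EUL : S_EUL := p_EUL
theorem all_PU2 : S_PU2 := p_PU2 all_EUL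
theorem all_RING : S_RING := p_RING all_CMP all_EVE
theorem all_TN : S_TN := p_TN
theorem all_TW : S_TW := p_TW all_TN
theorem all_LIFT : S_LIFT := p_LIFT
theorem all_TUBE : S_TUBE := p_TUBE all_CMP all_EVU all_EVE all_IMP
theorem all_EQV : S_EQV := p_EQV all_CMP all_EVU all_EVE all_IMP all_RED
theorem all_HEN : S_HEN := p_HEN all_FIX
theorem all_GLUE : S_GLUE := p_GLUE all_HEN
theorem all_CUT : S_CUT := p_CUT all_TR
theorem all_QUO : S_QUO := p_QUO all_FIX all_CMP all_EVU all_EVE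
theorem all_SP : S_SP := p_SP all_EVU all_IMP
theorem all_MAIN : S_MAIN :=
  p_MAIN all_CP all_PU1 all_PU2 all_RING all_TW all_LIFT all_TUBE all_EQV all_RED all_GLUE
    all_CUT all_QUO all_SP all_CMP

end Pool.Agent.P.MP_41a2b4_ag.W
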