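import Pool.Agent.P.MP_41a2b4_ag.W.Iface

set_option autoImplicit false

namespace Pool.Agent.P.MP_41a2b4_ag.W

/-! Step FIX. -/

section

open PowerSeries IsLocalRing

theorem fix_eq {S : Type} [CommRing S] {I : Ideal S} [IsHausdorff I S] {x y : S}
    (h : ∀ n, x - y ∈ I ^ n) : x = y := by
  refine IsHausdorff.eq_iff_smodEq (I := I) |>.2 fun n => ?_
  rw [SModEq.sub_mem, smul_eq_mul, Ideal.mul_top]
  exact h n

theorem fix_lim {S : Type} [CommRing S] {I : Ideal S} [IsPrecomplete I S] (f : ℕ → S)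
    (h : ∀ n, f (n + 1) - f n ∈ I ^ n) : ∃ L, ∀ n, L - f n ∈ I ^ n := by
  have h' : ∀ m n, m ≤ n → f n - f m ∈ I ^ m := by
    intro m n hmn
    induction n, hmn using Nat.le_induction with
    | base => simp
    | succ n hmn ih =>
      have := (I ^ m).add_mem (Ideal.pow_le_pow_right hmn (h n)) ih
      simpa using this
  obtain ⟨L, hL⟩ := IsPrecomplete.prec (inferInstance : IsPrecomplete I S) (f := f) (by
    intro m n hmn
    rw [SModEq.sub_mem, smul_eq_mul, Ideal.mul_top]
    simpa using (I ^ m).neg_mem (h' m n hmn))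
  refine ⟨L, fun n => ?_⟩
  have := hL n
  rw [SModEq.sub_mem, smul_eq_mul, Ideal.mul_top] at this
  simpa using (I ^ n).neg_mem this

theorem p_FIX :
    S_FIX := by
  intro C σ _ I Ψ h
  refine ⟨fun _ x y hx hy ex ey => ?_, fun _ h0 => ?_⟩
  · have : ∀ n i, x i - y i ∈ I ^ n := fun n => by
      induction n with
      | zero => simp
      | succ n ih => simpa [ex, ey] using h n x y hx hy ih
    exact funext fun i => fix_eq (I := I) fun n => this n i
  · have hI : ∀ x : σ → C, (∀ i, x i ∈ I) → ∀ i, Ψ x i ∈ I := fun x hx i => by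
      have := h 0 x 0 hx (fun _ => I.zero_mem) (by simp) i
      rw [zero_add, pow_one] at this
      simpa using I.add_mem this (h0 i)
    have hm : ∀ n i, Ψ^[n] 0 i ∈ I := fun n => by
      induction n with
      | zero => exact fun _ => I.zero_mem
      | succ n ih => rw [Function.iterate_succ_apply']; exact hI _ ih
    have hs : ∀ n i, Ψ^[n + 1] 0 i - Ψ^[n] 0 i ∈ I ^ n := fun n => by
      induction n with
      | zero => simp
      | succ n ih =>
        have := h n _ _ (hm _) (hm _) ih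
        rwa [← Function.iterate_succ_apply' Ψ, ← Function.iterate_succ_apply' Ψ] at this
    choose L hL using fun i => fix_lim (I := I) (fun n => Ψ^[n] 0 i) fun n => hs n i
    have hLI : ∀ i, L i ∈ I := fun i => by
      have := hL i 1
      rw [pow_one] at this
      simpa using I.add_mem this (hm 1 i)
    refine ⟨L, hLI, funext fun i => fix_eq (I := I) fun n => ?_⟩
    have h1 := h n _ _ hLI (hm n) (fun i => hL i n) i
    rw [← Function.iterate_succ_apply' Ψ] at h1
    simpa using Ideal.pow_le_pow_right (Nat.le_succ n) ((I ^ (n + 1)).sub_mem h1 (hL i (n + 1)))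

end

/-! Step CMP. -/

section

open PowerSeries IsLocalRing

section

variable {R σ : Type} [CommRing R]

theorem cmp_gen {J : Ideal (MvPowerSeries σ R)} {m : Ideal R} (hm : IsAdicComplete m R)
    (δ : (σ →₀ ℕ) → ℕ)
    (h : ∀ n f, f ∈ J ^ n ↔ ∀ d, MvPowerSeries.coeff d f ∈ m ^ (n - δ d)) :
    IsAdicComplete J (MvPowerSeries σ R) where
  haus' := fun x hx => by
    ext d
    refine hm.toIsHausdorff.haus _ fun n => ?_
    have := hx (n + δ d)
    rw [SModEq.zero, smul_eq_mul, Ideal.mul_top, h] at this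
    rw [SModEq.zero, smul_eq_mul, Ideal.mul_top]
    simpa using this d
  prec' := fun f hf => by
    have h1 : ∀ d, ∃ L : R, ∀ n, MvPowerSeries.coeff d (f (n + δ d)) ≡ L
        [SMOD (m ^ n • ⊤ : Submodule R R)] := fun d =>
      hm.toIsPrecomplete.prec fun {a b} hab => by
        have := hf (show a + δ d ≤ b + δ d by omega)
        rw [SModEq.sub_mem, smul_eq_mul, Ideal.mul_top, h] at this
        rw [SModEq.sub_mem, smul_eq_mul, Ideal.mul_top]
        simpa using this d
    choose L hL using h1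
    refine ⟨L, fun n => ?_⟩
    rw [SModEq.sub_mem, smul_eq_mul, Ideal.mul_top, h]
    intro d
    by_cases hi : δ d ≤ n
    · have := hL d (n - δ d)
      rw [Nat.sub_add_cancel hi, SModEq.sub_mem, smul_eq_mul, Ideal.mul_top] at this
      exact this
    · simp [Nat.sub_eq_zero_of_le (not_le.1 hi).le]

theorem cmp_dec [Fintype σ] (f : MvPowerSeries σ R) : ∃ g : σ → MvPowerSeries σ R,
    f = MvPowerSeries.C (MvPowerSeries.constantCoeff f) + ∑ i, MvPowerSeries.X i * g i ∧
      ∀ i d, MvPowerSeries.coeff d (g i) = MvPowerSeries.coeff (Finsupp.single i 1 + d) f ∨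
        MvPowerSeries.coeff d (g i) = 0 := by
  classical
  let o : (σ →₀ ℕ) → Option σ := fun m => if h : ∃ i, m i ≠ 0 then some h.choose else none
  let F : σ → MvPowerSeries σ R := fun i m => if o m = some i then MvPowerSeries.coeff m f else 0
  have hF : ∀ i m, MvPowerSeries.coeff m (F i) =
    if o m = some i then MvPowerSeries.coeff m f else 0 := fun _ _ => rfl
  have h : ∀ i, MvPowerSeries.X i ∣ F i := fun i => MvPowerSeries.X_dvd_iff.2 fun m hm => by
    rw [hF, if_neg]
    simp only [o]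
    split_ifs with h
    · exact fun e => h.choose_spec (Option.some.inj e ▸ hm)
    · exact fun e => by cases e
  choose g hg using h
  refine ⟨g, MvPowerSeries.ext fun m => ?_, fun i d => ?_⟩
  · simp only [← hg, map_add, map_sum, hF, MvPowerSeries.coeff_C]
    by_cases h : ∃ i, m i ≠ 0
    · rw [if_neg fun e => by simp [e] at h]
      simp [o, dif_pos h]
    · obtain rfl : m = 0 := Finsupp.ext fun i => not_not.1 fun e => h ⟨i, e⟩
      simp [o]
  · have := hF i (Finsupp.single i 1 + d)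
    rw [hg, MvPowerSeries.X_def, MvPowerSeries.coeff_add_monomial_mul, one_mul] at this
    rw [this]
    split_ifs <;> simp

theorem cmp_nb [Finite σ] (m : Ideal R) (n : ℕ) (f : MvPowerSeries σ R) :
    f ∈ nb σ m ^ n ↔ ∀ d, MvPowerSeries.coeff d f ∈ m ^ (n - d.degree) := by
  classical
  have := Fintype.ofFinite σ
  induction n generalizing f with
  | zero => simp
  | succ n ih =>
    constructor
    · intro h
      rw [pow_succ] at h
      refine Submodule.mul_induction_on h (fun a ha b hb i => ?_) (fun a b ha hb i => ?_)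
      · rw [MvPowerSeries.coeff_mul]
        refine Ideal.sum_mem _ fun x hx => ?_
        have hx' := Finset.HasAntidiagonal.mem_antidiagonal.1 hx
        have h1 := (ih a).1 ha x.1
        rcases eq_or_ne x.2 0 with h0 | h0
        · rw [h0, add_zero] at hx'
          rw [h0, ← hx']
          have := Ideal.mul_mem_mul h1 (show MvPowerSeries.coeff 0 b ∈ m from hb)
          rw [← pow_succ] at this
          exact Ideal.pow_le_pow_right (by omega) this
        · have h2 : x.2.degree ≠ 0 := fun e => h0 ((Finsupp.degree_eq_zero_iff _).1 e)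
          have h3 := congrArg Finsupp.degree hx'
          rw [map_add] at h3
          exact Ideal.mul_mem_right _ _ (Ideal.pow_le_pow_right (by omega) h1)
      · rw [map_add]
        exact Ideal.add_mem _ (ha i) (hb i)
    · intro h
      obtain ⟨g, e, hg⟩ := cmp_dec f
      rw [e]
      refine add_mem ?_ (Ideal.sum_mem _ fun i _ => ?_)
      · have := Ideal.mem_map_of_mem (MvPowerSeries.C : R →+* MvPowerSeries σ R) (h 0)
        rw [Ideal.map_pow, map_zero, Nat.sub_zero] at this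
        exact Ideal.pow_right_mono (Ideal.map_le_iff_le_comap.2 fun r hr => by
          simpa [nb] using hr) _ this
      · rw [pow_succ']
        refine Ideal.mul_mem_mul (by simp [nb]) ((ih _).2 fun d => ?_)
        rcases hg i d with e1 | e1 <;> rw [e1]
        · have := h (Finsupp.single i 1 + d)
          rwa [map_add, Finsupp.degree_single, add_comm 1, Nat.add_sub_add_right] at this
        · exact zero_mem _

theorem cmp_span (w : R) (n : ℕ) (f : MvPowerSeries σ R) :
    f ∈ Ideal.span {(MvPowerSeries.C w : MvPowerSeries σ R)} ^ n ↔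
      ∀ d, MvPowerSeries.coeff d f ∈ Ideal.span {w} ^ (n - 0) := by
  simp only [Ideal.span_singleton_pow, Ideal.mem_span_singleton, Nat.sub_zero, ← map_pow]
  refine ⟨fun ⟨g, e⟩ d => ⟨_, by rw [e, MvPowerSeries.coeff_C_mul]⟩, fun h => ?_⟩
  choose g hg using h
  exact ⟨g, MvPowerSeries.ext fun d => by rw [MvPowerSeries.coeff_C_mul, hg]; rfl⟩

theorem cmp_nil {I : Ideal R} (h : IsNilpotent I) : IsAdicComplete I R := by
  obtain ⟨N, hN⟩ := h
  refine { haus' := fun x hx => ?_, prec' := fun f hf => ⟨f N, fun n => ?_⟩ }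
  · simpa [hN, SModEq.zero] using hx N
  · rcases le_total n N with c | c
    · exact hf c
    · have := hf c
      rw [hN, SModEq.sub_mem, zero_smul, Submodule.zero_eq_bot, Submodule.mem_bot,
        sub_eq_zero] at this
      rw [this]

end

theorem p_CMP :
    S_CMP := fun _ _ =>
  ⟨fun m hm => ⟨fun _ _ => cmp_gen hm _ (cmp_nb m), cmp_gen (σ := Unit) hm _ (cmp_nb m)⟩,
    fun w hw _ => cmp_gen hw (fun _ => 0) (cmp_span w), fun _ => cmp_nil⟩

end

/-! Step EVU. -/

section

open PowerSeries IsLocalRing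

section

variable {R A σ : Type} [CommRing R] [CommRing A] {I : Ideal A}

theorem evu_dec [Fintype σ] (f : MvPowerSeries σ R) : ∃ g : σ → MvPowerSeries σ R,
    f = MvPowerSeries.C (MvPowerSeries.constantCoeff f) + ∑ i, MvPowerSeries.X i * g i := by
  classical
  let o : (σ →₀ ℕ) → Option σ := fun m => if h : ∃ i, m i ≠ 0 then some h.choose else none
  let F : σ → MvPowerSeries σ R := fun i m => if o m = some i then MvPowerSeries.coeff m f else 0
  have hF : ∀ i m, MvPowerSeries.coeff m (F i) =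
    if o m = some i then MvPowerSeries.coeff m f else 0 := fun _ _ => rfl
  have h : ∀ i, MvPowerSeries.X i ∣ F i := fun i => MvPowerSeries.X_dvd_iff.2 fun m hm => by
    rw [hF, if_neg]
    simp only [o]
    split_ifs with h
    · exact fun e => h.choose_spec (Option.some.inj e ▸ hm)
    · exact fun e => by cases e
  choose g hg using h
  refine ⟨g, MvPowerSeries.ext fun m => ?_⟩
  simp only [← hg, map_add, map_sum, hF, MvPowerSeries.coeff_C]
  by_cases h : ∃ i, m i ≠ 0
  · rw [if_neg fun e => by simp [e] at h]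
    simp [o, dif_pos h]
  · obtain rfl : m = 0 := Finsupp.ext fun i => not_not.1 fun e => h ⟨i, e⟩
    simp [o]

theorem evu_cong [Finite σ] (φ ψ : MvPowerSeries σ R →+* A) (n : ℕ)
    (h0 : ∀ r, φ (MvPowerSeries.C r) = ψ (MvPowerSeries.C r))
    (h1 : ∀ i, ψ (MvPowerSeries.X i) ∈ I)
    (h2 : ∀ i, φ (MvPowerSeries.X i) - ψ (MvPowerSeries.X i) ∈ I ^ n) (m : ℕ) :
    m ≤ n → ∀ f, φ f - ψ f ∈ I ^ m := by
  have := Fintype.ofFinite σ
  induction m with
  | zero => simp
  | succ m ih =>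
    intro hm f
    obtain ⟨g, e⟩ := evu_dec f
    rw [e, map_add, map_add, h0, add_sub_add_left_eq_sub, map_sum, map_sum,
      ← Finset.sum_sub_distrib]
    refine Ideal.sum_mem _ fun i _ => ?_
    rw [map_mul, map_mul, ← sub_add_sub_cancel _ (ψ (MvPowerSeries.X i) * φ (g i)), ← sub_mul,
      ← mul_sub]
    refine add_mem (Ideal.mul_mem_right _ _ (Ideal.pow_le_pow_right hm (h2 i))) ?_
    rw [pow_succ']
    exact Ideal.mul_mem_mul (h1 i) (ih (Nat.le_of_succ_le hm) _)

theorem evu_eq [Finite σ] (φ ψ : MvPowerSeries σ R →+* A) (h : IsHausdorff I A)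
    (h0 : ∀ r, φ (MvPowerSeries.C r) = ψ (MvPowerSeries.C r))
    (h1 : ∀ i, φ (MvPowerSeries.X i) ∈ I)
    (h2 : ∀ i, φ (MvPowerSeries.X i) = ψ (MvPowerSeries.X i)) : φ = ψ :=
  RingHom.ext fun f => sub_eq_zero.1 (h.haus _ fun n => SModEq.zero.2 (by
    rw [smul_eq_mul, Ideal.mul_top]
    exact evu_cong φ ψ n h0 (fun i => h2 i ▸ h1 i) (fun i => by simp [h2]) n le_rfl f))

theorem evu_mem [Finite σ] (φ : MvPowerSeries σ R →+* A) (m : Ideal R)
    (h0 : ∀ r ∈ m, φ (MvPowerSeries.C r) ∈ I) (h1 : ∀ i, φ (MvPowerSeries.X i) ∈ I)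
    (f : MvPowerSeries σ R) (hf : f ∈ nb σ m) : φ f ∈ I := by
  have := Fintype.ofFinite σ
  obtain ⟨g, e⟩ := evu_dec f
  rw [e, map_add, map_sum]
  refine add_mem (h0 _ hf) (Ideal.sum_mem _ fun i _ => ?_)
  rw [map_mul]
  exact Ideal.mul_mem_right _ _ (h1 i)

end

theorem p_EVU :
    S_EVU := fun _ _ _ _ _ =>
  ⟨fun _ _ φ ψ n h0 _ h1 h2 => evu_cong φ ψ n h0 h1 h2 n le_rfl, fun _ _ => evu_eq,
    fun φ ψ h h0 h1 h2 => evu_eq (σ := Unit) φ ψ h h0 (fun _ => h1) fun _ => h2,
    fun _ _ => evu_mem, fun φ m h0 h1 => evu_mem (σ := Unit) φ m h0 fun _ => h1⟩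

end

/-! Step EVE. -/

section

open PowerSeries IsLocalRing

attribute [-instance] PowerSeries.algebraPowerSeries

theorem eve_main {R C : Type} [CommRing R] [CommRing C] {I : Ideal C} (h : IsAdicComplete I C)
    (ρ : R →+* C) (σ : Type) [Finite σ] (a : σ → C) (ha : ∀ i, a i ∈ I) :
    ∃ φ : MvPowerSeries σ R →+* C,
      (∀ r, φ (MvPowerSeries.C r) = ρ r) ∧ ∀ i, φ (MvPowerSeries.X i) = a i := by
  let _ : WithIdeal C := ⟨I⟩
  let _ : UniformSpace R := ⊥
  have _ : DiscreteUniformity R := ⟨rfl⟩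
  obtain ⟨_, _⟩ := (IsAdic.isAdicComplete_iff (I := I) (R := C) rfl).1 h
  have h1 : Continuous ρ := continuous_of_discreteTopology
  have h2 : MvPowerSeries.HasEval a :=
    ⟨fun i => WithIdeal.isTopologicallyNilpotent_of_mem (ha i), by simp⟩
  exact ⟨MvPowerSeries.eval₂Hom h1 h2,
    fun r => by rw [MvPowerSeries.coe_eval₂Hom, MvPowerSeries.eval₂_C],
    fun i => by rw [MvPowerSeries.coe_eval₂Hom, MvPowerSeries.eval₂_X]⟩

theorem p_EVE :
    S_EVE := by
  intro R C _ _ I h
  refine ⟨fun ρ σ _ a ha => eve_main h ρ σ a ha, fun ρ a ha => ?_, fun σ _ a ha => ?_,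
    fun a ha => ?_⟩
  · obtain ⟨φ, h1, h2⟩ := eve_main h ρ Unit (fun _ => a) fun _ => ha
    exact ⟨φ, h1, h2 ()⟩
  · obtain ⟨φ, h1, h2⟩ := eve_main h (algebraMap R C) σ a ha
    exact ⟨⟨φ, h1⟩, h2⟩
  · obtain ⟨φ, h1, h2⟩ := eve_main h (algebraMap R C) Unit (fun _ => a) fun _ => ha
    exact ⟨⟨φ, h1⟩, h2 ()⟩

end

/-! Step IMP. -/

section

open PowerSeries IsLocalRing

theorem imp_split {C σ : Type} [CommRing C] (m : σ →₀ ℕ) (hm : 1 ≤ m.degree) :
    ∃ (i : σ) (m' : σ →₀ ℕ), m'.degree + 1 = m.degree ∧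
      ∀ x : σ → C, m.prod (fun i k => x i ^ k) = x i * m'.prod fun i k => x i ^ k := by
  have h0 : m ≠ 0 := by
    rintro rfl
    simp at hm
  obtain ⟨i, hi⟩ := Finsupp.ne_iff.1 h0
  have e : m = Finsupp.single i 1 + (m - Finsupp.single i 1) :=
    (add_tsub_cancel_of_le (Finsupp.single_le_iff.2 (Nat.one_le_iff_ne_zero.2 hi))).symm
  refine ⟨i, m - Finsupp.single i 1, ?_, fun x => ?_⟩
  · conv_rhs => rw [e, map_add, Finsupp.degree_single, add_comm]
  · conv_lhs => rw [e]
    rw [Finsupp.prod_add_index' (fun _ => pow_zero _) fun _ _ _ => pow_add _ _ _,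
      Finsupp.prod_single_index (h := fun i k => x i ^ k) (pow_zero _), pow_one]

theorem imp_sub {C σ : Type} [CommRing C] (J : Ideal C) (x y : σ → C) (h : ∀ i, x i - y i ∈ J)
    (m : σ →₀ ℕ) : m.prod (fun i k => x i ^ k) - m.prod (fun i k => y i ^ k) ∈ J := by
  rw [← Ideal.Quotient.eq, map_finsuppProd, map_finsuppProd]
  refine Finsupp.prod_congr fun i _ => ?_
  rw [map_pow, map_pow, Ideal.Quotient.eq.2 (h i)]

theorem imp_contr {R C σ : Type} [CommRing R] [CommRing C] (ρ : R →+* C) (I : Ideal C)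
    (P : MvPolynomial σ R) (hP : ∀ m : σ →₀ ℕ, m.degree ≤ 1 → ρ (P.coeff m) ∈ I) (n : ℕ)
    (x y : σ → C) (hx : ∀ i, x i ∈ I) (hy : ∀ i, y i ∈ I) (h : ∀ i, x i - y i ∈ I ^ n) :
    MvPolynomial.eval₂ ρ x P - MvPolynomial.eval₂ ρ y P ∈ I ^ (n + 1) := by
  rw [MvPolynomial.eval₂_eq, MvPolynomial.eval₂_eq, ← Finset.sum_sub_distrib]
  refine Ideal.sum_mem _ fun m _ => ?_
  rw [← mul_sub]
  change ρ (P.coeff m) * (m.prod (fun i k => x i ^ k) - m.prod fun i k => y i ^ k) ∈ _
  by_cases hm : m.degree ≤ 1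
  · rw [pow_succ']
    exact Ideal.mul_mem_mul (hP m hm) (imp_sub _ x y h m)
  · refine Ideal.mul_mem_left _ _ ?_
    obtain ⟨i, m', h1, h2⟩ := imp_split (C := C) m (by omega)
    obtain ⟨j, m'', -, h3⟩ := imp_split (C := C) m' (by omega)
    rw [h2 x, h2 y, show ∀ a b c d : C, a * b - c * d = a * (b - d) + d * (a - c) from
      fun _ _ _ _ => by ring, pow_succ']
    refine add_mem (Ideal.mul_mem_mul (hx i) (imp_sub _ x y h m')) (Ideal.mul_mem_mul ?_ (h i))
    rw [h3 y]
    exact Ideal.mul_mem_right _ _ (hy j)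

theorem p_IMP (hFIX : S_FIX) :
    S_IMP := by
  intro R C σ _ _ ρ I c w hc
  obtain ⟨h1, h2⟩ := hFIX C σ I (fun x g => w g + MvPolynomial.eval₂ ρ x (c g))
    fun n x y hx hy h g => by
      rw [add_sub_add_left_eq_sub]
      exact imp_contr ρ I _ (hc g) n x y hx hy h
  refine ⟨fun hH x y hx hy ex ey => h1 hH x y hx hy (funext fun g => (ex g).symm)
    (funext fun g => (ey g).symm), fun hI hw => ?_⟩
  obtain ⟨x, hx, e⟩ := h2 hI fun g => add_mem (hw g) (by
    have : MvPolynomial.eval₂ ρ (0 : σ → C) (c g) = ρ ((c g).coeff 0) :=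
      MvPolynomial.eval₂Hom_zero_apply ρ (c g)
    rw [this]
    exact hc g 0 (by simp))
  exact ⟨x, hx, fun g => (congrFun e g).symm⟩

end

/-! Step CURVE. -/

section

open PowerSeries IsLocalRing

theorem curve_eval {G R : Type} [CommRing R] (x : G → R⟦X⟧) (P : MvPolynomial G R) :
    MvPolynomial.eval₂ (algebraMap R R⟦X⟧) x P = MvPolynomial.aeval x P := rfl

theorem p_CURVE (hCMP : S_CMP) (hEVU : S_EVU) (hEVE : S_EVE) (hIMP : S_IMP) :
    S_CURVE := by
  intro G R _ _ m hm c hc hs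
  have hI : IsAdicComplete (nb1 m) R⟦X⟧ := ((hCMP R).1 m hm).2
  have hH : IsHausdorff (nb1 m) R⟦X⟧ := hI.toIsHausdorff
  have hCm : ∀ r ∈ m, (PowerSeries.C r : R⟦X⟧) ∈ nb1 m := fun r hr => by
    simpa [nb1] using hr
  have hs' : Small (algebraMap R R⟦X⟧) (nb1 m) c := fun g d hd => hCm _ (hs g d hd)
  have hX : (X : R⟦X⟧) ∈ nb1 m := by simp [nb1]
  refine ⟨(hIMP R R⟦X⟧ G _ _ c (fun _ => X) hs').2 hI fun _ => hX, fun x hx hx' => ?_⟩
  have c1 : c 1 = 0 := by
    have := hc 1 1
    rw [one_mul, show (fun g : G => 1 * g) = id from funext one_mul, MvPolynomial.rename_id,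
      AlgHom.id_apply] at this
    exact left_eq_add.1 this
  have x1 : x 1 = X := by rw [hx' 1, c1, map_zero, add_zero]
  refine ⟨x1, ?_⟩
  choose a ha using fun h => (hEVE R R⟦X⟧ (nb1 m) hI).2.2.2 (x h) (hx h)
  have aC : ∀ (φ : R⟦X⟧ →ₐ[R] R⟦X⟧) r, φ (PowerSeries.C r) = PowerSeries.C r :=
    fun φ r => φ.commutes r
  have key : ∀ h g, a h (x g) = x (h * g) := fun h => by
    refine congrFun ((hIMP R R⟦X⟧ G _ _ c (fun _ => x h) hs').1 hH (fun g => a h (x g))
      (fun g => x (h * g)) (fun g => ?_) (fun g => hx _) (fun g => ?_) fun g => ?_)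
    · exact (hEVU R R⟦X⟧ (nb1 m)).2.2.2.2 (a h : R⟦X⟧ →+* R⟦X⟧) m
        (fun r hr => by rw [RingHom.coe_coe, aC]; exact hCm r hr)
        (by rw [RingHom.coe_coe, ha]; exact hx h) _ (hx g)
    · rw [curve_eval, ← MvPolynomial.comp_aeval_apply, ← ha h, ← map_add, ← hx' g]
    · rw [curve_eval, hx' (h * g), hc h g, map_add, ← add_assoc, ← hx' h,
        MvPolynomial.aeval_rename]
      rfl
  have ext : ∀ φ ψ : R⟦X⟧ →ₐ[R] R⟦X⟧, φ X ∈ nb1 m → φ X = ψ X → φ = ψ := fun φ ψ h1 h2 =>
    AlgHom.coe_ringHom_injective ((hEVU R R⟦X⟧ (nb1 m)).2.2.1 φ ψ hH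
      (fun r => by rw [RingHom.coe_coe, RingHom.coe_coe, aC, aC]) h1 h2)
  have a1 : a 1 = AlgHom.id R _ := ext _ _ (by rw [ha]; exact hx 1) (by rw [ha, x1]; rfl)
  have am : ∀ h g, a (h * g) = (a h).comp (a g) := fun h g =>
    ext _ _ (by rw [ha]; exact hx _) (by rw [AlgHom.comp_apply, ha, ha, key])
  refine ⟨⟨⟨fun h => AlgEquiv.ofAlgHom (a h) (a h⁻¹) (by rw [← am, mul_inv_cancel, a1])
    (by rw [← am, inv_mul_cancel, a1]), ?_⟩, fun h g => ?_⟩, key⟩
  · ext1 f
    change a 1 f = f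
    rw [a1]; rfl
  · ext1 f
    change a (h * g) f = a h (a g f)
    rw [am]; rfl

end

/-! Step RED. -/

section

open PowerSeries IsLocalRing

theorem red_dvd_iff {σ R : Type} [CommRing R] (l : R) (b : MvPowerSeries σ R) :
    MvPowerSeries.C l ∣ b ↔ ∀ m, l ∣ MvPowerSeries.coeff m b := by
  constructor
  · rintro ⟨c, rfl⟩ m
    rw [MvPowerSeries.coeff_C_mul]
    exact dvd_mul_right _ _
  · intro h
    choose c hc using h
    exact ⟨c, MvPowerSeries.ext fun m =>
      (hc m).trans (MvPowerSeries.coeff_C_mul m (c : MvPowerSeries σ R) l).symm⟩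

theorem red_ker {σ R : Type} [CommRing R] (l : R) (b : MvPowerSeries σ R) :
    MvPowerSeries.map (Ideal.Quotient.mk (Ideal.span {l})) b = 0 ↔ MvPowerSeries.C l ∣ b := by
  rw [red_dvd_iff, MvPowerSeries.ext_iff]
  refine forall_congr' fun m => ?_
  rw [MvPowerSeries.coeff_map, map_zero, Ideal.Quotient.eq_zero_iff_mem, Ideal.mem_span_singleton]

theorem red_coeff {σ R : Type} [CommRing R] (i : σ) (n : ℕ) (a : R⟦X⟧) :
    MvPowerSeries.coeff (Finsupp.single i n) (PowerSeries.toMvPowerSeries i a) = coeff n a := by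
  rw [PowerSeries.toMvPowerSeries_apply]
  have : Finsupp.single i n =
      (Finsupp.single () n).embDomain ⟨fun _ : Unit => i, fun _ _ _ => rfl⟩ := by
    rw [Finsupp.embDomain_single]; rfl
  rw [this]
  exact MvPowerSeries.coeff_embDomain_rename ⟨fun _ : Unit => i, fun _ _ _ => rfl⟩ a _

theorem p_RED :
    S_RED := by
  intro σ R _
  refine ⟨fun l => ⟨fun f => ?_, red_ker l⟩, fun l hl => ?_, ?_⟩
  · choose c hc using fun m => Ideal.Quotient.mk_surjective (MvPowerSeries.coeff m f)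
    exact ⟨c, MvPowerSeries.ext fun m => hc m⟩
  · have : (Ideal.span {l}).IsPrime := (Ideal.span_singleton_prime hl.ne_zero).2 hl
    refine ⟨fun h => hl.ne_zero ?_, fun h => hl.not_isUnit ?_, fun a b h => ?_⟩
    · simpa using congrArg MvPowerSeries.constantCoeff h
    · simpa using h.map MvPowerSeries.constantCoeff
    · rw [← red_ker, map_mul, mul_eq_zero, red_ker, red_ker] at h
      exact h
  · intro k _ l ϖ π θ i hπ hc a b hab hb
    refine (red_dvd_iff (σ := Unit) (X : k⟦X⟧) a).2 fun m => ?_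
    have h1 := congrArg (MvPowerSeries.coeff (Finsupp.single i (m ()))) hab
    rw [red_coeff, coeff_map, MvPowerSeries.coeff_map] at h1
    obtain ⟨t, ht⟩ := (red_dvd_iff ϖ b).1 hb (Finsupp.single i (m ()))
    have h2 := hc _ _ h1
    rw [ht, map_mul, hπ, zero_mul] at h2
    rw [X_dvd_iff, Finsupp.unique_single m]
    exact h2.symm

end

end Pool.Agent.P.MP_41a2b4_ag.W
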