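import Mathlib

/-! Definitions for the weak local lifting property of all finite `p`-groups. -/

set_option autoImplicit false

namespace Pool.Agent.P.MP_41a2b4_ag.W

open MvPolynomial

section

variable {G : Type} [Group G]

/-- `G` permutes the variables `x_g` by left multiplication. -/
noncomputable def ren (G : Type) [Group G] (R : Type) [CommRing R] :
    G →* (MvPolynomial G R ≃ₐ[R] MvPolynomial G R) where
  toFun g := renameEquiv R (Equiv.mulLeft g)
  map_one' := by ext; simp
  map_mul' g h := by ext; simp [mul_assoc]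

theorem ren_apply {R : Type} [CommRing R] (g : G) (P : MvPolynomial G R) :
    ren G R g P = rename (g * ·) P := rfl

/-- The same action as a class (use with `letI`). -/
noncomputable abbrev renAct (G : Type) [Group G] (R : Type) [CommRing R] :
    MulSemiringAction G (MvPolynomial G R) := MulSemiringAction.compHom _ (ren G R)

/-- A 1-cocycle of `G` with values in the polynomial ring. -/
def IsCoc {R : Type} [CommRing R] (c : G → MvPolynomial G R) : Prop :=
  ∀ h g, c (h * g) = c h + rename (h * ·) (c g)

/-- The coefficients of degree at most 1 are sent into `I` by `ρ`. -/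
def Small {σ R C : Type} [CommRing R] [CommRing C] (ρ : R →+* C) (I : Ideal C)
    (c : σ → MvPolynomial σ R) : Prop :=
  ∀ g (m : σ →₀ ℕ), m.degree ≤ 1 → ρ ((c g).coeff m) ∈ I

/-- No terms of degree at most 1. -/
def Ord2 {σ R : Type} [CommRing R] (c : σ → MvPolynomial σ R) : Prop :=
  ∀ g (m : σ →₀ ℕ), m.degree ≤ 1 → (c g).coeff m = 0

/-- Power series with constant term in `m`. -/
noncomputable def nb (σ : Type) {R : Type} [CommRing R] (m : Ideal R) :
    Ideal (MvPowerSeries σ R) := m.comap MvPowerSeries.constantCoeff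

/-- One-variable power series with constant term in `m`. -/
noncomputable def nb1 {R : Type} [CommRing R] (m : Ideal R) : Ideal (PowerSeries R) :=
  m.comap PowerSeries.constantCoeff

/-- The transfer of the cocycle with potential `m` from `S` to `G`. -/
noncomputable def cor [Finite G] {B : Type} [AddCommGroup B] [DistribMulAction G B]
    (S : Subgroup G) (m : G → B) (g : G) : B :=
  ∑ᶠ x : G ⧸ S, x.out • (m (x.out⁻¹ * g) - m x.out⁻¹)

/-- All cocycles over the prime field, of order at least 2 and degree at most `D`. -/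
def Fam (p : ℕ) (G : Type) [Group G] (D : ℕ) : Type :=
  {c : G → MvPolynomial G (ZMod p) // IsCoc c ∧ Ord2 c ∧ ∀ g, (c g).totalDegree ≤ D}

/-- The combination of the cocycles `c i` with coefficients `t i`. -/
noncomputable def comb {p : ℕ} {I R : Type} [Fintype I] [CommRing R] [Algebra (ZMod p) R]
    (t : I → R) (c : I → G → MvPolynomial G (ZMod p)) (g : G) : MvPolynomial G R :=
  ∑ i, C (t i) * map (algebraMap (ZMod p) R) (c i g)

/-- For independent parameters, points of the curve have cyclic stabilizers, and trivial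
stabilizer when the first coordinate is independent of the parameters. -/
def Generic {p : ℕ} {I : Type} [Fintype I] (c : I → G → MvPolynomial G (ZMod p)) : Prop :=
  ∀ (Ω : Type) [Field Ω] [Algebra (ZMod p) Ω] (x : G → Ω) (t : I → Ω) (z : Ω) (b : G → ZMod p),
    x ≠ 0 → AlgebraicIndependent (ZMod p) (fun o : Option I => o.elim z t) →
    (∀ g, x g = x 1 + ∑ i, t i * aeval x (c i g) + z * algebraMap (ZMod p) Ω (b g)) →
    ∀ H : Subgroup G, (∀ h ∈ H, ∀ a, x (h * a) = x a) → IsCyclic H ∧ (z = x 1 → H = ⊥)

/-- The different of the action with respect to `z`. -/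
noncomputable def dif (G : Type) [Group G] [Fintype G] [DecidableEq G] {A : Type} [CommRing A]
    [MulSemiringAction G A] (z : A) : A := ∏ g ∈ Finset.univ.erase (1 : G), (z - g • z)

/-- The index set of all translates of the patches. -/
abbrev Tr {J : Type} (s : J → G) : Type := Σ j : J, G ⧸ Subgroup.zpowers (s j)

open Classical in
/-- The product of all translates `x.out • d i` other than the one at `(j, 1)`. -/
noncomputable def cof [Finite G] {J A : Type} [Fintype J] [CommRing A] [MulSemiringAction G A]
    (s : J → G) (d : J → A) (j : J) : A :=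
  letI := Fintype.ofFinite (Tr s)
  ∏ z ∈ Finset.univ.erase (⟨j, ((1 : G) : G ⧸ Subgroup.zpowers (s j))⟩ : Tr s), z.2.out • d z.1

/-- Coprime after inverting `w`. -/
def Cop {A : Type} [CommRing A] (w a b : A) : Prop := ∃ (c : ℕ) (u v : A), u * a + v * b = w ^ c

/-- The partition of unity data. -/
structure PU [Finite G] {J A : Type} [Fintype J] [CommRing A] [MulSemiringAction G A]
    (w : A) (s : J → G) (d q β : J → A) (c e : ℕ) : Prop where
  inv_d : ∀ j, s j • d j = d j
  inv_q : ∀ j, s j • q j = q j
  inv_cof : ∀ j, s j • cof s d j = cof s d j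
  trace : ∀ j, ∑ i ∈ Finset.range (orderOf (s j)), s j ^ i • β j = d j * q j
  bez : ∀ j, ∃ u v, u * d j + v * q j = w ^ c
  ndvd : ∀ j, ¬ w ∣ d j
  sum : ∑ j, ∑ᶠ x : G ⧸ Subgroup.zpowers (s j),
    x.out • (q j * cof s d j ^ (orderOf (s j) - 1)) = w ^ e

open Classical in
/-- The normal coordinates of the tube. -/
noncomputable def yv (R : Type) [CommRing R] (g : G) : MvPowerSeries G R :=
  if g = 1 then 0 else MvPowerSeries.X g

/-- The conclusion: weak local lifting, with the residue map compatible with `W(k) → k`. -/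
def WeakLift (p : ℕ) [Fact p.Prime] (k : Type) [Field k] (G : Type) [Group G] : Prop :=
  ∃ (R : Type) (_ : CommRing R) (_ : IsDomain R) (_ : IsDiscreteValuationRing R)
    (_ : Algebra (WittVector p k) R) (_ : Module.Finite (WittVector p k) R)
    (π : R →+* k)
    (i : G →* (PowerSeries k ≃ₐ[k] PowerSeries k))
    (j : G →* (PowerSeries R ≃ₐ[R] PowerSeries R)),
    Function.Injective (algebraMap (WittVector p k) R) ∧
    (∀ w, π (algebraMap (WittVector p k) R w) = WittVector.constantCoeff w) ∧
    Function.Surjective π ∧ Function.Injective i ∧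
      ∀ (g : G) (f : PowerSeries R),
        PowerSeries.map π (j g f) = i g (PowerSeries.map π f)

theorem cof_eq [Finite G] {J A : Type} [Fintype J] [CommRing A] [MulSemiringAction G A]
    (s : J → G) (d : J → A) (j : J) [Fintype (Tr s)] [DecidableEq (Tr s)] :
    cof s d j = ∏ z ∈ Finset.univ.erase (⟨j, ((1 : G) : G ⧸ Subgroup.zpowers (s j))⟩ : Tr s),
      z.2.out • d z.1 := by
  unfold cof
  exact Finset.prod_congr (Finset.ext fun z => by simp) fun _ _ => rfl

theorem cor_eq [Finite G] {B : Type} [AddCommGroup B] [DistribMulAction G B]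
    (S : Subgroup G) [Fintype (G ⧸ S)] (m : G → B) (g : G) :
    cor S m g = ∑ x : G ⧸ S, x.out • (m (x.out⁻¹ * g) - m x.out⁻¹) :=
  finsum_eq_sum_of_fintype _

/-- Moving a coset representative. -/
theorem exists_mul_out (S : Subgroup G) (h : G) (x : G ⧸ S) :
    ∃ t ∈ S, h * x.out = (h • x).out * t := by
  refine ⟨(h • x).out⁻¹ * (h * x.out), ?_, by group⟩
  rw [← QuotientGroup.eq, QuotientGroup.out_eq', ← smul_eq_mul, ← MulAction.Quotient.smul_coe,
    QuotientGroup.out_eq']

theorem smul_out_smul {B : Type} [MulAction G B] (S : Subgroup G) {b : B}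
    (hb : ∀ t ∈ S, t • b = b) (h : G) (x : G ⧸ S) : h • x.out • b = (h • x).out • b := by
  obtain ⟨t, ht, e⟩ := exists_mul_out S h x
  rw [← mul_smul, e, mul_smul, hb t ht]

theorem smul_eq_of_mem_zpowers {B : Type} [MulAction G B] {s : G} {b : B} (hb : s • b = b) :
    ∀ t ∈ Subgroup.zpowers s, t • b = b := fun _ ht =>
  (Subgroup.zpowers_le_of_mem (H := MulAction.stabilizer G b) hb) ht

theorem out_one_mem (S : Subgroup G) : ((1 : G) : G ⧸ S).out ∈ S := by
  simpa using S.inv_mem (QuotientGroup.eq.1 (QuotientGroup.out_eq' ((1 : G) : G ⧸ S)))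

end

end Pool.Agent.P.MP_41a2b4_ag.W
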