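import Pool.Agent.P.MP_41a2b4_ag.W.Defs

/-! Interface: the steps of the proof that every finite `p`-group is weakly liftable. -/

set_option autoImplicit false

namespace Pool.Agent.P.MP_41a2b4_ag.W

open PowerSeries IsLocalRing

attribute [-instance] PowerSeries.algebraPowerSeries MvPowerSeries.algebraMvPowerSeries

/-! ### Complete rings -/

-- deps:
/-- Fixed points of contractions. -/
def S_FIX : Prop :=
  ∀ (C σ : Type) [CommRing C] (I : Ideal C) (Ψ : (σ → C) → σ → C),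
    (∀ n x y, (∀ i, x i ∈ I) → (∀ i, y i ∈ I) → (∀ i, x i - y i ∈ I ^ n) →
      ∀ i, Ψ x i - Ψ y i ∈ I ^ (n + 1)) →
    (IsHausdorff I C → ∀ x y, (∀ i, x i ∈ I) → (∀ i, y i ∈ I) → Ψ x = x → Ψ y = y → x = y) ∧
    (IsAdicComplete I C → (∀ i, Ψ 0 i ∈ I) → ∃ x, (∀ i, x i ∈ I) ∧ Ψ x = x)

-- deps:
/-- Completeness of power series rings. -/
def S_CMP : Prop :=
  ∀ (R : Type) [CommRing R],
    (∀ (m : Ideal R), IsAdicComplete m R →
      (∀ (σ : Type) [Finite σ], IsAdicComplete (nb σ m) (MvPowerSeries σ R)) ∧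
      IsAdicComplete (nb1 m) R⟦X⟧) ∧
    (∀ (w : R), IsAdicComplete (Ideal.span {w}) R → ∀ σ : Type,
      IsAdicComplete (Ideal.span {(MvPowerSeries.C w : MvPowerSeries σ R)}) (MvPowerSeries σ R)) ∧
    (∀ (I : Ideal R), IsNilpotent I → IsAdicComplete I R)

-- deps:
/-- Ring homomorphisms out of power series rings: congruence (hence uniqueness). -/
def S_EVU : Prop :=
  ∀ (R C : Type) [CommRing R] [CommRing C] (I : Ideal C),
    (∀ (σ : Type) [Finite σ] (φ ψ : MvPowerSeries σ R →+* C) (n : ℕ),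
      (∀ r, φ (MvPowerSeries.C r) = ψ (MvPowerSeries.C r)) →
      (∀ i, φ (MvPowerSeries.X i) ∈ I) → (∀ i, ψ (MvPowerSeries.X i) ∈ I) →
      (∀ i, φ (MvPowerSeries.X i) - ψ (MvPowerSeries.X i) ∈ I ^ n) → ∀ f, φ f - ψ f ∈ I ^ n) ∧
    (∀ (σ : Type) [Finite σ] (φ ψ : MvPowerSeries σ R →+* C), IsHausdorff I C →
      (∀ r, φ (MvPowerSeries.C r) = ψ (MvPowerSeries.C r)) →
      (∀ i, φ (MvPowerSeries.X i) ∈ I) →
      (∀ i, φ (MvPowerSeries.X i) = ψ (MvPowerSeries.X i)) → φ = ψ) ∧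
    (∀ (φ ψ : R⟦X⟧ →+* C), IsHausdorff I C → (∀ r, φ (PowerSeries.C r) = ψ (PowerSeries.C r)) →
      φ X ∈ I → φ X = ψ X → φ = ψ) ∧
    (∀ (σ : Type) [Finite σ] (φ : MvPowerSeries σ R →+* C) (m : Ideal R),
      (∀ r ∈ m, φ (MvPowerSeries.C r) ∈ I) → (∀ i, φ (MvPowerSeries.X i) ∈ I) →
      ∀ f ∈ nb σ m, φ f ∈ I) ∧
    (∀ (φ : R⟦X⟧ →+* C) (m : Ideal R),
      (∀ r ∈ m, φ (PowerSeries.C r) ∈ I) → φ X ∈ I → ∀ f ∈ nb1 m, φ f ∈ I)

-- deps:
/-- Ring homomorphisms out of power series rings: existence. -/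
def S_EVE : Prop :=
  ∀ (R C : Type) [CommRing R] [CommRing C] (I : Ideal C), IsAdicComplete I C →
    (∀ (ρ : R →+* C) (σ : Type) [Finite σ] (a : σ → C), (∀ i, a i ∈ I) →
      ∃ φ : MvPowerSeries σ R →+* C,
        (∀ r, φ (MvPowerSeries.C r) = ρ r) ∧ ∀ i, φ (MvPowerSeries.X i) = a i) ∧
    (∀ (ρ : R →+* C) (a : C), a ∈ I →
      ∃ φ : R⟦X⟧ →+* C, (∀ r, φ (PowerSeries.C r) = ρ r) ∧ φ X = a) ∧
    (∀ [Algebra R C] (σ : Type) [Finite σ] (a : σ → C), (∀ i, a i ∈ I) →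
      ∃ φ : MvPowerSeries σ R →ₐ[R] C, ∀ i, φ (MvPowerSeries.X i) = a i) ∧
    (∀ [Algebra R C] (a : C), a ∈ I → ∃ φ : R⟦X⟧ →ₐ[R] C, φ X = a)

-- deps: FIX
/-- Implicit functions. -/
def S_IMP : Prop :=
  ∀ (R C σ : Type) [CommRing R] [CommRing C] (ρ : R →+* C) (I : Ideal C)
    (c : σ → MvPolynomial σ R) (w : σ → C), Small ρ I c →
    (IsHausdorff I C → ∀ x y : σ → C, (∀ g, x g ∈ I) → (∀ g, y g ∈ I) →
      (∀ g, x g = w g + MvPolynomial.eval₂ ρ x (c g)) →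
      (∀ g, y g = w g + MvPolynomial.eval₂ ρ y (c g)) → x = y) ∧
    (IsAdicComplete I C → (∀ g, w g ∈ I) →
      ∃ x : σ → C, (∀ g, x g ∈ I) ∧ ∀ g, x g = w g + MvPolynomial.eval₂ ρ x (c g))

-- deps: CMP EVU EVE IMP
/-- The action on the curve cut out by a small cocycle. -/
def S_CURVE : Prop :=
  ∀ (G R : Type) [Group G] [CommRing R] (m : Ideal R), IsAdicComplete m R →
    ∀ (c : G → MvPolynomial G R), IsCoc c → Small (RingHom.id R) m c →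
    (∃ x : G → R⟦X⟧, (∀ g, x g ∈ nb1 m) ∧ ∀ g, x g = X + MvPolynomial.aeval x (c g)) ∧
    ∀ x : G → R⟦X⟧, (∀ g, x g ∈ nb1 m) → (∀ g, x g = X + MvPolynomial.aeval x (c g)) →
      x 1 = X ∧ ∃ α : G →* (R⟦X⟧ ≃ₐ[R] R⟦X⟧), ∀ h g, α h (x g) = x (h * g)

/-! ### The family in characteristic `p` -/

-- deps:
/-- The transfer of a cocycle given by a potential is a cocycle. -/
def S_TR : Prop :=
  ∀ (G B : Type) [Group G] [Finite G] [AddCommGroup B] [DistribMulAction G B] (m : G → B),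
    (∀ S : Subgroup G, (∀ t ∈ S, ∀ a b, t • (m b - m a) = m (t * b) - m (t * a)) →
      ∀ h g, cor S m (h * g) = cor S m h + h • cor S m g) ∧
    (∀ s : G, (∀ a b, s • (m b - m a) = m (s * b) - m (s * a)) →
      ∀ t ∈ Subgroup.zpowers s, ∀ a b, t • (m b - m a) = m (t * b) - m (t * a))

-- deps:
/-- Characters of order `p` of finite `p`-groups. -/
def S_CHI : Prop :=
  ∀ (p : ℕ) [Fact p.Prime] (G : Type) [Group G] [Finite G], IsPGroup p G →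
    (Nontrivial G → ∃ (χ : G →* Multiplicative (ZMod p)) (a : G), χ a ≠ 1) ∧
    (¬ IsCyclic G → ∃ (χ₁ χ₂ : G →* Multiplicative (ZMod p)) (a b : G),
      χ₁ a ≠ 1 ∧ χ₂ a = 1 ∧ χ₂ b ≠ 1)

-- deps:
/-- Base change: values of cocycles over `K` are spanned by values of cocycles over the prime
field. -/
def S_BC : Prop :=
  ∀ (p : ℕ) [Fact p.Prime] (G : Type) [Group G] [Finite G] (D : ℕ),
    Finite (Fam p G D) ∧
    ∀ (K : Type) [Field K] [Algebra (ZMod p) K] (x : G → K) (c : G → MvPolynomial G K),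
      IsCoc c → Ord2 c → (∀ g, (c g).totalDegree ≤ D) →
      (fun g => MvPolynomial.eval x (c g)) ∈
        Submodule.span K (Set.range fun i : Fam p G D => fun g => MvPolynomial.aeval x (i.1 g))

-- deps: TR
open Classical in
/-- Cocycles with prescribed values at a point. -/
def S_INT : Prop :=
  ∀ (G : Type) [Group G] [Finite G], ∃ D : ℕ, ∀ (K : Type) [Field K] (x : G → K), x ≠ 0 →
    ∀ H : Subgroup G, (∀ g, g ∈ H ↔ ∀ a, x (g * a) = x a) →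
    (∀ g₀, g₀ ∉ H → ∃ c : G → MvPolynomial G K, IsCoc c ∧ Ord2 c ∧
      (∀ g, (c g).totalDegree ≤ D) ∧
      ∀ g, MvPolynomial.eval x (c g) = if g * g₀⁻¹ ∈ H then 1 else 0) ∧
    (∀ χ : H →* Multiplicative K, ∃ c : G → MvPolynomial G K, IsCoc c ∧ Ord2 c ∧
      (∀ g, (c g).totalDegree ≤ D) ∧
      ∀ t : H, MvPolynomial.eval x (c t) = Multiplicative.toAdd (χ t))

-- deps:
/-- The transcendence degree count. -/
def S_TRD : Prop :=
  ∀ (F Ω : Type) [Field F] [Field Ω] [Algebra F Ω] (T : Finset Ω) (ι I : Type) [Fintype ι]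
    [Fintype I] (t : I → Ω) (z : Ω) (a : I → ι → IntermediateField.adjoin F (T : Set Ω)),
    z ∈ IntermediateField.adjoin F (T : Set Ω) →
    AlgebraicIndependent F (fun o : Option I => o.elim z t) →
    (∀ g, ∑ i, t i * (a i g : Ω) ∈ IntermediateField.adjoin F (T : Set Ω)) →
    Module.finrank (IntermediateField.adjoin F (T : Set Ω))
      (Submodule.span (IntermediateField.adjoin F (T : Set Ω)) (Set.range a)) + 1 ≤ T.card

-- deps:
open Classical in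
/-- The rank count. -/
def S_RANK : Prop :=
  ∀ (G K : Type) [Group G] [Finite G] [Field K] (H : Subgroup G) (V : Submodule K (G → K)),
    (∀ g₀, g₀ ∉ H → (fun g => if g * g₀⁻¹ ∈ H then (1 : K) else 0) ∈ V) →
    (∀ v ∈ V, ∀ a ∈ H, v a ≠ 0 → H.index ≤ Module.finrank K V) ∧
    (∀ v₁ ∈ V, ∀ v₂ ∈ V, ∀ a ∈ H, ∀ b ∈ H, v₁ a ≠ 0 → v₂ a = 0 → v₂ b ≠ 0 →
      H.index + 1 ≤ Module.finrank K V)

-- deps: CHI BC INT TRD RANK
/-- The generic family. -/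
def S_GENC : Prop :=
  ∀ (p : ℕ) [Fact p.Prime] (G : Type) [Group G] [Finite G], IsPGroup p G →
    ∃ (I : Type) (_ : Fintype I) (c : I → G → MvPolynomial G (ZMod p)),
      (∀ i, IsCoc (c i)) ∧ (∀ i, Ord2 (c i)) ∧ Generic c

-- deps: CURVE EVU
/-- A member of the family with a faithful action over `k`. -/
def S_SPEC : Prop :=
  ∀ (p : ℕ) [Fact p.Prime] (G : Type) [Group G] [Finite G] (I : Type) [Fintype I]
    (c : I → G → MvPolynomial G (ZMod p)), (∀ i, IsCoc (c i)) → (∀ i, Ord2 (c i)) → Generic c →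
    ∀ (k : Type) [Field k] [Infinite k] [Algebra (ZMod p) k],
      ∃ (t : I → k) (x : G → k⟦X⟧), (∀ g, constantCoeff (x g) = 0) ∧
        (∀ g, x g = X + MvPolynomial.aeval x (comb t c g)) ∧ ∀ s, s ≠ 1 → x s ≠ X

-- deps:
/-- Algebraically independent power series with prescribed constant terms. -/
def S_IND : Prop :=
  ∀ (F k : Type) [Field F] [Countable F] [Field k] [Algebra F k] (I : Type) [Finite I]
    (t₀ : I → k), ∃ t : I → k⟦X⟧, AlgebraicIndependent F t ∧ ∀ i, constantCoeff (t i) = t₀ i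

-- deps: EVE
/-- A complete discrete valuation ring containing its residue field is a power series ring. -/
def S_ISO : Prop :=
  ∀ (k O : Type) [Field k] [CommRing O] [IsDomain O] [IsDiscreteValuationRing O] [Algebra k O],
    IsAdicComplete (maximalIdeal O) O → (∀ a : O, ∃ r : k, a - algebraMap k O r ∈ maximalIdeal O) →
    Nonempty (O ≃ₐ[k] k⟦X⟧)

-- deps: ISO
-- imports: Pool.Agent.P.MP_41a2b4_ag.Ring
/-- A root of a separable polynomial after a finite extension. -/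
def S_SEP : Prop :=
  ∀ (k : Type) [Field k] [IsAlgClosed k] (P : Polynomial k⟦X⟧), P.Monic → 0 < P.natDegree →
    (P.map (algebraMap k⟦X⟧ (FractionRing k⟦X⟧))).Separable →
    ∃ θ : k⟦X⟧ →ₐ[k] k⟦X⟧, Function.Injective θ ∧
      ∃ w, (P.map (θ : k⟦X⟧ →+* k⟦X⟧)).eval w = 0

-- deps: SEP
/-- Every monic polynomial splits after a finite extension. -/
def S_SPL : Prop :=
  ∀ (p : ℕ) [Fact p.Prime] (k : Type) [Field k] [IsAlgClosed k] [CharP k p]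
    (P : Polynomial k⟦X⟧), P.Monic →
    ∃ θ : k⟦X⟧ →ₐ[k] k⟦X⟧, Function.Injective θ ∧ (∀ f, constantCoeff (θ f) = constantCoeff f) ∧
      ∃ w : Fin P.natDegree → k⟦X⟧,
        P.map (θ : k⟦X⟧ →+* k⟦X⟧) = ∏ i, (Polynomial.X - Polynomial.C (w i))

-- deps: SPL
/-- A power series over `k⟦X⟧` which is nonzero modulo the maximal ideal splits after a finite
extension. -/
def S_WSP : Prop :=
  ∀ (p : ℕ) [Fact p.Prime] (k : Type) [Field k] [IsAlgClosed k] [CharP k p] (f : k⟦X⟧⟦X⟧),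
    PowerSeries.map (constantCoeff : k⟦X⟧ →+* k) f ≠ 0 →
    ∃ θ : k⟦X⟧ →ₐ[k] k⟦X⟧, Function.Injective θ ∧ (∀ f, constantCoeff (θ f) = constantCoeff f) ∧
      ∃ (r : ℕ) (w : Fin r → k⟦X⟧) (u : k⟦X⟧⟦X⟧), IsUnit u ∧ (∀ i, constantCoeff (w i) = 0) ∧
        PowerSeries.map (θ : k⟦X⟧ →+* k⟦X⟧) f = u * ∏ i, (X - PowerSeries.C (w i))

-- deps: CHI GENC SPEC IND CMP IMP CURVE
/-- The family over `k⟦X⟧` before the extension: faithful special fibre, and only cyclic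
stabilizers at points with values in any extension. -/
def S_CP0 : Prop :=
  ∀ (p : ℕ) [Fact p.Prime] (k : Type) [Field k] [Infinite k] [CharP k p]
    (G : Type) [Group G] [Finite G], IsPGroup p G →
    ∃ (c : G → MvPolynomial G k⟦X⟧) (x : G → k⟦X⟧⟦X⟧), IsCoc c ∧
      Small (constantCoeff : k⟦X⟧ →+* k) ⊥ c ∧ (∀ g, constantCoeff (constantCoeff (x g)) = 0) ∧
      (∀ g, x g = X + MvPolynomial.aeval x (c g)) ∧
      (∀ s, s ≠ 1 → PowerSeries.map (constantCoeff : k⟦X⟧ →+* k) (x s) ≠ X) ∧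
      ∀ (Ω : Type) [CommRing Ω] [IsDomain Ω] (ρ : k⟦X⟧ →+* Ω), Function.Injective ρ →
        ∀ y : G → Ω, (∀ g, y g = y 1 + MvPolynomial.eval₂ ρ y (c g)) →
        ∀ H : Subgroup G, (∀ h ∈ H, ∀ a, y (h * a) = y a) → IsCyclic H

-- deps: CP0 WSP CMP EVU CURVE
/-- The family in characteristic `p`. -/
def S_CP : Prop :=
  ∀ (p : ℕ) [Fact p.Prime] (k : Type) [Field k] [IsAlgClosed k] [CharP k p]
    (G : Type) [Group G] [Fintype G] [DecidableEq G], IsPGroup p G →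
    ∃ (c : G → MvPolynomial G k⟦X⟧) (x : G → k⟦X⟧⟦X⟧)
      (α : G →* (k⟦X⟧⟦X⟧ ≃ₐ[k⟦X⟧] k⟦X⟧⟦X⟧)) (i : G →* (k⟦X⟧ ≃ₐ[k] k⟦X⟧)),
      IsCoc c ∧ Small (constantCoeff : k⟦X⟧ →+* k) ⊥ c ∧
      (∀ g, constantCoeff (constantCoeff (x g)) = 0) ∧
      (∀ g, x g = X + MvPolynomial.aeval x (c g)) ∧ (∀ g, α g X = x g) ∧
      (∀ g, i g X = PowerSeries.map (constantCoeff : k⟦X⟧ →+* k) (x g)) ∧
      Function.Injective i ∧ (∀ g, g ≠ 1 → x g ≠ X) ∧
      (∃ (r : ℕ) (w : Fin r → k⟦X⟧) (u : k⟦X⟧⟦X⟧), IsUnit u ∧ (∀ i, constantCoeff (w i) = 0) ∧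
        ∏ g ∈ Finset.univ.erase (1 : G), (X - x g) = u * ∏ i, (X - PowerSeries.C (w i))) ∧
      ∀ (ev : k⟦X⟧⟦X⟧ →ₐ[k⟦X⟧] k⟦X⟧) (H : Subgroup G), (∀ h ∈ H, ev (x h) = ev X) → IsCyclic H

/-! ### Partition of unity in characteristic `p` -/

-- deps:
/-- Euler's identity: invariant multiples of the different are traces. -/
def S_EUL : Prop :=
  ∀ (G A : Type) [Group G] [Fintype G] [DecidableEq G] [CommRing A] [IsDomain A]
    [MulSemiringAction G A] (z : A), (∀ g : G, g ≠ 1 → g • z ≠ z) → ∀ b, dif G z ∣ b →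
    ((∀ g : G, g • b = b) → ∃ β : A, ∑ g : G, g • β = b) ∧
    (∀ s : G, s • b = b → ∃ β : A, ∑ i ∈ Finset.range (orderOf s), s ^ i • β = b)

-- deps: CMP EVE RED
/-- The patches: one for each orbit of ramification points, and a free one. -/
def S_PU1 : Prop :=
  ∀ (G L : Type) [Group G] [Fintype G] [DecidableEq G] [CommRing L] [IsDomain L]
    [IsDiscreteValuationRing L] [MulSemiringAction G L⟦X⟧] (ϖ : L), Irreducible ϖ →
    IsAdicComplete (maximalIdeal L) L →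
    (∀ (g : G) (r : L), g • (PowerSeries.C r : L⟦X⟧) = PowerSeries.C r) →
    (∃ (r : ℕ) (w : Fin r → L) (u : L⟦X⟧), IsUnit u ∧ (∀ i, w i ∈ maximalIdeal L) ∧
      dif G (X : L⟦X⟧) = u * ∏ i, (X - PowerSeries.C (w i))) →
    (∀ (ev : L⟦X⟧ →ₐ[L] L) (H : Subgroup G), (∀ h ∈ H, ev (h • (X : L⟦X⟧)) = ev X) → IsCyclic H) →
    ∃ (J : Type) (_ : Fintype J) (s : J → G) (d : J → L⟦X⟧) (j₀ : J),
      s j₀ = 1 ∧ d j₀ = 1 ∧ (∀ j, s j • d j = d j) ∧ (∀ j, ¬ (PowerSeries.C ϖ : L⟦X⟧) ∣ d j) ∧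
      (∀ z z' : Tr s, z ≠ z' → Cop (PowerSeries.C ϖ : L⟦X⟧) (z.2.out • d z.1) (z'.2.out • d z'.1)) ∧
      dif G (X : L⟦X⟧) ∣ d j₀ * cof s d j₀

-- deps: EUL
/-- From the patches to the partition of unity. -/
def S_PU2 : Prop :=
  ∀ (G A J : Type) [Group G] [Fintype G] [DecidableEq G] [CommRing A] [IsDomain A]
    [MulSemiringAction G A] [Fintype J] (w z : A), (∀ g : G, g • w = w) →
    (∀ g : G, g ≠ 1 → g • z ≠ z) → ∀ (s : J → G) (d : J → A) (j₀ : J),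
    s j₀ = 1 → d j₀ = 1 → (∀ j, s j • d j = d j) → (∀ j, ¬ w ∣ d j) →
    (∀ y y' : Tr s, y ≠ y' → Cop w (y.2.out • d y.1) (y'.2.out • d y'.1)) →
    dif G z ∣ d j₀ * cof s d j₀ →
    ∃ (q β : J → A) (c e : ℕ), PU w s d q β c e

/-! ### Characteristic zero -/

-- deps: CMP EVE
-- imports: Pool.Agent.P.MP_41a2b4_ag.Ring
/-- The base ring. -/
def S_RING : Prop :=
  ∀ (p : ℕ) [Fact p.Prime] (k : Type) [Field k] [IsAlgClosed k] [CharP k p] (a N : ℕ), 0 < N →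
    ∃ (R : Type) (_ : CommRing R) (_ : IsDomain R) (_ : IsDiscreteValuationRing R)
      (_ : Algebra (WittVector p k) R) (_ : Module.Finite (WittVector p k) R)
      (ϖ ζ : R) (π : R →+* k) (θ : k⟦X⟧ →+* R ⧸ Ideal.span {ϖ ^ N}),
      IsAdicComplete (maximalIdeal R) R ∧ Irreducible ϖ ∧ IsPrimitiveRoot ζ (p ^ a) ∧
      ϖ ^ N ∣ ζ - 1 ∧ Function.Injective (algebraMap (WittVector p k) R) ∧
      (∀ w, π (algebraMap (WittVector p k) R w) = WittVector.constantCoeff w) ∧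
      Function.Surjective π ∧ (∀ r, π r = 0 ↔ ϖ ∣ r) ∧ θ X = Ideal.Quotient.mk _ ϖ ∧
      ∀ f r, θ f = Ideal.Quotient.mk _ r → π r = constantCoeff f

-- deps:
/-- Twisted invariants of a permutation module are twisted norms. -/
def S_TN : Prop :=
  ∀ (G R : Type) [Group G] [Finite G] [CommRing R] [IsDomain R] (s : G) (ξ : R),
    IsPrimitiveRoot ξ (orderOf s) → ∀ η : MvPolynomial G R,
    MvPolynomial.C ξ * MvPolynomial.rename (s * ·) η = η →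
    ∃ δ : MvPolynomial G R, ∑ i ∈ Finset.range (orderOf s),
      MvPolynomial.C (ξ ^ i) * MvPolynomial.rename (s ^ i * ·) δ = η

-- deps: TN
/-- Twisted lifting of a cocycle along a cyclic subgroup. -/
def S_TW : Prop :=
  ∀ (G R : Type) [Group G] [Finite G] [CommRing R] [IsDomain R] (s : G) (ξ l : R),
    IsPrimitiveRoot ξ (orderOf s) → l ≠ 0 → l ∣ ξ - 1 → ∀ F : G → MvPolynomial G R,
    (∀ h g, MvPolynomial.C l ∣ F (h * g) - F h - MvPolynomial.rename (h * ·) (F g)) →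
    ∃ (φ : G → MvPolynomial G R) (γ : MvPolynomial G R), (∀ g, MvPolynomial.C l ∣ φ g - F g) ∧
      ∀ g, φ (s * g) = γ + MvPolynomial.C ξ * MvPolynomial.rename (s * ·) (φ g)

-- deps:
/-- Lifting the cocycle modulo `l`. -/
def S_LIFT : Prop :=
  ∀ (G L R k : Type) [Group G] [CommRing L] [CommRing R] [CommRing k] (l : R)
    (θ : L →+* R ⧸ Ideal.span {l}) (ε : L →+* k) (π : R →+* k),
    (∀ f r, θ f = Ideal.Quotient.mk _ r → π r = ε f) →
    ∀ c : G → MvPolynomial G L, IsCoc c →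
    ∃ c' : G → MvPolynomial G R, c' 1 = 0 ∧
      (∀ g, MvPolynomial.map (Ideal.Quotient.mk (Ideal.span {l})) (c' g) =
        MvPolynomial.map θ (c g)) ∧
      (∀ g, MvPolynomial.map π (c' g) = MvPolynomial.map ε (c g)) ∧
      ∀ h g, MvPolynomial.C l ∣ c' (h * g) - c' h - MvPolynomial.rename (h * ·) (c' g)

-- deps: CMP EVU EVE IMP
/-- The action on the tube. -/
def S_TUBE : Prop :=
  ∀ (G R : Type) [Group G] [Finite G] [CommRing R] [IsDomain R] (m : Ideal R),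
    IsAdicComplete m R → ∀ ϖ ∈ m, ϖ ≠ 0 → ∀ M N : ℕ, M < N →
    ∀ c : G → MvPolynomial G R, c 1 = 0 → Small (RingHom.id R) m c →
    (∀ h g, MvPolynomial.C (ϖ ^ N) ∣ c (h * g) - c h - MvPolynomial.rename (h * ·) (c g)) →
    ∃ (x : G → MvPowerSeries G R) (α : G →* (MvPowerSeries G R ≃ₐ[R] MvPowerSeries G R)),
      (∀ g, x g ∈ nb G m) ∧ x 1 = MvPowerSeries.X 1 ∧
      (∀ g, x g = MvPowerSeries.X 1 + MvPolynomial.aeval x (c g) +
        MvPowerSeries.C ϖ ^ M * yv R g) ∧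
      (∀ h g, α h (x g) = x (h * g)) ∧ ∀ h g, α h (MvPowerSeries.X g) ∈ nb G m

-- deps: CMP EVU EVE IMP RED
/-- Modulo `ϖ ^ M` the tube is equivariantly a cylinder over the curve in characteristic `p`. -/
def S_EQV : Prop :=
  ∀ (G L R : Type) [Group G] [Finite G] [CommRing L] [CommRing R] (ϖ₀ : L) (ϖ : R) (M : ℕ)
    (θ : L →+* R ⧸ Ideal.span {ϖ ^ M}), θ ϖ₀ = Ideal.Quotient.mk _ ϖ →
    ∀ (c₀ : G → MvPolynomial G L) (x₀ : G → L⟦X⟧) (α₀ : G →* (L⟦X⟧ ≃ₐ[L] L⟦X⟧)),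
    Small (RingHom.id L) (Ideal.span {ϖ₀}) c₀ → (∀ g, x₀ g ∈ nb1 (Ideal.span {ϖ₀})) →
    (∀ g, x₀ g = X + MvPolynomial.aeval x₀ (c₀ g)) → (∀ g, α₀ g X = x₀ g) →
    ∀ (c : G → MvPolynomial G R) (x : G → MvPowerSeries G R)
      (α : G →* (MvPowerSeries G R ≃ₐ[R] MvPowerSeries G R)),
    (∀ g, MvPolynomial.map (Ideal.Quotient.mk (Ideal.span {ϖ ^ M})) (c g) =
      MvPolynomial.map θ (c₀ g)) →
    (∀ g, x g ∈ nb G (Ideal.span {ϖ})) →
    (∀ g, x g = MvPowerSeries.X 1 + MvPolynomial.aeval x (c g) + MvPowerSeries.C ϖ ^ M * yv R g) →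
    (∀ g, α g (MvPowerSeries.X 1) = x g) →
    ∀ (g : G) (a : L⟦X⟧) (b : MvPowerSeries G R),
      PowerSeries.toMvPowerSeries (1 : G) (PowerSeries.map θ a) =
        MvPowerSeries.map (Ideal.Quotient.mk (Ideal.span {ϖ ^ M})) b →
      PowerSeries.toMvPowerSeries (1 : G) (PowerSeries.map θ (α₀ g a)) =
        MvPowerSeries.map (Ideal.Quotient.mk (Ideal.span {ϖ ^ M})) (α g b)

-- deps:
/-- Coefficientwise reduction of power series. -/
def S_RED : Prop :=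
  ∀ (σ R : Type) [CommRing R],
    (∀ l : R, Function.Surjective
      (MvPowerSeries.map (σ := σ) (Ideal.Quotient.mk (Ideal.span {l}))) ∧
      ∀ b : MvPowerSeries σ R, MvPowerSeries.map (Ideal.Quotient.mk (Ideal.span {l})) b = 0 ↔
        MvPowerSeries.C l ∣ b) ∧
    (∀ l : R, Prime l → Prime (MvPowerSeries.C l : MvPowerSeries σ R)) ∧
    ∀ (k : Type) [Field k] (l ϖ : R) (π : R →+* k) (θ : k⟦X⟧ →+* R ⧸ Ideal.span {l}) (i : σ),
      π ϖ = 0 → (∀ f r, θ f = Ideal.Quotient.mk _ r → π r = constantCoeff f) →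
      ∀ (a : k⟦X⟧⟦X⟧) (b : MvPowerSeries σ R),
        PowerSeries.toMvPowerSeries i (PowerSeries.map θ a) =
          MvPowerSeries.map (Ideal.Quotient.mk (Ideal.span {l})) b →
        MvPowerSeries.C ϖ ∣ b → (PowerSeries.C (X : k⟦X⟧) : k⟦X⟧⟦X⟧) ∣ a

-- deps: FIX
/-- Hensel factorization of an eigenfunction. -/
def S_HEN : Prop :=
  ∀ (B : Type) [CommRing B] [IsDomain B] (ϖ : B), Prime ϖ → IsAdicComplete (Ideal.span {ϖ}) B →
    ∀ (M c : ℕ), 2 * c < M → ∀ d₀ q₀ φ u v : B, ϖ ^ M ∣ u * d₀ + v * q₀ - ϖ ^ c →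
    ϖ ^ M ∣ φ - d₀ * q₀ → ¬ ϖ ∣ d₀ →
    ∃ d q, φ = d * q ∧ ϖ ^ (M - c) ∣ d - d₀ ∧ ϖ ^ (M - c) ∣ q - q₀ ∧
      ∀ (τ : B →+* B) (ξ : B), τ ϖ = ϖ → τ φ = ξ * φ → ϖ ^ M ∣ τ d₀ - d₀ → ϖ ^ M ∣ τ q₀ - q₀ →
        ∃ w, τ d = d * (1 + ϖ ^ (M - c) * w)

-- deps: HEN
/-- Gluing: an invariant divisor and eigenfunctions divisible by it. -/
def S_GLUE : Prop :=
  ∀ (G A B C J : Type) [Group G] [Finite G] [CommRing A] [CommRing B] [IsDomain B] [CommRing C]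
    [MulSemiringAction G A] [MulSemiringAction G B] [Fintype J]
    (w : A) (s : J → G) (d q β : J → A) (c e : ℕ), PU w s d q β c e →
    ∀ (ϖ : B), Prime ϖ → (∀ g : G, g • ϖ = ϖ) → IsAdicComplete (Ideal.span {ϖ}) B →
    ∀ (M : ℕ), 2 * c < M → c + e < M →
    ∀ (red : B →+* C) (r : A →+* C), Function.Surjective red → (∀ b, red b = 0 ↔ ϖ ^ M ∣ b) →
    (∀ (g : G) a b, r a = red b → r (g • a) = red (g • b)) → r w = red ϖ →
    (∀ a b, r a = red b → ϖ ∣ b → w ∣ a) →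
    ∀ ξ : J → B, (∀ (g : G) j, g • ξ j = ξ j) → (∀ j, ξ j ^ orderOf (s j) = 1) →
    (∀ j, ϖ ^ M ∣ ξ j - 1) →
    ∃ (f U : B) (Φ : J → B), f ≠ 0 ∧ IsUnit U ∧ (∀ g : G, ∃ u, IsUnit u ∧ g • f = u * f) ∧
      (∀ j, s j • Φ j = ξ j * Φ j) ∧ (∀ j, f ∣ Φ j) ∧
      ∑ j, ∑ᶠ x : G ⧸ Subgroup.zpowers (s j), x.out • Φ j = f * ϖ ^ e * U

-- deps: TR
/-- The invariant ideal. -/
def S_CUT : Prop :=
  ∀ (G B J : Type) [Group G] [Finite G] [CommRing B] [IsDomain B] [MulSemiringAction G B]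
    [Fintype J] (ϖ : B), ϖ ≠ 0 → (∀ g : G, g • ϖ = ϖ) → ∀ (s : J → G) (ξ Φ : J → B) (f U : B)
    (e M N : ℕ), M + e < N → f ≠ 0 → IsUnit U → (∀ g : G, ∃ u, IsUnit u ∧ g • f = u * f) →
    (∀ j, s j • Φ j = ξ j * Φ j) → (∀ j, f ∣ Φ j) →
    ∑ j, ∑ᶠ x : G ⧸ Subgroup.zpowers (s j), x.out • Φ j = f * ϖ ^ e * U →
    ∀ (y : G → B) (ψ : J → G → B) (γ : J → B),
    (∀ h g, ϖ ^ N ∣ ϖ ^ M * y (h * g) - ϖ ^ M * y h - h • (ϖ ^ M * y g)) →
    (∀ j g, ϖ ^ N ∣ ψ j g - ϖ ^ M * y g) → (∀ j g, ψ j (s j * g) = γ j + ξ j * s j • ψ j g) →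
    ∃ ρ : G → B, y 1 + ϖ * ρ 1 = 0 ∧
      ∀ h g : G, h • (y g + ϖ * ρ g) ∈ Ideal.span (Set.range fun a => y a + ϖ * ρ a)

-- deps: FIX CMP EVU EVE
/-- The quotient of the tube by the invariant ideal is a disc. -/
def S_QUO : Prop :=
  ∀ (G R : Type) [Group G] [Finite G] [CommRing R] (m : Ideal R), IsAdicComplete m R →
    ∀ ϖ ∈ m, ∀ (α : G →* (MvPowerSeries G R ≃ₐ[R] MvPowerSeries G R))
      (ρ : G → MvPowerSeries G R), (∀ h g, α h (MvPowerSeries.X g) ∈ nb G m) →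
    yv R (1 : G) + MvPowerSeries.C ϖ * ρ 1 = 0 →
    (∀ h g : G, α h (yv R g + MvPowerSeries.C ϖ * ρ g) ∈
      Ideal.span (Set.range fun a => yv R a + MvPowerSeries.C ϖ * ρ a)) →
    ∃ (q : MvPowerSeries G R →ₐ[R] R⟦X⟧) (β : G →* (R⟦X⟧ ≃ₐ[R] R⟦X⟧)),
      q (MvPowerSeries.X 1) = X ∧ (∀ g, q (MvPowerSeries.X g) ∈ nb1 m) ∧
      ∀ g b, q (α g b) = β g (q b)

-- deps: EVU IMP
/-- The reduction of the action on the disc. -/
def S_SP : Prop :=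
  ∀ (G R k : Type) [Group G] [Finite G] [CommRing R] [CommRing k] (m : Ideal R) (π : R →+* k),
    (∀ r ∈ m, π r = 0) → ∀ ϖ ∈ m, ∀ M : ℕ, 0 < M →
    ∀ (c : G → MvPolynomial G R) (x : G → MvPowerSeries G R) (q : MvPowerSeries G R →ₐ[R] R⟦X⟧)
      (β : G →* (R⟦X⟧ ≃ₐ[R] R⟦X⟧)) (i : G →* (k⟦X⟧ ≃ₐ[k] k⟦X⟧)),
    Small (RingHom.id R) m c → (∀ g, x g ∈ nb G m) →
    (∀ g, x g = MvPowerSeries.X 1 + MvPolynomial.aeval x (c g) + MvPowerSeries.C ϖ ^ M * yv R g) →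
    q (MvPowerSeries.X 1) = X → (∀ g, q (MvPowerSeries.X g) ∈ nb1 m) → (∀ g, β g X = q (x g)) →
    (∀ g, constantCoeff (i g X) = 0) →
    (∀ g, i g X = X + MvPolynomial.aeval (fun a => i a X) (MvPolynomial.map π (c g))) →
    ∀ (g : G) (f : R⟦X⟧), PowerSeries.map π (β g f) = i g (PowerSeries.map π f)

-- deps: CP PU1 PU2 RING TW LIFT TUBE EQV RED GLUE CUT QUO SP CMP
/-- The theorem. -/
def S_MAIN : Prop :=
  ∀ (p : ℕ) [Fact p.Prime] (k : Type) [Field k] [IsAlgClosed k] [CharP k p]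
    (G : Type) [Group G] [Finite G], IsPGroup p G → WeakLift p k G

end Pool.Agent.P.MP_41a2b4_ag.W
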